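import Pool.Agent.Helper26.Sw.Gm

/-! # The limit eigenfunction vanishes -/

set_option autoImplicit false

open MeasureTheory Filter Topology
open scoped BigOperators ENNReal NNReal InnerProductSpace ComplexConjugate Matrix

namespace Pool.Agent.Helper26.Sw

open Pool.Agent.H5R2.NB Pool.Agent.Helper26.Rg Pool.Agent.Helper26.Nb

variable {d : ℕ} {Θ : Type} [MeasurableSpace Θ] {m : Measure Θ} [IsProbabilityMeasure m]
  {τ : Site d → Θ → Θ} {ν : Measure ℝ} [IsProbabilityMeasure ν]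
  {c R E α β : ℝ} {η : ℕ → ℝ} {F : ℕ → (Site d → ℝ) × Θ → ℂ} {φ : (Site d → ℝ) × Θ → ℂ}
  {g : (Site d → ℝ) × Θ → ℝ} {s : Finset (Site d)}

theorem Dat.dich [NullSingletonClass ν] (D : Dat m ν τ c R E η F φ g s) (hc : c ≠ 0) :
    ∀ᵐ p ∂((PP d ν).prod m), (∀ x, fd τ φ p x = 0) ∨ ∀ x, fd τ φ p x ≠ 0 := by
  filter_upwards [D.conv1, D.off] with p h1 h2
  rcases irred hc (V := p.1) D.pos D.lim (fun x => fd τ φ p x ≠ 0) (fun y x hy => h1 y x hy)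
    (fun y x hy hx => h2 y x hy (not_not.1 hx)) with h | h
  · exact Or.inl fun x => not_not.1 (h x)
  · exact Or.inr h

lemma Dat.bdp (D : Dat m ν τ c R E η F φ g s) :
    ∀ᵐ p ∂((PP d ν).prod m), ∀ x, |p.1 x| ≤ R := by
  rw [ae_all_iff]
  intro x
  have h1 : MeasurePreserving (fun p : (Site d → ℝ) × Θ => p.1 x) ((PP d ν).prod m) ν :=
    (measurePreserving_eval_infinitePi (fun _ : Site d => ν) x).comp measurePreserving_fst
  exact h1.quasiMeasurePreserving.ae D.bd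

theorem Dat.pairΛ [NullSingletonClass ν] (D : Dat m ν τ c R E η F φ g s) (L : Law ν α β)
    (Λ : Finset (Site d)) :
    ∀ᵐ q ∂(((PP d ν).prod m).prod (PP d ν)), (∀ x, fd τ φ q.1 x ≠ 0) →
      ∃ G' : Matrix Λ Λ ℝ, (1 + Gm c R E η q.1.1 Λ *
        Matrix.diagonal (fun x : Λ => q.2 x - q.1.1 x)) * G' = Gm c R E η q.1.1 Λ ∧
      ∀ y : Λ, 0 ≤ 1 + (α - q.2 y) * G' y y ∧ 0 ≤ 1 + (β - q.2 y) * G' y y := by
  have hg : ∀ᵐ p ∂((PP d ν).prod m), (∀ x, fd τ φ p x ≠ 0) →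
      Cv c R E η p.1 ∧ (∀ x, |p.1 x| ≤ R) ∧ ∀ y,
      0 ≤ 1 + (α - p.1 y) * gl c R E η p.1 y y ∧ 0 ≤ 1 + (β - p.1 y) * gl c R E η p.1 y y := by
    filter_upwards [D.conv1, D.bdp, D.pol L] with p h1 h2 h3 h4
    exact ⟨fun y x => h1 y x (h4 y), h2, fun y => h3 y (h4 y)⟩
  have hf : MeasurePreserving (fun q : ((Site d → ℝ) × Θ) × (Site d → ℝ) => q.1)
      (((PP d ν).prod m).prod (PP d ν)) ((PP d ν).prod m) := measurePreserving_fst
  filter_upwards [hf.quasiMeasurePreserving.ae hg, D.suppΛ Λ,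
    (hf.comp (mp_ms (m := m) (ν := ν) Λ)).quasiMeasurePreserving.ae hg] with q h1 h2 h3 h4
  obtain ⟨a1, a2, a3⟩ := h1 h4
  obtain ⟨b1, b2, b3⟩ := h3 (h2 h4)
  have e : ∀ x : Λ, (((fun q : ((Site d → ℝ) × Θ) × (Site d → ℝ) => q.1) ∘ ms Λ) q).1
      (x : Site d) = q.2 x := by
    intro x
    show (if (x : Site d) ∈ Λ then q.2 x else q.1.1 x) = _
    rw [if_pos x.2]
  refine ⟨Gm c R E η (ms Λ q).1.1 Λ, ?_, fun y => ?_⟩
  · have h5 := Gm_rel D.pos a1 b1 Λ (fun w hw => by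
      show (if w ∈ Λ then q.2 w else q.1.1 w) = _
      rw [if_neg hw]) a2 b2
    have h6 : (fun x : Λ => q.2 x - q.1.1 x) = fun x : Λ =>
        (((fun q : ((Site d → ℝ) × Θ) × (Site d → ℝ) => q.1) ∘ ms Λ) q).1 x - q.1.1 x := by
      funext x
      rw [e]
    rw [h6]
    exact h5
  · have h5 := b3 y
    rw [e] at h5
    exact h5

theorem Dat.cubeΛ [NullSingletonClass ν] (D : Dat m ν τ c R E η F φ g s) (L : Law ν α β)
    (Λ : Finset (Site d)) :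
    ∀ᵐ p ∂((PP d ν).prod m), (∀ x, fd τ φ p x ≠ 0) → (∀ x ∈ Λ, p.1 x ∈ Set.Ioo α β) →
      ∀ w : Λ → ℝ, (∀ x, w x ∈ Set.Ioo α β) →
      0 < (1 + Gm c R E η p.1 Λ * Matrix.diagonal (fun x : Λ => w x - p.1 x)).det := by
  filter_upwards [Measure.ae_ae_of_ae_prod (D.pairΛ L Λ)] with p h1 h2 h3 w hw
  exact cube L Λ p.1 h3 _ (h1.mono fun W hW => hW h2) w hw

/-- the support is not everything -/
theorem Dat.notfull [NullSingletonClass ν] (D : Dat m ν τ c R E η F φ g s) (L : Law ν α β)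
    (hd : 0 < d) (hc : c ≠ 0) {t₀ : ℝ} (ht₀ : t₀ ∈ Set.Ioo α β) (hE : |E - t₀| ≤ 2 * d * |c|) :
    ∀ᵐ p ∂((PP d ν).prod m), ¬ ∀ x, fd τ φ p x ≠ 0 := by
  classical
  by_contra hcon
  set A : Set ((Site d → ℝ) × Θ) := {p | ∀ x, fd τ φ p x ≠ 0} with hA
  have hA0 : ((PP d ν).prod m) A ≠ 0 := by
    intro h
    exact hcon (measure_eq_zero_iff_ae_notMem.1 h)
  -- parameters
  set δ₀ : ℝ := min (t₀ - α) (β - t₀) with hδ₀
  have hδp : 0 < δ₀ := lt_min (by linarith [ht₀.1]) (by linarith [ht₀.2])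
  have hδ1 : δ₀ ≤ t₀ - α := min_le_left _ _
  have hδ2 : δ₀ ≤ β - t₀ := min_le_right _ _
  obtain ⟨Λ, ψ, hψ0, hψ1, hψ2, hψ3⟩ := test hd hc hE (ε := δ₀ / 4) (by positivity)
  set U : Set (Site d → ℝ) := {W | ∀ x ∈ Λ, |W x - t₀| < δ₀ / 4} with hU
  have hUo : IsOpen U := by
    have : U = ⋂ x ∈ Λ, {W : Site d → ℝ | |W x - t₀| < δ₀ / 4} := by
      ext W; simp [hU]
    rw [this]
    refine isOpen_biInter_finset fun x _ => ?_
    exact isOpen_lt (by fun_prop) continuous_const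
  have hU0 : PP d ν U ≠ 0 := by
    refine supp_pos L hUo (W := fun _ => t₀) ?_ fun _ => ht₀
    intro x _
    simp only [sub_self, abs_zero]
    positivity
  have hg : ∀ᵐ p ∂((PP d ν).prod m), (∀ x, fd τ φ p x ≠ 0) →
      Cv c R E η p.1 ∧ (∀ x, |p.1 x| ≤ R) ∧ ((∀ x ∈ Λ, p.1 x ∈ Set.Ioo α β) →
      ∀ w : Λ → ℝ, (∀ x, w x ∈ Set.Ioo α β) →
      0 < (1 + Gm c R E η p.1 Λ * Matrix.diagonal (fun x : Λ => w x - p.1 x)).det) := by
    filter_upwards [D.conv1, D.bdp, D.cubeΛ L Λ] with p h1 h2 h3 h4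
    exact ⟨fun y x => h1 y x (h4 y), h2, h3 h4⟩
  have hf : MeasurePreserving (fun q : ((Site d → ℝ) × Θ) × (Site d → ℝ) => q.1)
      (((PP d ν).prod m).prod (PP d ν)) ((PP d ν).prod m) := measurePreserving_fst
  have hae : ∀ᵐ q ∂(((PP d ν).prod m).prod (PP d ν)), (∀ x, fd τ φ q.1 x ≠ 0) →
      Cv c R E η (ms Λ q).1.1 ∧ (∀ x, |(ms Λ q).1.1 x| ≤ R) ∧
      ((∀ x ∈ Λ, (ms Λ q).1.1 x ∈ Set.Ioo α β) →
      ∀ w : Λ → ℝ, (∀ x, w x ∈ Set.Ioo α β) →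
      0 < (1 + Gm c R E η (ms Λ q).1.1 Λ *
        Matrix.diagonal (fun x : Λ => w x - (ms Λ q).1.1 x)).det) := by
    filter_upwards [D.suppΛ Λ, (hf.comp (mp_ms (m := m) (ν := ν) Λ)).quasiMeasurePreserving.ae hg]
      with q h2 h3 h4
    exact h3 (h2 h4)
  have hex : ∃ q : ((Site d → ℝ) × Θ) × (Site d → ℝ), q.1 ∈ A ∧ q.2 ∈ U ∧
      ((∀ x, fd τ φ q.1 x ≠ 0) → Cv c R E η (ms Λ q).1.1 ∧ (∀ x, |(ms Λ q).1.1 x| ≤ R) ∧
      ((∀ x ∈ Λ, (ms Λ q).1.1 x ∈ Set.Ioo α β) →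
      ∀ w : Λ → ℝ, (∀ x, w x ∈ Set.Ioo α β) →
      0 < (1 + Gm c R E η (ms Λ q).1.1 Λ *
        Matrix.diagonal (fun x : Λ => w x - (ms Λ q).1.1 x)).det)) := by
    by_contra hno
    push Not at hno
    have h1 : (((PP d ν).prod m).prod (PP d ν)) (A ×ˢ U) = 0 := by
      refine measure_mono_null (fun q hq => ?_) (ae_iff.1 hae)
      intro h
      obtain ⟨h2, h3⟩ := hno q hq.1 hq.2
      obtain ⟨b1, b2, b3⟩ := h h2
      obtain ⟨c1, w, c2, c3⟩ := h3 b1 b2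
      exact absurd (b3 c1 w c2) (not_lt.2 c3)
    rw [Measure.prod_prod, mul_eq_zero] at h1
    exact h1.elim hA0 hU0
  obtain ⟨q, hqA, hqU, hq⟩ := hex
  obtain ⟨hC, hb, hdet⟩ := hq hqA
  set V := (ms Λ q).1.1 with hV
  have hVΛ : ∀ x ∈ Λ, |V x - t₀| < δ₀ / 4 := by
    intro x hx
    have : V x = q.2 x := by
      show (if x ∈ Λ then q.2 x else q.1.1 x) = _
      rw [if_pos hx]
    rw [this]
    exact hqU x hx
  have hVI : ∀ x ∈ Λ, V x ∈ Set.Ioo α β := by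
    intro x hx
    have := abs_lt.1 (hVΛ x hx)
    exact ⟨by linarith, by linarith⟩
  have hdet2 : ∀ t : ℝ, |t| < 3 * δ₀ / 4 → (1 + t • Gm c R E η V Λ).det ≠ 0 := by
    intro t ht
    have ht' := abs_lt.1 ht
    have h1 := hdet hVI (fun x => V x + t) (fun x => by
      have := abs_lt.1 (hVΛ x x.2)
      exact ⟨by linarith, by linarith⟩)
    have h2 : Gm c R E η V Λ * Matrix.diagonal (fun x : Λ => V x + t - V x) =
        t • Gm c R E η V Λ := by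
      ext x y
      simp [Matrix.mul_diagonal, mul_comm]
    rw [h2] at h1
    exact h1.ne'
  set r : L2 (Site d) := Tm c R V ψ - (E : ℂ) • ψ with hr
  set q' : L2 (Site d) := r - (Kp d c ψ - ((E - t₀ : ℝ) : ℂ) • ψ) with hq'
  have hq'x : ∀ x, q' x = (((V x - t₀ : ℝ)) : ℂ) * ψ x := by
    intro x
    have hcl : cl R V = V := cl_eq hb
    rw [hq', hr]
    rw [lp.coeFn_sub, Pi.sub_apply, lp.coeFn_sub, Pi.sub_apply, lp.coeFn_sub, Pi.sub_apply,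
      lp.coeFn_smul, Pi.smul_apply, smul_eq_mul, lp.coeFn_smul, Pi.smul_apply, smul_eq_mul,
      Tm_apply, Kp_hop d c, hcl]
    push_cast
    ring
  have hrx : ∀ x, x ∉ Λ → r x = 0 := by
    intro x hx
    have h1 : r = q' + (Kp d c ψ - ((E - t₀ : ℝ) : ℂ) • ψ) := by rw [hq']; abel
    rw [h1, lp.coeFn_add, Pi.add_apply, hq'x, lp.coeFn_sub, Pi.sub_apply, lp.coeFn_smul,
      Pi.smul_apply, smul_eq_mul, hψ1 x hx, hψ2 x hx]
    simp
  have hnq : ‖q'‖ ≤ δ₀ / 4 * ‖ψ‖ := by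
    have h1 : ‖q'‖ ^ 2 ≤ (δ₀ / 4 * ‖ψ‖) ^ 2 := by
      rw [norm_sq_supp Λ q' (fun x hx => by rw [hq'x, hψ1 x hx, mul_zero]), mul_pow,
        norm_sq_supp Λ ψ hψ1, Finset.mul_sum]
      refine Finset.sum_le_sum fun x hx => ?_
      rw [hq'x, norm_mul, mul_pow, Complex.norm_real, Real.norm_eq_abs]
      have h2 := (hVΛ x hx).le
      gcongr
    exact (pow_le_pow_iff_left₀ (norm_nonneg _) (by positivity) two_ne_zero).1 h1
  have hlow := lower D.pos D.lim hC Λ (by positivity) hdet2 ψ r hr.symm hψ1 hrx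
  have hup : ‖r‖ ≤ δ₀ / 4 * ‖ψ‖ + δ₀ / 4 * ‖ψ‖ := by
    have h1 : r = q' + (Kp d c ψ - ((E - t₀ : ℝ) : ℂ) • ψ) := by rw [hq']; abel
    rw [h1]
    exact (norm_add_le _ _).trans (add_le_add hnq hψ3)
  have h5 : 0 < δ₀ * ‖ψ‖ := by positivity
  have h6 : 3 * δ₀ / 4 * ‖ψ‖ ≤ δ₀ / 4 * ‖ψ‖ + δ₀ / 4 * ‖ψ‖ := hlow.trans hup
  nlinarith

/-- the limit eigenfunction vanishes -/
theorem Dat.zero [NullSingletonClass ν] (D : Dat m ν τ c R E η F φ g s) (L : Law ν α β)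
    (hd : 0 < d) (hc : c ≠ 0) {t₀ : ℝ} (ht₀ : t₀ ∈ Set.Ioo α β) (hE : |E - t₀| ≤ 2 * d * |c|) :
    ∀ᵐ p ∂((PP d ν).prod m), φ p = 0 := by
  filter_upwards [D.dich hc, D.notfull L hd hc ht₀ hE] with p h1 h2
  have h3 := (h1.resolve_right h2) 0
  have h4 : fd τ φ p 0 = φ p := by
    unfold fd
    rw [sX_zero D.act.zero]
  rwa [h4] at h3

end Pool.Agent.Helper26.Sw
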