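import Pool.Agent.Helper26.Sw.Mn

/-! # Quasi-momenta -/

set_option autoImplicit false

open MeasureTheory Filter Topology
open scoped BigOperators ENNReal NNReal InnerProductSpace ComplexConjugate Matrix

namespace Pool.Agent.Helper26.Sw

open Pool.Agent.H5R2.NB Pool.Agent.Helper26.Rg Pool.Agent.Helper26.Nb

variable {d : ℕ} {Θ : Type} [MeasurableSpace Θ] {m : Measure Θ} [IsProbabilityMeasure m]
  {τ : Site d → Θ → Θ} {ν : Measure ℝ} [IsProbabilityMeasure ν] {c R α β : ℝ}

/-- `e^{i k·x}` -/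
noncomputable def ph (k : Fin d → ℝ) (x : Site d) : ℂ :=
  Complex.exp (Complex.I * ((∑ i, k i * (x i : ℝ) : ℝ) : ℂ))

lemma norm_ph (k : Fin d → ℝ) (x : Site d) : ‖ph k x‖ = 1 := by
  unfold ph
  rw [mul_comm]
  exact Complex.norm_exp_ofReal_mul_I _

lemma ph_zero (k : Fin d → ℝ) : ph k 0 = 1 := by
  unfold ph
  simp

lemma ph_add (k : Fin d → ℝ) (x y : Site d) : ph k (x + y) = ph k x * ph k y := by
  unfold ph
  rw [← Complex.exp_add, ← mul_add, ← Complex.ofReal_add, ← Finset.sum_add_distrib]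
  congr 4
  funext i
  simp only [Pi.add_apply]
  push_cast
  ring

/-- fields with quasi-momentum `k` -/
noncomputable def fk (τ : Site d → Θ → Θ) (k : Fin d → ℝ) (f : (Site d → ℝ) × Θ → ℂ)
    (p : (Site d → ℝ) × Θ) (x : Site d) : ℂ := ph k x * f (sX τ x p)

/-- the extended system -/
noncomputable def τk (τ : Site d → Θ → Θ) (k : Fin d → ℝ) (x : Site d)
    (q : Θ × UnitAddCircle) : Θ × UnitAddCircle :=
  (τ x q.1, q.2 + ((((∑ i, k i * (x i : ℝ)) / (2 * Real.pi) : ℝ)) : UnitAddCircle))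

lemma act_k (hτ : Act m τ) (k : Fin d → ℝ) :
    Act (m.prod (AddCircle.haarAddCircle : Measure UnitAddCircle)) (τk τ k) where
  mp x := (hτ.mp x).prod (measurePreserving_add_right _ _)
  zero q := by
    unfold τk
    refine Prod.ext (hτ.zero _) ?_
    simp
  add x y q := by
    unfold τk
    refine Prod.ext (hτ.add _ _ _) ?_
    show q.2 + _ = q.2 + _ + _
    rw [add_assoc, ← AddCircle.coe_add]
    congr 2
    rw [← add_div, ← Finset.sum_add_distrib]
    congr 1
    refine Finset.sum_congr rfl fun i _ => ?_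
    simp only [Pi.add_apply]
    push_cast
    ring

/-- **no Bloch waves, for all quasi-momenta** -/
theorem mainK [NullSingletonClass ν] (hτ : Act m τ) (L : Law ν α β) (hd : 0 < d) (hc : c ≠ 0)
    (k : Fin d → ℝ) (E : ℂ) {ψ : (Site d → ℝ) × Θ → ℂ} (hψ : MemLp ψ 2 ((PP d ν).prod m))
    (heq : ∀ᵐ p ∂((PP d ν).prod m), hopf c (fk τ k ψ p) 0 + p.1 0 * ψ p = E * ψ p) :
    ∀ᵐ p ∂((PP d ν).prod m), ψ p = 0 := by
  set m' := m.prod (AddCircle.haarAddCircle : Measure UnitAddCircle) with hm'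
  set π : (Site d → ℝ) × (Θ × UnitAddCircle) → (Site d → ℝ) × Θ := fun p => (p.1, p.2.1) with hπ
  have hmp : MeasurePreserving π ((PP d ν).prod m') ((PP d ν).prod m) :=
    (MeasurePreserving.id _).prod measurePreserving_fst
  set ψ' : (Site d → ℝ) × (Θ × UnitAddCircle) → ℂ := fun p => fourier 1 p.2.2 * ψ (π p) with hψ'
  have hn : ∀ p, ‖(fourier 1 p : ℂ)‖ = 1 := fun p : UnitAddCircle => by
    rw [fourier_apply]
    exact Circle.norm_coe _
  have hmem : MemLp ψ' 2 ((PP d ν).prod m') := by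
    have h1 : MemLp (ψ ∘ π) 2 ((PP d ν).prod m') := hψ.comp_measurePreserving hmp
    refine h1.of_le ?_ (Eventually.of_forall fun p => ?_)
    · refine AEStronglyMeasurable.mul ?_ h1.1
      exact ((fourier 1).continuous.measurable.comp
        (measurable_snd.comp measurable_snd)).aestronglyMeasurable
    · rw [hψ']
      simp only
      rw [norm_mul, hn, one_mul]
      rfl
  have hfd : ∀ p x, fd (τk τ k) ψ' p x = fourier 1 p.2.2 * fk τ k ψ (π p) x := by
    intro p x
    unfold fd fk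
    rw [hψ']
    simp only
    have e1 : (fourier 1 (sX (τk τ k) x p).2.2 : ℂ) = fourier 1 p.2.2 * ph k x := by
      show (fourier 1 (p.2.2 + ((((∑ i, k i * (x i : ℝ)) / (2 * Real.pi) : ℝ)) :
        UnitAddCircle)) : ℂ) = _
      rw [fourier_one, fourier_one, AddCircle.toCircle_add, Circle.coe_mul]
      congr 1
      rw [← fourier_one, fourier_coe_apply]
      unfold ph
      congr 1
      have : (Real.pi : ℂ) ≠ 0 := by exact_mod_cast Real.pi_ne_zero
      push_cast
      field_simp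
    rw [e1, mul_assoc]
    rfl
  have heq' : ∀ᵐ p ∂((PP d ν).prod m'), hopf c (fd (τk τ k) ψ' p) 0 + p.1 0 * ψ' p =
      E * ψ' p := by
    filter_upwards [hmp.quasiMeasurePreserving.ae heq] with p hp
    have e1 : hopf c (fd (τk τ k) ψ' p) 0 = fourier 1 p.2.2 * hopf c (fk τ k ψ (π p)) 0 := by
      unfold hopf
      simp only [hfd, Finset.mul_sum]
      refine Finset.sum_congr rfl fun i _ => ?_
      ring
    have e2 : ψ' p = fourier 1 p.2.2 * ψ (π p) := rfl
    rw [e1, e2]
    have e3 : (π p).1 0 = p.1 0 := rfl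
    rw [e3] at hp
    linear_combination (fourier 1 p.2.2 : ℂ) * hp
  have h0 := main (act_k hτ k) L hd hc E hmem heq'
  have h1 : (ψ ∘ π) =ᵐ[(PP d ν).prod m'] 0 := by
    filter_upwards [h0] with p hp
    have e2 : ψ' p = fourier 1 p.2.2 * ψ (π p) := rfl
    rw [e2] at hp
    refine (mul_eq_zero.1 hp).resolve_left ?_
    intro h
    have := hn p.2.2
    rw [h, norm_zero] at this
    exact zero_ne_one this
  have h2 : eLpNorm ψ 2 ((PP d ν).prod m) = 0 := by
    rw [← eLpNorm_comp_measurePreserving hψ.1 hmp, eLpNorm_congr_ae h1]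
    exact eLpNorm_zero
  exact (eLpNorm_eq_zero_iff hψ.1 two_ne_zero).1 h2

end Pool.Agent.Helper26.Sw
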