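import Mathlib

/-! # Matrix lemmas -/

set_option autoImplicit false

open Filter Topology
open scoped BigOperators Matrix InnerProductSpace

namespace Pool.Agent.Helper26.Sw

variable {n : Type} [Fintype n] [DecidableEq n]

lemma upd_diag (G : Matrix n n ℝ) (D : n → ℝ) (y : n) (t : ℝ) :
    1 + G * Matrix.diagonal (Function.update D y t) =
      (1 + G * Matrix.diagonal D).updateCol y (Pi.single y 1 + t • fun x => G x y) := by
  ext i j
  by_cases hj : j = y
  · subst hj
    simp [Matrix.updateCol_self, Matrix.mul_diagonal, Matrix.one_apply, Pi.single_apply]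
    ring
  · simp [Matrix.updateCol_ne hj, Matrix.mul_diagonal, Function.update_of_ne hj]

/-- the determinant is affine in each variable -/
lemma det_affine (G : Matrix n n ℝ) (D : n → ℝ) (y : n) : ∃ a b : ℝ, ∀ t,
    (1 + G * Matrix.diagonal (Function.update D y t)).det = a + t * b := by
  refine ⟨Matrix.cramer (1 + G * Matrix.diagonal D) (Pi.single y 1) y,
    Matrix.cramer (1 + G * Matrix.diagonal D) (fun x => G x y) y, fun t => ?_⟩
  rw [upd_diag, ← Matrix.cramer_apply, map_add, map_smul, Pi.add_apply, Pi.smul_apply,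
    smul_eq_mul]

lemma det_rank (G' : Matrix n n ℝ) (y : n) (s : ℝ) :
    (1 + G' * Matrix.diagonal (Pi.single y s)).det = 1 + s * G' y y := by
  have h := upd_diag G' 0 y s
  have e : Function.update (0 : n → ℝ) y s = Pi.single y s := rfl
  rw [e] at h
  rw [h]
  have e2 : (Matrix.diagonal (0 : n → ℝ)) = 0 := Matrix.diagonal_zero
  rw [e2, mul_zero, add_zero, ← Matrix.cramer_apply, Matrix.cramer_one]
  simp

lemma det_step {G G' : Matrix n n ℝ} {D : n → ℝ} (h : (1 + G * Matrix.diagonal D) * G' = G)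
    (y : n) (t : ℝ) : (1 + G * Matrix.diagonal (Function.update D y t)).det =
      (1 + G * Matrix.diagonal D).det * (1 + (t - D y) * G' y y) := by
  have e1 : Matrix.diagonal (Function.update D y t) =
      Matrix.diagonal D + Matrix.diagonal (Pi.single y (t - D y)) := by
    rw [Matrix.diagonal_add]
    congr 1
    funext j
    by_cases hj : j = y
    · subst hj; simp
    · simp [Function.update_of_ne hj, Pi.single_eq_of_ne hj]
  have e2 : 1 + G * Matrix.diagonal (Function.update D y t) =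
      (1 + G * Matrix.diagonal D) * (1 + G' * Matrix.diagonal (Pi.single y (t - D y))) := by
    rw [e1, mul_add, mul_add, mul_one, ← mul_assoc, h, ← add_assoc]
  rw [e2, Matrix.det_mul, det_rank]

lemma aff_pos {a b α β v t : ℝ} (hα : 0 ≤ a + α * b) (hβ : 0 ≤ a + β * b)
    (hv : v ∈ Set.Ioo α β) (hv0 : 0 < a + v * b) (ht : t ∈ Set.Ioo α β) : 0 < a + t * b := by
  obtain ⟨v1, v2⟩ := hv
  obtain ⟨t1, t2⟩ := ht
  by_contra h
  push Not at h
  rcases lt_trichotomy t v with h1 | h1 | h1
  · have : 0 < b := by nlinarith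
    nlinarith
  · subst h1
    linarith
  · have : b < 0 := by nlinarith
    nlinarith

/-- the norm bound -/
theorem norm_bound {G : Matrix n n ℝ} (hG : G.IsSymm) {δ : ℝ} (hδ : 0 < δ)
    (h : ∀ t : ℝ, |t| < δ → (1 + t • G).det ≠ 0) (v : n → ℝ) :
    δ ^ 2 * ∑ x, (G *ᵥ v) x ^ 2 ≤ ∑ x, v x ^ 2 := by
  have hH : G.IsHermitian := by
    rw [Matrix.IsHermitian, Matrix.conjTranspose_eq_transpose_of_trivial]
    exact hG
  set b := hH.eigenvectorBasis with hb
  have hev : ∀ j, |hH.eigenvalues j| * δ ≤ 1 := by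
    intro j
    by_contra hcon
    push Not at hcon
    have h0 : hH.eigenvalues j ≠ 0 := by
      intro h0
      rw [h0, abs_zero, zero_mul] at hcon
      linarith
    have h1 : |-(1 / hH.eigenvalues j)| < δ := by
      rw [abs_neg, abs_div, abs_one, div_lt_iff₀ (abs_pos.2 h0)]
      linarith
    apply h _ h1
    refine Matrix.exists_mulVec_eq_zero_iff.1 ⟨⇑(b j), ?_, ?_⟩
    · intro h2
      have h3 := b.orthonormal.ne_zero j
      apply h3
      ext x
      exact congrFun h2 x
    · rw [Matrix.add_mulVec, Matrix.one_mulVec, Matrix.smul_mulVec, hb,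
        hH.mulVec_eigenvectorBasis j, smul_smul]
      rw [show -(1 / hH.eigenvalues j) * hH.eigenvalues j = -1 by field_simp]
      simp
  have hn : ∀ w : n → ℝ, ∑ x, w x ^ 2 = ∑ j, ‖⟪b j, WithLp.toLp 2 w⟫_ℝ‖ ^ 2 := by
    intro w
    rw [b.sum_sq_norm_inner_right, EuclideanSpace.norm_sq_eq]
    refine Finset.sum_congr rfl fun x _ => ?_
    simp
  have hi : ∀ j, ⟪b j, WithLp.toLp 2 (G *ᵥ v)⟫_ℝ =
      hH.eigenvalues j * ⟪b j, WithLp.toLp 2 v⟫_ℝ := by
    intro j
    have h1 : ∀ w : n → ℝ, ⟪b j, WithLp.toLp 2 w⟫_ℝ = (b j).ofLp ⬝ᵥ w := by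
      intro w
      rw [EuclideanSpace.inner_eq_star_dotProduct]
      simp [dotProduct_comm]
    rw [h1, h1, Matrix.dotProduct_mulVec, ← Matrix.mulVec_transpose, hG]
    have h2 := hH.mulVec_eigenvectorBasis j
    rw [← hb] at h2
    rw [h2, smul_dotProduct, smul_eq_mul]
  rw [hn (G *ᵥ v), hn v, Finset.mul_sum]
  refine Finset.sum_le_sum fun j _ => ?_
  rw [hi, norm_mul, mul_pow, ← mul_assoc, ← mul_pow, Real.norm_eq_abs]
  have h1 := hev j
  have h2 : 0 ≤ δ * |hH.eigenvalues j| := by positivity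
  have h3 : (δ * |hH.eigenvalues j|) ^ 2 ≤ 1 := by
    have : δ * |hH.eigenvalues j| ≤ 1 := by linarith
    nlinarith
  calc _ ≤ 1 * ‖⟪b j, WithLp.toLp 2 v⟫_ℝ‖ ^ 2 := by gcongr
    _ = _ := one_mul _

end Pool.Agent.Helper26.Sw
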