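import Pool.Agent.Helper26.Sw.Ms
import Pool.Agent.Helper26.Sw.Mt

/-! # Positivity of the determinants on the cube -/

set_option autoImplicit false

open MeasureTheory Filter Topology
open scoped BigOperators ENNReal NNReal InnerProductSpace ComplexConjugate Matrix

namespace Pool.Agent.Helper26.Sw

open Pool.Agent.H5R2.NB Pool.Agent.Helper26.Rg Pool.Agent.Helper26.Nb

variable {d : ℕ} {ν : Measure ℝ} [IsProbabilityMeasure ν] {α β : ℝ}

lemma Law.pos (L : Law ν α β) {t : ℝ} (ht : t ∈ Set.Ioo α β) {u : Set ℝ} (hu : IsOpen u)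
    (htu : t ∈ u) : ν u ≠ 0 := by
  obtain ⟨ε, hε, hball⟩ := Metric.isOpen_iff.1 hu t htu
  obtain ⟨ρ, hρ, h⟩ := L.fat t ht (1 / ε ^ 2)
  have h1 : ρ < ε := by
    by_contra hcon
    push Not at hcon
    have h2 : 1 ≤ 1 / ε ^ 2 * ρ ^ 2 := by
      rw [one_div, inv_mul_eq_div, le_div_iff₀ (by positivity), one_mul]
      exact pow_le_pow_left₀ hε.le hcon 2
    have h3 : (1 : ℝ≥0∞) ≤ ENNReal.ofReal (1 / ε ^ 2 * ρ ^ 2) := by
      rw [← ENNReal.ofReal_one]
      exact ENNReal.ofReal_le_ofReal h2
    exact absurd (h3.trans_lt (h.trans_le prob_le_one)) (lt_irrefl _)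
  have h2 : Metric.ball t ρ ⊆ u := (Metric.ball_subset_ball h1.le).trans hball
  intro h0
  rw [measure_mono_null h2 h0] at h
  exact not_lt_zero h

/-- open sets which meet the open cube have positive probability -/
lemma supp_pos (L : Law ν α β) {U : Set (Site d → ℝ)} (hU : IsOpen U) {W : Site d → ℝ}
    (hW : W ∈ U) (hWI : ∀ x, W x ∈ Set.Ioo α β) : PP d ν U ≠ 0 := by
  obtain ⟨I, u, hu, hsub⟩ := isOpen_pi_iff.1 hU W hW
  set u' : Site d → Set ℝ := fun x => if x ∈ I then u x else Set.univ with hu'
  have hm : ∀ x, MeasurableSet (u' x) := by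
    intro x
    rw [hu']
    simp only
    split_ifs with h
    · exact (hu x h).1.measurableSet
    · exact MeasurableSet.univ
  have hsub' : (I : Set (Site d)).pi u' ⊆ U := by
    intro w hw
    apply hsub
    intro x hx
    have := hw x hx
    rw [hu'] at this
    simp only at this
    rwa [if_pos (by exact_mod_cast hx)] at this
  intro h0
  have h1 := measure_mono_null hsub' h0
  unfold PP at h1
  rw [Measure.infinitePi_pi (fun _ => ν) (fun x _ => hm x), Finset.prod_eq_zero_iff] at h1
  obtain ⟨x, hx, h2⟩ := h1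
  rw [hu'] at h2
  simp only at h2
  rw [if_pos hx] at h2
  exact L.pos (hWI x) (hu x hx).1 (hu x hx).2 h2

/-- the cube lemma -/
theorem cube (L : Law ν α β) (Λ : Finset (Site d)) (V : Site d → ℝ)
    (hV : ∀ x ∈ Λ, V x ∈ Set.Ioo α β) (G : Matrix Λ Λ ℝ)
    (h : ∀ᵐ W ∂(PP d ν), ∃ G' : Matrix Λ Λ ℝ,
      (1 + G * Matrix.diagonal (fun x : Λ => W x - V x)) * G' = G ∧
      ∀ y : Λ, 0 ≤ 1 + (α - W y) * G' y y ∧ 0 ≤ 1 + (β - W y) * G' y y)
    (w : Λ → ℝ) (hw : ∀ x, w x ∈ Set.Ioo α β) :
    0 < (1 + G * Matrix.diagonal (fun x : Λ => w x - V x)).det := by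
  classical
  set f : (Λ → ℝ) → ℝ := fun w => (1 + G * Matrix.diagonal (fun x : Λ => w x - V x)).det with hf
  have hfc : Continuous f := by
    rw [hf]
    refine Continuous.matrix_det ?_
    refine continuous_const.add (continuous_const.matrix_mul ?_)
    refine Continuous.matrix_diagonal ?_
    fun_prop
  have hupd : ∀ (w : Λ → ℝ) (y : Λ) (t : ℝ), (fun x : Λ => Function.update w y t x - V x) =
      Function.update (fun x : Λ => w x - V x) y (t - V y) := by
    intro w y t
    funext x
    by_cases hx : x = y
    · subst hx; simp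
    · simp [Function.update_of_ne hx]
  have haff : ∀ (w : Λ → ℝ) (y : Λ), ∃ a b : ℝ, ∀ t, f (Function.update w y t) = a + t * b := by
    intro w y
    obtain ⟨a, b, hab⟩ := det_affine G (fun x : Λ => w x - V x) y
    refine ⟨a - V y * b, b, fun t => ?_⟩
    show (1 + G * Matrix.diagonal (fun x : Λ => Function.update w y t x - V x)).det = _
    rw [hupd, hab]
    ring
  set r : (Site d → ℝ) → Λ → ℝ := fun W x => W x with hr
  have hrc : Continuous r := by
    rw [hr]; fun_prop
  have step1 : ∀ᵐ W ∂(PP d ν), ∀ y : Λ, 0 ≤ f (r W) * f (Function.update (r W) y α) ∧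
      0 ≤ f (r W) * f (Function.update (r W) y β) := by
    filter_upwards [h] with W hW y
    obtain ⟨G', h1, h2⟩ := hW
    have h3 : ∀ t, f (Function.update (r W) y t) = f (r W) * (1 + (t - W y) * G' y y) := by
      intro t
      show (1 + G * Matrix.diagonal (fun x : Λ => Function.update (r W) y t x - V x)).det = _
      rw [hupd, det_step h1]
      congr 2
      show (t - V y - (W y - V y)) * G' y y = _
      ring
    rw [h3, h3, ← mul_assoc, ← mul_assoc]
    exact ⟨mul_nonneg (mul_self_nonneg _) (h2 y).1, mul_nonneg (mul_self_nonneg _) (h2 y).2⟩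
  have step2 : ∀ (w : Λ → ℝ), (∀ x, w x ∈ Set.Ioo α β) → ∀ y : Λ,
      0 ≤ f w * f (Function.update w y α) ∧ 0 ≤ f w * f (Function.update w y β) := by
    intro w hw y
    have hmid : (α + β) / 2 ∈ Set.Ioo α β := ⟨by linarith [L.ab], by linarith [L.ab]⟩
    set W : Site d → ℝ := fun x => if hx : x ∈ Λ then w ⟨x, hx⟩ else (α + β) / 2 with hW
    have hWr : r W = w := by
      funext x
      rw [hr, hW]
      simp
    have hWI : ∀ x, W x ∈ Set.Ioo α β := by
      intro x
      rw [hW]
      simp only
      split_ifs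
      · exact hw _
      · exact hmid
    have gen : ∀ t : ℝ, (∀ᵐ W ∂(PP d ν), 0 ≤ f (r W) * f (Function.update (r W) y t)) →
        0 ≤ f w * f (Function.update w y t) := by
      intro t ht
      by_contra hcon
      push Not at hcon
      set U : Set (Site d → ℝ) := {W | f (r W) * f (Function.update (r W) y t) < 0} with hU
      have hUo : IsOpen U := by
        refine isOpen_lt ?_ continuous_const
        refine (hfc.comp hrc).mul (hfc.comp ?_)
        exact hrc.update y continuous_const
      have hWU : W ∈ U := by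
        rw [hU, Set.mem_ofPred_eq, hWr]
        exact hcon
      refine supp_pos L hUo hWU hWI ?_
      refine measure_mono_null (fun W' hW' => ?_) (ae_iff.1 ht)
      simp only [Set.mem_ofPred_eq, not_le]
      exact hW'
    exact ⟨gen α (step1.mono fun W hW => (hW y).1), gen β (step1.mono fun W hW => (hW y).2)⟩
  have hVI : ∀ x : Λ, V x ∈ Set.Ioo α β := fun x => hV x x.2
  have step3 : ∀ T : Finset Λ, 0 < f (fun x => if x ∈ T then w x else V x) := by
    intro T
    induction T using Finset.induction_on with
    | empty =>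
      have e : (fun x : Λ => (if x ∈ (∅ : Finset Λ) then w x else V x) - V x) = 0 := by
        funext x; simp
      show 0 < (1 + G * Matrix.diagonal (fun x : Λ => (if x ∈ (∅ : Finset Λ) then w x else V x) -
        V x)).det
      rw [e]
      have e2 : (Matrix.diagonal (0 : Λ → ℝ)) = 0 := Matrix.diagonal_zero
      rw [e2, mul_zero, add_zero, Matrix.det_one]
      norm_num
    | insert y T hy ih =>
      set v : Λ → ℝ := fun x => if x ∈ T then w x else V x with hv
      have hvI : ∀ x, v x ∈ Set.Ioo α β := by
        intro x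
        rw [hv]
        simp only
        split_ifs
        · exact hw _
        · exact hVI _
      have e : (fun x : Λ => if x ∈ insert y T then w x else V x) =
          Function.update v y (w y) := by
        funext x
        by_cases hx : x = y
        · subst hx; simp
        · rw [Function.update_of_ne hx, hv]
          simp [Finset.mem_insert, hx]
      rw [e]
      obtain ⟨a, b, hab⟩ := haff v y
      have h1 := step2 v hvI y
      have h2 : 0 ≤ f (Function.update v y α) := nonneg_of_mul_nonneg_right h1.1 ih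
      have h3 : 0 ≤ f (Function.update v y β) := nonneg_of_mul_nonneg_right h1.2 ih
      have h4 : f v = a + v y * b := by
        rw [← hab, Function.update_eq_self]
      rw [hab] at h2 h3 ⊢
      rw [h4] at ih
      exact aff_pos h2 h3 (hvI y) ih (hw y)
  have h5 := step3 Finset.univ
  simpa using h5

end Pool.Agent.Helper26.Sw
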