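import Pool.Agent.Helper26.Sw.Me
import Pool.Agent.Helper26.Wn.Mean

/-! # The unitary group of a bounded self-adjoint operator -/

set_option autoImplicit false

open MeasureTheory Filter Topology
open scoped BigOperators ENNReal NNReal InnerProductSpace ComplexConjugate

namespace Pool.Agent.Helper26.Sw

open Pool.Agent.Helper26.Wn

variable {X : Type} [NormedAddCommGroup X] [InnerProductSpace ℂ X] [CompleteSpace X]

/-- `e^{-itT}` -/
noncomputable def eU (T : X →L[ℂ] X) (t : ℝ) : X →L[ℂ] X :=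
  NormedSpace.exp (t • ((-Complex.I) • T))

lemma eU_zero (T : X →L[ℂ] X) : eU T 0 = 1 := by
  unfold eU
  rw [zero_smul, NormedSpace.exp_zero]

lemma eU_add (T : X →L[ℂ] X) (s t : ℝ) : eU T (s + t) = eU T s * eU T t := by
  let _ : NormedAlgebra ℚ (X →L[ℂ] X) := NormedAlgebra.restrictScalars ℚ ℂ _
  unfold eU
  rw [add_smul]
  exact NormedSpace.exp_add_of_commute
    (((Commute.refl ((-Complex.I) • T)).smul_left s).smul_right t)

lemma eU_star {T : X →L[ℂ] X} (hT : IsSelfAdjoint T) (t : ℝ) : star (eU T t) = eU T (-t) := by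
  have hI : star (-Complex.I) = Complex.I := by
    rw [RCLike.star_def]
    simp
  unfold eU
  rw [NormedSpace.star_exp, star_smul, star_smul, hT.star_eq, hI, star_trivial]
  congr 1
  rw [neg_smul, neg_smul, smul_neg, neg_neg]

lemma eU_inner {T : X →L[ℂ] X} (hT : IsSelfAdjoint T) (t : ℝ) (a b : X) :
    ⟪eU T t a, eU T t b⟫_ℂ = ⟪a, b⟫_ℂ := by
  rw [← ContinuousLinearMap.adjoint_inner_right]
  have h1 : ContinuousLinearMap.adjoint (eU T t) = eU T (-t) := eU_star hT t
  have h2 : eU T (-t) (eU T t b) = b := by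
    have h3 := congrArg (fun A : X →L[ℂ] X => A b) (eU_add T (-t) t)
    rw [neg_add_cancel, eU_zero] at h3
    exact h3.symm
  rw [h1, h2]

lemma eU_norm {T : X →L[ℂ] X} (hT : IsSelfAdjoint T) (t : ℝ) (a : X) :
    ‖eU T t a‖ = ‖a‖ := by
  have h := eU_inner hT t a a
  rw [inner_self_eq_norm_sq_to_K, inner_self_eq_norm_sq_to_K] at h
  have h2 : ‖eU T t a‖ ^ 2 = ‖a‖ ^ 2 := by exact_mod_cast h
  exact (sq_eq_sq₀ (norm_nonneg _) (norm_nonneg _)).1 h2

lemma eU_deriv (T : X →L[ℂ] X) (g : X) (t : ℝ) :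
    HasDerivAt (fun s => eU T s g) (-Complex.I • eU T t (T g)) t := by
  have h := hasDerivAt_exp_smul_const (𝕂 := ℝ) ((-Complex.I) • T) t
  have h2 := ((ContinuousLinearMap.apply ℂ X g).restrictScalars ℝ).hasFDerivAt.comp_hasDerivAt t h
  have e : -Complex.I • eU T t (T g) =
      (NormedSpace.exp (t • ((-Complex.I) • T)) * ((-Complex.I) • T)) g := by
    show -Complex.I • eU T t (T g) = eU T t (((-Complex.I) • T) g)
    rw [_root_.smul_apply, map_smul]
  rw [e]
  exact h2

lemma eU_cont2 : Continuous fun p : (X →L[ℂ] X) × ℝ => eU p.1 p.2 := by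
  let _ : NormedAlgebra ℚ (X →L[ℂ] X) := NormedAlgebra.restrictScalars ℚ ℂ _
  unfold eU
  exact NormedSpace.exp_continuous.comp (by fun_prop)

lemma eU_cont (T : X →L[ℂ] X) (g : X) : Continuous fun t => eU T t g :=
  ((eU_cont2.comp (by fun_prop : Continuous fun t : ℝ => (T, t)))).clm_apply continuous_const

lemma eU_stn {T : X →L[ℂ] X} (hT : IsSelfAdjoint T) (g : X) : Stn fun t => eU T t g where
  ct := eU_cont T g
  st s t r := by
    rw [add_comm s r, add_comm t r, eU_add, eU_add]
    exact eU_inner hT r _ _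

/-- the fundamental identity -/
lemma fa_range (T : X →L[ℂ] X) (h : X) (x N : ℝ) :
    fa (fun t => eU T t (T h - (x : ℂ) • h)) N x =
      Complex.I • (Complex.exp (Complex.I * x * N) • eU T N h - h) := by
  have hd : ∀ t : ℝ, HasDerivAt (fun s : ℝ => Complex.I • (Complex.exp (Complex.I * x * s) •
      eU T s h)) (Complex.exp (Complex.I * x * t) • eU T t (T h - (x : ℂ) • h)) t := by
    intro t
    have h1 : HasDerivAt (fun s : ℝ => Complex.exp (Complex.I * x * s))
        (Complex.exp (Complex.I * x * t) * (Complex.I * x)) t := by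
      have h2 : HasDerivAt (fun s : ℝ => (Complex.I * x) * (s : ℂ)) ((Complex.I * x) * 1) t :=
        (Complex.ofRealCLM.hasDerivAt (x := t)).const_mul _
      have h3 := h2.cexp
      simpa using h3
    have h4 := (h1.smul (eU_deriv T h t)).const_smul Complex.I
    refine h4.congr_deriv ?_
    rw [map_sub, map_smul]
    have e1 : Complex.I • (Complex.exp (Complex.I * x * t) • (-Complex.I • eU T t (T h)) +
        (Complex.exp (Complex.I * x * t) * (Complex.I * x)) • eU T t h) =
        (-(Complex.I * Complex.I) * Complex.exp (Complex.I * x * t)) • eU T t (T h) +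
        ((Complex.I * Complex.I) * Complex.exp (Complex.I * x * t) * x) • eU T t h := by
      module
    rw [e1, Complex.I_mul_I]
    module
  unfold fa
  have hint : IntervalIntegrable (fun s : ℝ => Complex.exp (Complex.I * x * s) •
      eU T s (T h - (x : ℂ) • h)) volume 0 N := by
    refine Continuous.intervalIntegrable ?_ _ _
    exact (cont_ex x).smul (eU_cont T _)
  rw [intervalIntegral.integral_eq_sub_of_hasDerivAt (fun t _ => hd t) hint]
  rw [smul_sub]
  congr 1
  simp [eU_zero]

lemma fa_sub' {a b : ℝ → X} (ha : Continuous a) (hb : Continuous b) (x N : ℝ) :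
    fa (fun t => a t - b t) N x = fa a N x - fa b N x := by
  unfold fa
  rw [← intervalIntegral.integral_sub]
  · refine intervalIntegral.integral_congr fun s _ => ?_
    simp only [smul_sub]
  · exact ((cont_ex x).smul ha).intervalIntegrable _ _
  · exact ((cont_ex x).smul hb).intervalIntegrable _ _

/-- the frequency averages tend to zero if there is no eigenvector -/
theorem avg_zero {T : X →L[ℂ] X} (hT : IsSelfAdjoint T) (x : ℝ)
    (hno : ∀ ψ : X, T ψ = (x : ℂ) • ψ → ψ = 0) (g : X) :
    Tendsto (fun N : ℕ => ‖fa (fun t => eU T t g) N x‖ / N) atTop (𝓝 0) := by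
  obtain ⟨φ, h1, h2, h3⟩ := ergodic hT x g
  have hφ : φ = 0 := hno φ h1
  -- `g` is in the closure of the range
  have hcl : ∀ ε : ℝ, 0 < ε → ∃ h : X, ‖g - (T h - (x : ℂ) • h)‖ < ε := by
    intro ε hε
    rw [hφ] at h3
    have h4 := (Metric.tendsto_nhds.1 h3 ε hε)
    have hne : ∀ᶠ η : ℝ in 𝓝[≠] 0, η ≠ 0 := self_mem_nhdsWithin
    obtain ⟨η, h5, h6⟩ := (h4.and hne).exists
    rw [dist_zero_right] at h5
    -- `g - er g = (T - x) R g`
    have hz : (ze x η).im ≠ 0 := by rw [ze_im]; exact h6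
    have h7 := Pool.Agent.TH369.AN.rz_eq T hT (ze x η) hz g
    refine ⟨Pool.Agent.TH369.AN.Rz T (ze x η) g, ?_⟩
    have e : g - (T (Pool.Agent.TH369.AN.Rz T (ze x η) g) -
        (x : ℂ) • Pool.Agent.TH369.AN.Rz T (ze x η) g) = er T x η g := by
      unfold er
      nth_rewrite 1 [← h7]
      unfold ze
      module
    rw [e]
    exact h5
  have hc := eU_cont T
  rw [Metric.tendsto_atTop]
  intro ε hε
  obtain ⟨h, hh⟩ := hcl (ε / 2) (by positivity)
  obtain ⟨N₀, hN₀⟩ := exists_nat_gt (2 * (2 * ‖h‖) / ε)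
  refine ⟨N₀ + 1, fun N hN => ?_⟩
  have hNp : (0 : ℝ) < N := by
    have : 0 < N := by omega
    exact_mod_cast this
  rw [Real.dist_eq, sub_zero, abs_of_nonneg (by positivity), div_lt_iff₀ hNp]
  set r := g - (T h - (x : ℂ) • h) with hr
  have e1 : fa (fun t => eU T t g) N x = fa (fun t => eU T t r) N x +
      fa (fun t => eU T t (T h - (x : ℂ) • h)) N x := by
    have := fa_sub' (hc g) (hc (T h - (x : ℂ) • h)) x N
    have e2 : (fun t => eU T t g - eU T t (T h - (x : ℂ) • h)) = fun t => eU T t r := by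
      funext t
      rw [hr, map_sub (eU T t) g]
    rw [e2] at this
    rw [this]
    abel
  have h8 : ‖fa (fun t => eU T t r) N x‖ ≤ ‖r‖ * N := by
    have := fa_le (eU_stn hT r) 0 N x hNp.le
    simpa [eU_zero, fa] using this
  have h9 : ‖fa (fun t => eU T t (T h - (x : ℂ) • h)) N x‖ ≤ 2 * ‖h‖ := by
    rw [fa_range, norm_smul, Complex.norm_I, one_mul]
    refine (norm_sub_le _ _).trans ?_
    rw [norm_smul, norm_ex, one_mul, eU_norm hT]
    linarith
  rw [e1]
  refine (norm_add_le _ _).trans_lt ?_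
  have h10 : 2 * ‖h‖ < ε / 2 * N := by
    have h11 : 2 * (2 * ‖h‖) / ε < N := by
      refine hN₀.trans ?_
      have : N₀ < N := by omega
      exact_mod_cast this
    rw [div_lt_iff₀ hε] at h11
    linarith
  have h12 : ‖r‖ * N ≤ ε / 2 * N := by gcongr
  linarith

/-- uniform decay at large frequencies -/
lemma fa_large {T : X →L[ℂ] X} (hT : IsSelfAdjoint T) (g : X) (x : ℝ) :
    |x| * ‖fa (fun t => eU T t g) 1 x‖ ≤ (‖T‖ + 2) * ‖g‖ := by
  have h1 := fa_range T g x 1
  have hc := eU_cont T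
  have e1 : fa (fun t => eU T t (T g - (x : ℂ) • g)) 1 x =
      T (fa (fun t => eU T t g) 1 x) - (x : ℂ) • fa (fun t => eU T t g) 1 x := by
    have e2 : (fun t => eU T t (T g - (x : ℂ) • g)) =
        fun t => eU T t (T g) - eU T t ((x : ℂ) • g) := by
      funext t
      rw [map_sub]
    rw [e2, fa_sub' (hc _) (hc _)]
    congr 1
    · unfold fa
      have hI : IntervalIntegrable (fun s : ℝ => Complex.exp (Complex.I * x * s) • eU T s g)
          volume 0 1 := ((cont_ex x).smul (hc g)).intervalIntegrable _ _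
      rw [← T.intervalIntegral_comp_comm hI]
      refine intervalIntegral.integral_congr fun s _ => ?_
      simp only [map_smul]
      congr 1
      have hcomm : Commute (eU T s) T := by
        unfold eU
        exact (((Commute.refl T).smul_left (-Complex.I)).smul_left s).exp_left
      have := congrArg (fun A : X →L[ℂ] X => A g) hcomm.eq
      exact this
    · unfold fa
      rw [← intervalIntegral.integral_smul]
      refine intervalIntegral.integral_congr fun s _ => ?_
      simp only [map_smul]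
      rw [smul_comm]
  rw [e1] at h1
  set y := fa (fun t => eU T t g) 1 x with hy
  have h2 : (x : ℂ) • y = T y - Complex.I • (Complex.exp (Complex.I * x * (1 : ℝ)) • eU T 1 g - g) := by
    rw [← h1]
    abel
  have h3 : |x| * ‖y‖ = ‖(x : ℂ) • y‖ := by
    rw [norm_smul, Complex.norm_real, Real.norm_eq_abs]
  rw [h3, h2]
  have h4 : ‖y‖ ≤ ‖g‖ := by
    have := fa_le (eU_stn hT g) 0 1 x zero_le_one
    simpa [eU_zero, fa, hy] using this
  refine (norm_sub_le _ _).trans ?_
  have h5 : ‖T y‖ ≤ ‖T‖ * ‖g‖ := (T.le_opNorm y).trans (by gcongr)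
  have h6 : ‖Complex.I • (Complex.exp (Complex.I * x * (1 : ℝ)) • eU T 1 g - g)‖ ≤ 2 * ‖g‖ := by
    rw [norm_smul, Complex.norm_I, one_mul]
    refine (norm_sub_le _ _).trans ?_
    rw [norm_smul, norm_ex, one_mul, eU_norm hT]
    linarith
  linarith

/-- the exponential series -/
lemma eU_series (T : X →L[ℂ] X) (t : ℝ) (φ g : X) :
    HasSum (fun n : ℕ => ((-Complex.I * t) ^ n / (n.factorial : ℂ)) * ⟪φ, (T ^ n) g⟫_ℂ)
      ⟪φ, eU T t g⟫_ℂ := by
  have h1 := NormedSpace.exp_series_hasSum_exp' (𝕂 := ℂ) (t • ((-Complex.I) • T))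
  have h2 := (h1.mapL (ContinuousLinearMap.apply ℂ X g)).mapL (innerSL ℂ φ)
  have h3 : (innerSL ℂ φ) ((ContinuousLinearMap.apply ℂ X g)
      (NormedSpace.exp (t • ((-Complex.I) • T)))) = ⟪φ, eU T t g⟫_ℂ := rfl
  rw [h3] at h2
  refine h2.congr_fun ?_
  intro n
  have e : t • ((-Complex.I) • T) = (-Complex.I * t) • T := by
    rw [← Complex.coe_smul, smul_smul, mul_comm]
  rw [e, smul_pow]
  show _ = ⟪φ, ((n.factorial : ℂ)⁻¹ • (-Complex.I * (t : ℂ)) ^ n • T ^ n) g⟫_ℂ
  rw [_root_.smul_apply, _root_.smul_apply, inner_smul_right, inner_smul_right]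
  ring

end Pool.Agent.Helper26.Sw
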