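import Pool.Agent.Helper26.Sw.Id

/-! # A fixed energy is not an eigenvalue; the limit form of the resampling identity -/

set_option autoImplicit false

open MeasureTheory Filter Topology
open scoped BigOperators ENNReal NNReal InnerProductSpace ComplexConjugate

namespace Pool.Agent.Helper26.Sw

open Pool.Agent.H5R2.NB Pool.Agent.Helper26.Rg Pool.Agent.Helper26.Nb
open Pool.Agent.TH369.AN (Rz rz_eq rz_uniq rz_norm)

variable {d : ℕ} {Θ : Type} [MeasurableSpace Θ] {m : Measure Θ} [IsProbabilityMeasure m]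
  {τ : Site d → Θ → Θ} {ν : Measure ℝ} [IsProbabilityMeasure ν]

lemma bd_ae {R : ℝ} (hν : ∀ᵐ s ∂ν, |s| ≤ R) :
    ∀ᵐ q ∂(((PP d ν).prod m).prod (ν.prod ν)), |q.2.1| ≤ R ∧ |q.2.2| ≤ R := by
  have h1 : MeasurePreserving (fun q : ((Site d → ℝ) × Θ) × (ℝ × ℝ) => q.2.1)
      (((PP d ν).prod m).prod (ν.prod ν)) ν :=
    measurePreserving_fst.comp measurePreserving_snd
  have h2 : MeasurePreserving (fun q : ((Site d → ℝ) × Θ) × (ℝ × ℝ) => q.2.2)
      (((PP d ν).prod m).prod (ν.prod ν)) ν :=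
    measurePreserving_snd.comp measurePreserving_snd
  filter_upwards [h1.quasiMeasurePreserving.ae hν, h2.quasiMeasurePreserving.ae hν] with q a b
  exact ⟨a, b⟩

omit [MeasurableSpace Θ] in
lemma cl_up {R : ℝ} (y : Site d) (p : (Site d → ℝ) × Θ) {v : ℝ} (hv : |v| ≤ R) :
    cl R (up y (p, v)).1 y = v := by
  have h1 := abs_le.1 (hv.trans (le_abs_self R))
  unfold cl up
  simp only [Function.update_self]
  rw [min_eq_right h1.2, max_eq_right h1.1]

omit [MeasurableSpace Θ] in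
lemma cl_up_ne {R : ℝ} {y w : Site d} (hw : w ≠ y) (p : (Site d → ℝ) × Θ) (v v' : ℝ) :
    cl R (up y (p, v)).1 w = cl R (up y (p, v')).1 w := by
  unfold cl up
  simp only [Function.update_of_ne hw]

/-- the limit of `η G` is an eigenvector -/
lemma er_dl (c R E : ℝ) (V : Site d → ℝ) (w : Site d) : ∃ φ : L2 (Site d),
    Tm c R V φ = (E : ℂ) • φ ∧ (φ w = 0 → φ = 0) ∧
    ∀ η : ℕ → ℝ, (∀ n, 0 < η n) → Tendsto η atTop (𝓝 0) → ∀ x,
      Tendsto (fun n => (η n : ℂ) * Gf c R (ze E (η n)) V w x) atTop (𝓝 (Complex.I * φ x)) := by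
  obtain ⟨φ, h1, h2, h3⟩ := ergodic (Tm_sa c R V) E (dl w)
  refine ⟨φ, h1, fun h0 => ?_, fun η hη ht x => ?_⟩
  · have h4 := h2 φ h1
    have h5 : ⟪φ, (dl w : L2 (Site d))⟫_ℂ = 0 := by
      rw [← inner_conj_symm, CV.inner_dl, h0, map_zero]
    rw [h5] at h4
    exact inner_self_eq_zero.1 h4
  · have h4 : Tendsto (fun n => er (Tm c R V) E (η n) (dl w : L2 (Site d))) atTop (𝓝 φ) :=
      h3.comp (tendsto_nhdsWithin_iff.2 ⟨ht, Eventually.of_forall fun n => (hη n).ne'⟩)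
    have h5 : Tendsto (fun n => ⟪(dl x : L2 (Site d)), er (Tm c R V) E (η n) (dl w)⟫_ℂ) atTop
        (𝓝 ⟪(dl x : L2 (Site d)), φ⟫_ℂ) := tendsto_const_nhds.inner h4
    rw [CV.inner_dl] at h5
    have h6 := h5.const_mul Complex.I
    refine h6.congr fun n => ?_
    rw [CV.inner_dl]
    unfold er
    rw [lp.coeFn_smul, Pi.smul_apply, smul_eq_mul]
    show Complex.I * (-(η n : ℂ) * Complex.I * Gf c R (ze E (η n)) V w x) = _
    linear_combination (-(η n : ℂ) * Gf c R (ze E (η n)) V w x) * Complex.I_sq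

lemma no_two {c R E : ℝ} {y : Site d} {p : (Site d → ℝ) × Θ} {v v' : ℝ} (hv : |v| ≤ R)
    (hv' : |v'| ≤ R) (hne : v ≠ v') {a b : L2 (Site d)}
    (ha : Tm c R (up y (p, v)).1 a = (E : ℂ) • a) (hb : Tm c R (up y (p, v')).1 b = (E : ℂ) • b)
    (ha0 : a y ≠ 0) (hb0 : b y ≠ 0) : False := by
  have e1 : Tm c R (up y (p, v')).1 b = Tm c R (up y (p, v)).1 b +
      (((v' - v : ℝ) : ℂ) * b y) • dl y := by
    ext x
    rw [lp.coeFn_add, Pi.add_apply, Tm_apply, Tm_apply, lp.coeFn_smul, Pi.smul_apply,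
      smul_eq_mul, dl_apply]
    by_cases hx : y = x
    · subst hx
      rw [cl_up y p hv, cl_up y p hv', if_pos rfl]
      push_cast
      ring
    · rw [cl_up_ne (Ne.symm hx) p v' v, if_neg hx]
      ring
  have hs : ∀ a b : L2 (Site d), ⟪Tm c R (up y (p, v)).1 a, b⟫_ℂ =
      ⟪a, Tm c R (up y (p, v)).1 b⟫_ℂ :=
    ContinuousLinearMap.isSelfAdjoint_iff_isSymmetric.1 (Tm_sa c R _)
  have e2 : ⟪a, Tm c R (up y (p, v')).1 b⟫_ℂ = (E : ℂ) * ⟪a, b⟫_ℂ := by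
    rw [hb, inner_smul_right]
  rw [e1, inner_add_right, ← hs, ha, inner_smul_left, Complex.conj_ofReal,
    inner_smul_right] at e2
  have e3 : ⟪a, (dl y : L2 (Site d))⟫_ℂ = conj (a y) := by
    rw [← inner_conj_symm, CV.inner_dl]
  rw [e3] at e2
  have e4 : ((v' - v : ℝ) : ℂ) * b y * conj (a y) = 0 := by linear_combination e2
  rcases mul_eq_zero.1 e4 with h | h
  · rcases mul_eq_zero.1 h with h | h
    · have : v' - v = 0 := by exact_mod_cast h
      exact hne (by linarith)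
    · exact hb0 h
  · exact ha0 (by simpa using h)

/-- a fixed energy is almost surely not an eigenvalue -/
theorem no_eig [NullSingletonClass ν] {R : ℝ} (hν : ∀ᵐ s ∂ν, |s| ≤ R) (c E : ℝ) (η : ℕ → ℝ)
    (hη : ∀ n, 0 < η n) (ht : Tendsto η atTop (𝓝 0)) :
    ∀ᵐ p ∂((PP d ν).prod m), ∀ w x,
      Tendsto (fun n => (η n : ℂ) * Gf c R (ze E (η n)) p.1 w x) atTop (𝓝 0) := by
  rw [ae_all_iff]
  intro w
  have hmG : ∀ n x, Measurable fun p : (Site d → ℝ) × Θ =>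
      (η n : ℂ) * Gf c R (ze E (η n)) p.1 w x := by
    intro n x
    refine Measurable.const_mul ?_ _
    exact (Gf_meas c R (by rw [ze_im]; exact (hη n).ne') x w).comp measurable_fst
  set B : Set ((Site d → ℝ) × Θ) :=
    {p | ¬ Tendsto (fun n => (η n : ℂ) * Gf c R (ze E (η n)) p.1 w w) atTop (𝓝 0)} with hB
  have hBm : MeasurableSet B := (measurableSet_tendsto (𝓝 0) fun n => hmG n w).compl
  have hBe : ∀ p ∈ B, ∃ φ : L2 (Site d), Tm c R p.1 φ = (E : ℂ) • φ ∧ φ w ≠ 0 := by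
    intro p hp
    obtain ⟨φ, h1, h2, h3⟩ := er_dl c R E p.1 w
    refine ⟨φ, h1, fun h0 => hp ?_⟩
    have := h3 η hη ht w
    rwa [h0, mul_zero] at this
  have h1 := sq_null (m := m) (ν := ν) w hBm (by
    filter_upwards [bd_ae (m := m) (d := d) hν, ne_ae (m := m) (d := d) (ν := ν)] with q hq hne
    rintro ⟨h1, h2⟩
    obtain ⟨a, ha, ha0⟩ := hBe _ h1
    obtain ⟨b, hb, hb0⟩ := hBe _ h2
    exact no_two hq.1 hq.2 hne ha hb ha0 hb0)
  filter_upwards [h1] with p hp x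
  have h2 : Tendsto (fun n => (η n : ℂ) * Gf c R (ze E (η n)) p.1 w w) atTop (𝓝 0) :=
    not_not.1 hp
  obtain ⟨φ, h3, h4, h5⟩ := er_dl c R E p.1 w
  have h6 := tendsto_nhds_unique (h5 η hη ht w) h2
  have h7 : φ w = 0 := (mul_eq_zero.1 h6).resolve_left Complex.I_ne_zero
  have h8 := h5 η hη ht x
  rw [h4 h7] at h8
  simpa using h8

/-- the data -/
structure Dat (m : Measure Θ) (ν : Measure ℝ) [IsProbabilityMeasure ν] (τ : Site d → Θ → Θ)
    (c R E : ℝ) (η : ℕ → ℝ) (F : ℕ → (Site d → ℝ) × Θ → ℂ) (φ : (Site d → ℝ) × Θ → ℂ)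
    (g : (Site d → ℝ) × Θ → ℝ) (s : Finset (Site d)) : Prop where
  act : Act m τ
  bd : ∀ᵐ s ∂ν, |s| ≤ R
  pos : ∀ n, 0 < η n
  lim : Tendsto η atTop (𝓝 0)
  smF : ∀ n, StronglyMeasurable (F n)
  memF : ∀ n, MemLp (F n) 2 ((PP d ν).prod m)
  smφ : StronglyMeasurable φ
  memφ : MemLp φ 2 ((PP d ν).prod m)
  eq : ∀ n, ∀ᵐ p ∂((PP d ν).prod m), Hf τ c R (F n) p - ze E (η n) * F n p =
    (-(η n : ℂ) * Complex.I) * (g p : ℂ)
  conv : ∀ᵐ p ∂((PP d ν).prod m), Tendsto (fun n => F n p) atTop (𝓝 (φ p))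
  real : ∀ᵐ p ∂((PP d ν).prod m), conj (φ p) = φ p
  loc : Lcl g s

variable {c R E : ℝ} {η : ℕ → ℝ} {F : ℕ → (Site d → ℝ) × Θ → ℂ} {φ : (Site d → ℝ) × Θ → ℂ}
  {g : (Site d → ℝ) × Θ → ℝ} {s : Finset (Site d)}

/-- the good environments -/
theorem Dat.good [NullSingletonClass ν] (D : Dat m ν τ c R E η F φ g s) :
    ∀ᵐ p ∂((PP d ν).prod m),
      (∀ n x, hopf c (fd τ (F n) p) x + cl R p.1 x * fd τ (F n) p x -
        ze E (η n) * fd τ (F n) p x = (-(η n : ℂ) * Complex.I) * (g (sX τ x p) : ℂ)) ∧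
      (∀ n, WS (fd τ (F n) p)) ∧
      (∀ x, Tendsto (fun n => fd τ (F n) p x) atTop (𝓝 (fd τ φ p x))) ∧
      (∀ x, conj (fd τ φ p x) = fd τ φ p x) ∧
      (∀ w x, Tendsto (fun n => (η n : ℂ) * Gf c R (ze E (η n)) p.1 w x) atTop (𝓝 0)) := by
  have h1 : ∀ᵐ p ∂((PP d ν).prod m), ∀ n x, hopf c (fd τ (F n) p) x +
      cl R p.1 x * fd τ (F n) p x - ze E (η n) * fd τ (F n) p x =
      (-(η n : ℂ) * Complex.I) * (g (sX τ x p) : ℂ) := by
    rw [ae_all_iff]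
    intro n
    exact eq_all D.act (D.eq n)
  have h2 : ∀ᵐ p ∂((PP d ν).prod m), ∀ n, WS (fd τ (F n) p) := by
    rw [ae_all_iff]
    intro n
    exact ws_fd D.act (D.smF n) (D.memF n)
  have h3 : ∀ᵐ p ∂((PP d ν).prod m), ∀ x,
      Tendsto (fun n => fd τ (F n) p x) atTop (𝓝 (fd τ φ p x)) := by
    rw [ae_all_iff]
    intro x
    exact (sX_mp (ν := ν) D.act x).quasiMeasurePreserving.ae D.conv
  have h4 : ∀ᵐ p ∂((PP d ν).prod m), ∀ x, conj (fd τ φ p x) = fd τ φ p x := by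
    rw [ae_all_iff]
    intro x
    exact (sX_mp (ν := ν) D.act x).quasiMeasurePreserving.ae D.real
  filter_upwards [h1, h2, h3, h4, no_eig (m := m) D.bd c E η D.pos D.lim] with p a1 a2 a3 a4 a5
  exact ⟨a1, a2, a3, a4, a5⟩

/-- the limit form of the resampling identity -/
theorem Dat.star [NullSingletonClass ν] (D : Dat m ν τ c R E η F φ g s) (y : Site d) :
    ∀ᵐ q ∂(((PP d ν).prod m).prod (ν.prod ν)), ∀ x,
      Tendsto (fun n => ((q.2.2 - q.2.1 : ℝ) : ℂ) * fd τ (F n) (up y (q.1, q.2.1)) y *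
        Gf c R (ze E (η n)) (up y (q.1, q.2.2)).1 y x) atTop
        (𝓝 (fd τ φ (up y (q.1, q.2.1)) x - fd τ φ (up y (q.1, q.2.2)) x)) := by
  filter_upwards [(mp_fst2 (m := m) (ν := ν) y).quasiMeasurePreserving.ae D.good,
    (mp_snd2 (m := m) (ν := ν) y).quasiMeasurePreserving.ae D.good,
    bd_ae (m := m) (d := d) D.bd] with q h1 h2 h3 x
  obtain ⟨a1, a2, a3, a4, a5⟩ := h1
  obtain ⟨b1, b2, b3, b4, b5⟩ := h2
  set p := up y (q.1, q.2.1) with hp
  set p' := up y (q.1, q.2.2) with hp'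
  have e0 : up y (p, q.2.2) = p' := up_up y q.1 q.2.1 q.2.2
  have hid : ∀ n, fd τ (F n) p' x - fd τ (F n) p x =
      -(((q.2.2 - q.2.1 : ℝ) : ℂ) * fd τ (F n) p y * Gf c R (ze E (η n)) p'.1 y x) +
      ∑ w ∈ s.image (fun i => y - i), ((-(η n : ℂ) * Complex.I) *
        ((g (sX τ w p') : ℂ) - (g (sX τ w p) : ℂ))) * Gf c R (ze E (η n)) p'.1 w x := by
    intro n
    have h := ident (D.pos n) D.loc y p q.2.2 (a1 n) (by rw [e0]; exact b1 n) (a2 n)
      (by rw [e0]; exact b2 n) x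
    rw [e0, hp', cl_up y q.1 h3.2, ← hp', hp, cl_up y q.1 h3.1, ← hp] at h
    rw [h]
    push_cast
    ring
  have herr : Tendsto (fun n => ∑ w ∈ s.image (fun i => y - i), ((-(η n : ℂ) * Complex.I) *
        ((g (sX τ w p') : ℂ) - (g (sX τ w p) : ℂ))) * Gf c R (ze E (η n)) p'.1 w x) atTop
      (𝓝 0) := by
    have h4 : Tendsto (fun n => ∑ w ∈ s.image (fun i => y - i), (-Complex.I *
        ((g (sX τ w p') : ℂ) - (g (sX τ w p) : ℂ))) * ((η n : ℂ) *
          Gf c R (ze E (η n)) p'.1 w x)) atTop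
        (𝓝 (∑ w ∈ s.image (fun i => y - i), (-Complex.I *
        ((g (sX τ w p') : ℂ) - (g (sX τ w p) : ℂ))) * 0)) :=
      tendsto_finsetSum _ fun w _ => (b5 w x).const_mul _
    simp only [mul_zero, Finset.sum_const_zero] at h4
    refine h4.congr fun n => Finset.sum_congr rfl fun w _ => ?_
    ring
  have h5 := ((a3 x).sub (b3 x)).add herr
  rw [add_zero] at h5
  refine h5.congr fun n => ?_
  have := hid n
  linear_combination -this

end Pool.Agent.Helper26.Sw
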