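import Pool.Agent.Helper26.Sw.Ez

/-! # Green functions where the eigenfunction does not vanish -/

set_option autoImplicit false

open MeasureTheory Filter Topology
open scoped BigOperators ENNReal NNReal InnerProductSpace ComplexConjugate

namespace Pool.Agent.Helper26.Sw

open Pool.Agent.H5R2.NB Pool.Agent.Helper26.Rg Pool.Agent.Helper26.Nb

variable {d : ℕ} {Θ : Type} [MeasurableSpace Θ] {m : Measure Θ} [IsProbabilityMeasure m]
  {τ : Site d → Θ → Θ} {ν : Measure ℝ} [IsProbabilityMeasure ν]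
  {c R E : ℝ} {η : ℕ → ℝ} {F : ℕ → (Site d → ℝ) × Θ → ℂ} {φ : (Site d → ℝ) × Θ → ℂ}
  {g : (Site d → ℝ) × Θ → ℝ} {s : Finset (Site d)}

lemma conv_of {κ : ℝ} {a G : ℕ → ℂ} {w A : ℂ}
    (h : Tendsto (fun n => (κ : ℂ) * a n * G n) atTop (𝓝 w)) (ha : Tendsto a atTop (𝓝 A))
    (hκ : κ ≠ 0) (hA : A ≠ 0) : Tendsto G atTop (𝓝 (w / (κ * A))) := by
  have hκ' : (κ : ℂ) ≠ 0 := by exact_mod_cast hκ
  have h1 := h.div (ha.const_mul (κ : ℂ)) (mul_ne_zero hκ' hA)
  refine h1.congr' ?_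
  filter_upwards [ha.eventually_ne hA] with n hn
  simp only [Pi.div_apply]
  field_simp

/-- the Green function at the energy `E` -/
noncomputable def gl (c R E : ℝ) (η : ℕ → ℝ) (V : Site d → ℝ) (y x : Site d) : ℝ :=
  limsup (fun n => (Gf c R (ze E (η n)) V y x).re) atTop

lemma gl_eq {V : Site d → ℝ} {y x : Site d} {r : ℝ}
    (h : Tendsto (fun n => Gf c R (ze E (η n)) V y x) atTop (𝓝 (r : ℂ))) :
    gl c R E η V y x = r := by
  have h1 := (Complex.continuous_re.tendsto _).comp h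
  exact h1.limsup_eq

lemma gl_meas (hη : ∀ n, 0 < η n) (y x : Site d) :
    Measurable fun V : Site d → ℝ => gl c R E η V y x := by
  unfold gl
  refine Measurable.limsup fun n => ?_
  exact Complex.measurable_re.comp (Gf_meas c R (by rw [ze_im]; exact (hη n).ne') x y)

lemma Dat.fdm (D : Dat m ν τ c R E η F φ g s) (x : Site d) :
    Measurable fun p => fd τ φ p x :=
  D.smφ.measurable.comp (sX_mp (m := m) (ν := ν) D.act x).measurable

theorem Dat.conv1 [NullSingletonClass ν] (D : Dat m ν τ c R E η F φ g s) :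
    ∀ᵐ p ∂((PP d ν).prod m), ∀ y x, fd τ φ p y ≠ 0 →
      Tendsto (fun n => Gf c R (ze E (η n)) p.1 y x) atTop (𝓝 (gl c R E η p.1 y x : ℂ)) := by
  rw [ae_all_iff]
  intro y
  rw [ae_all_iff]
  intro x
  have hmG : ∀ n, Measurable fun p : (Site d → ℝ) × Θ => Gf c R (ze E (η n)) p.1 y x := fun n =>
    (Gf_meas c R (by rw [ze_im]; exact (D.pos n).ne') x y).comp measurable_fst
  set B : Set ((Site d → ℝ) × Θ) := {p | fd τ φ p y ≠ 0} ∩
    ({p | ∃ r : ℝ, Tendsto (fun n => (Gf c R (ze E (η n)) p.1 y x).re) atTop (𝓝 r)} ∩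
      {p | Tendsto (fun n => (Gf c R (ze E (η n)) p.1 y x).im) atTop (𝓝 0)})ᶜ with hB
  have hBm : MeasurableSet B := by
    refine MeasurableSet.inter ?_ (MeasurableSet.compl (MeasurableSet.inter ?_ ?_))
    · exact (D.fdm y) (measurableSet_singleton (0 : ℂ)).compl
    · exact MeasureTheory.measurableSet_exists_tendsto fun n => Complex.measurable_re.comp (hmG n)
    · exact measurableSet_tendsto (𝓝 0) fun n => Complex.measurable_im.comp (hmG n)
  have h1 := sq_null (m := m) (ν := ν) y hBm (by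
    filter_upwards [D.star y, (mp_fst2 (m := m) (ν := ν) y).quasiMeasurePreserving.ae D.good,
      (mp_snd2 (m := m) (ν := ν) y).quasiMeasurePreserving.ae D.good,
      ne_ae (m := m) (d := d) (ν := ν)] with q hs ha hb hne
    rintro ⟨h1, h2⟩
    apply h2.2
    have h3 := conv_of (hs x) (ha.2.2.1 y) (sub_ne_zero.2 (Ne.symm hne)) h1.1
    set w : ℂ := (fd τ φ (up y (q.1, q.2.1)) x - fd τ φ (up y (q.1, q.2.2)) x) /
      (((q.2.2 - q.2.1 : ℝ) : ℂ) * fd τ φ (up y (q.1, q.2.1)) y) with hw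
    have h4 : conj w = w := by
      rw [hw, map_div₀, map_sub, map_mul, Complex.conj_ofReal, ha.2.2.2.1, ha.2.2.2.1,
        hb.2.2.2.1]
    obtain ⟨r, hr⟩ := Complex.conj_eq_iff_real.1 h4
    rw [hr] at h3
    refine ⟨⟨r, ?_⟩, ?_⟩
    · exact (Complex.continuous_re.tendsto _).comp h3
    · exact (Complex.continuous_im.tendsto _).comp h3)
  filter_upwards [h1] with p hp h0
  have h2 : (∃ r : ℝ, Tendsto (fun n => (Gf c R (ze E (η n)) p.1 y x).re) atTop (𝓝 r)) ∧
      Tendsto (fun n => (Gf c R (ze E (η n)) p.1 y x).im) atTop (𝓝 0) := by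
    by_contra h3
    exact hp ⟨h0, h3⟩
  obtain ⟨⟨r, hr⟩, hi⟩ := h2
  have h3 : Tendsto (fun n => Gf c R (ze E (η n)) p.1 y x) atTop (𝓝 (r : ℂ)) := by
    have h4 : Tendsto (fun n => (((Gf c R (ze E (η n)) p.1 y x).re : ℝ) : ℂ) +
        (((Gf c R (ze E (η n)) p.1 y x).im : ℝ) : ℂ) * Complex.I) atTop
        (𝓝 ((r : ℂ) + ((0 : ℝ) : ℂ) * Complex.I)) :=
      ((Complex.continuous_ofReal.tendsto _).comp hr).add
        (((Complex.continuous_ofReal.tendsto _).comp hi).mul_const _)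
    simpa using h4
  rw [gl_eq h3]
  exact h3

/-- the relations between the eigenfunctions at two values of the potential at `y` -/
theorem Dat.rel [NullSingletonClass ν] (D : Dat m ν τ c R E η F φ g s) (y : Site d) :
    ∀ᵐ q ∂(((PP d ν).prod m).prod (ν.prod ν)), fd τ φ (up y (q.1, q.2.1)) y ≠ 0 →
      fd τ φ (up y (q.1, q.2.2)) y ≠ 0 ∧
      ∀ x, fd τ φ (up y (q.1, q.2.1)) x = fd τ φ (up y (q.1, q.2.2)) x +
        ((q.2.2 - q.2.1 : ℝ) : ℂ) * fd τ φ (up y (q.1, q.2.1)) y *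
          (gl c R E η (up y (q.1, q.2.2)).1 y x : ℂ) := by
  filter_upwards [D.star y, mp_swp.quasiMeasurePreserving.ae (D.star y),
    (mp_fst2 (m := m) (ν := ν) y).quasiMeasurePreserving.ae D.good,
    (mp_snd2 (m := m) (ν := ν) y).quasiMeasurePreserving.ae D.good,
    (mp_fst2 (m := m) (ν := ν) y).quasiMeasurePreserving.ae D.conv1,
    (mp_snd2 (m := m) (ν := ν) y).quasiMeasurePreserving.ae D.conv1] with q hs hs' ha hb ca cb h0
  set a := up y (q.1, q.2.1) with hadef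
  set b := up y (q.1, q.2.2) with hbdef
  have h1 : fd τ φ b y ≠ 0 := by
    intro h1
    have h2 := hs' y
    have h3 : Tendsto (fun n => ((q.2.1 - q.2.2 : ℝ) : ℂ) * fd τ (F n) b y *
        Gf c R (ze E (η n)) a.1 y y) atTop
        (𝓝 (((q.2.1 - q.2.2 : ℝ) : ℂ) * fd τ φ b y * (gl c R E η a.1 y y : ℂ))) :=
      ((hb.2.2.1 y).const_mul _).mul (ca y y h0)
    have h4 := tendsto_nhds_unique h2 h3
    rw [h1, mul_zero, zero_mul, zero_sub, neg_eq_zero] at h4
    exact h0 h4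
  refine ⟨h1, fun x => ?_⟩
  have h3 : Tendsto (fun n => ((q.2.2 - q.2.1 : ℝ) : ℂ) * fd τ (F n) a y *
      Gf c R (ze E (η n)) b.1 y x) atTop
      (𝓝 (((q.2.2 - q.2.1 : ℝ) : ℂ) * fd τ φ a y * (gl c R E η b.1 y x : ℂ))) :=
    ((ha.2.2.1 y).const_mul _).mul (cb y x h1)
  have h4 := tendsto_nhds_unique (hs x) h3
  rw [← h4]
  ring

/-- the Green function vanishes off the support -/
theorem Dat.off [NullSingletonClass ν] (D : Dat m ν τ c R E η F φ g s) :
    ∀ᵐ p ∂((PP d ν).prod m), ∀ y x, fd τ φ p y ≠ 0 → fd τ φ p x = 0 →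
      gl c R E η p.1 y x = 0 := by
  rw [ae_all_iff]
  intro y
  rw [ae_all_iff]
  intro x
  set B : Set ((Site d → ℝ) × Θ) := {p | fd τ φ p y ≠ 0} ∩ ({p | fd τ φ p x = 0} ∩
    {p | gl c R E η p.1 y x ≠ 0}) with hB
  have hBm : MeasurableSet B := by
    refine MeasurableSet.inter ?_ (MeasurableSet.inter ?_ ?_)
    · exact (D.fdm y) (measurableSet_singleton (0 : ℂ)).compl
    · exact (D.fdm x) (measurableSet_singleton (0 : ℂ))
    · exact ((gl_meas D.pos y x).comp measurable_fst) (measurableSet_singleton (0 : ℝ)).compl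
  have h1 := sq_null (m := m) (ν := ν) y hBm (by
    filter_upwards [D.rel y, ne_ae (m := m) (d := d) (ν := ν)] with q hs hne
    rintro ⟨h1, h2⟩
    have h3 := (hs h1.1).2 x
    have h4 : fd τ φ (up y (q.1, q.2.1)) x = 0 := h1.2.1
    have h5 : fd τ φ (up y (q.1, q.2.2)) x = 0 := h2.2.1
    rw [h4, h5, zero_add] at h3
    have h6 : ((q.2.2 - q.2.1 : ℝ) : ℂ) ≠ 0 := by
      exact_mod_cast sub_ne_zero.2 (Ne.symm hne)
    have h7 := (mul_eq_zero.1 h3.symm).resolve_left (mul_ne_zero h6 h1.1)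
    exact h2.2.2 (by exact_mod_cast h7))
  filter_upwards [h1] with p hp h2 h3
  by_contra h4
  exact hp ⟨h2, h3, h4⟩

/-- the support is invariant -/
theorem Dat.supp1 [NullSingletonClass ν] (D : Dat m ν τ c R E η F φ g s) (y : Site d) :
    ∀ᵐ q ∂(((PP d ν).prod m).prod (ν.prod ν)), (∀ x, fd τ φ (up y (q.1, q.2.1)) x ≠ 0) →
      ∀ x, fd τ φ (up y (q.1, q.2.2)) x ≠ 0 := by
  filter_upwards [D.rel y,
    (mp_snd2 (m := m) (ν := ν) y).quasiMeasurePreserving.ae D.off] with q h1 h2 h3 x h4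
  obtain ⟨h5, h6⟩ := h1 (h3 y)
  have h7 := h6 x
  rw [h4, h2 y x h5 h4] at h7
  simp only [Complex.ofReal_zero, mul_zero, add_zero] at h7
  exact h3 x h7

end Pool.Agent.Helper26.Sw
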