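import Pool.Agent.Helper26.Sw.Fb

/-! # The bound of the diagonal Green function -/

set_option autoImplicit false

open MeasureTheory Filter Topology
open scoped BigOperators ENNReal NNReal InnerProductSpace ComplexConjugate

namespace Pool.Agent.Helper26.Sw

open Pool.Agent.H5R2.NB Pool.Agent.Helper26.Rg Pool.Agent.Helper26.Nb

variable {d : ℕ} {Θ : Type} [MeasurableSpace Θ] {m : Measure Θ} [IsProbabilityMeasure m]
  {τ : Site d → Θ → Θ} {ν : Measure ℝ} [IsProbabilityMeasure ν]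
  {c R E α β : ℝ} {η : ℕ → ℝ} {F : ℕ → (Site d → ℝ) × Θ → ℂ} {φ : (Site d → ℝ) × Θ → ℂ}
  {g : (Site d → ℝ) × Θ → ℝ} {s : Finset (Site d)}

/-- the assumptions on the single site law -/
structure Law (ν : Measure ℝ) (α β : ℝ) : Prop where
  ab : α < β
  supp : ∀ᵐ s ∂ν, s ∈ Set.Icc α β
  fat : ∀ t ∈ Set.Ioo α β, ∀ C : ℝ, ∃ ρ : ℝ, 0 < ρ ∧
    ENNReal.ofReal (C * ρ ^ 2) < ν (Metric.ball t ρ)

lemma crit {α β v g : ℝ} (hv : v ∈ Set.Icc α β)
    (h : ¬ (0 ≤ 1 + (α - v) * g ∧ 0 ≤ 1 + (β - v) * g)) :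
    ∃ t ∈ Set.Ioo α β, g ≠ 0 ∧ 1 + (t - v) * g = 0 := by
  have hg : g ≠ 0 := by
    rintro rfl
    apply h
    norm_num
  have e : 1 + (v - 1 / g - v) * g = 0 := by field_simp; ring
  refine ⟨v - 1 / g, ?_, hg, e⟩
  rw [not_and_or, not_le, not_le] at h
  obtain ⟨h1, h2⟩ := hv
  rcases h with h | h
  · have hg1 : 0 < g := by
      by_contra h3
      push Not at h3
      nlinarith
    have h4 : 1 / g < v - α := by
      rw [div_lt_iff₀ hg1]
      linarith
    have h5 : 0 < 1 / g := by positivity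
    exact ⟨by linarith, by linarith⟩
  · have hg1 : g < 0 := by
      by_contra h3
      push Not at h3
      nlinarith
    have h4 : -(β - v) < 1 / g := by
      rw [lt_div_iff_of_neg hg1]
      linarith
    have h5 : 1 / g < 0 := one_div_neg.2 hg1
    exact ⟨by linarith, by linarith⟩

theorem Dat.fin2 (D : Dat m ν τ c R E η F φ g s) (y : Site d) :
    ∀ᵐ p ∂((PP d ν).prod m), ∫⁻ t, ‖fd τ φ (up y (p, t)) y‖ₑ ^ 2 ∂ν < ∞ := by
  have hm : Measurable fun p => ‖fd τ φ p y‖ₑ ^ 2 := (D.fdm y).enorm.pow_const 2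
  have h1 : ∫⁻ q, ‖fd τ φ (up y q) y‖ₑ ^ 2 ∂(((PP d ν).prod m).prod ν) < ∞ := by
    rw [(mp_up (m := m) (ν := ν) y).lintegral_comp hm]
    have h2 : ∫⁻ p, ‖fd τ φ p y‖ₑ ^ 2 ∂((PP d ν).prod m) =
        ∫⁻ p, ‖φ p‖ₑ ^ 2 ∂((PP d ν).prod m) :=
      (sX_mp (m := m) (ν := ν) D.act y).lintegral_comp (D.smφ.measurable.enorm.pow_const 2)
    rw [h2]
    have h4 := D.memφ.eLpNorm_lt_top
    rw [eLpNorm_lt_top_iff_lintegral_rpow_enorm_lt_top two_ne_zero ENNReal.ofNat_ne_top] at h4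
    simp only [ENNReal.toReal_ofNat, ENNReal.rpow_two] at h4
    exact h4
  have hm2 : Measurable fun q : ((Site d → ℝ) × Θ) × ℝ => ‖fd τ φ (up y q) y‖ₑ ^ 2 :=
    hm.comp (mp_up (m := m) (ν := ν) y).measurable
  rw [lintegral_prod _ hm2.aemeasurable] at h1
  exact ae_lt_top hm2.lintegral_prod_right' h1.ne

theorem Dat.pol [NullSingletonClass ν] (D : Dat m ν τ c R E η F φ g s) (L : Law ν α β) :
    ∀ᵐ p ∂((PP d ν).prod m), ∀ y, fd τ φ p y ≠ 0 →
      0 ≤ 1 + (α - p.1 y) * gl c R E η p.1 y y ∧ 0 ≤ 1 + (β - p.1 y) * gl c R E η p.1 y y := by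
  rw [ae_all_iff]
  intro y
  have hgm : Measurable fun p : (Site d → ℝ) × Θ => gl c R E η p.1 y y :=
    (gl_meas D.pos y y).comp measurable_fst
  have hpm : Measurable fun p : (Site d → ℝ) × Θ => p.1 y :=
    (measurable_pi_apply y).comp measurable_fst
  set B : Set ((Site d → ℝ) × Θ) := {p | fd τ φ p y ≠ 0} ∩
    {p | 0 ≤ 1 + (α - p.1 y) * gl c R E η p.1 y y ∧
      0 ≤ 1 + (β - p.1 y) * gl c R E η p.1 y y}ᶜ with hB
  have hBm : MeasurableSet B := by
    refine MeasurableSet.inter ?_ (MeasurableSet.compl (MeasurableSet.inter ?_ ?_))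
    · exact (D.fdm y) (measurableSet_singleton (0 : ℂ)).compl
    · exact measurableSet_le measurable_const
        (((measurable_const.sub hpm).mul hgm).const_add 1)
    · exact measurableSet_le measurable_const
        (((measurable_const.sub hpm).mul hgm).const_add 1)
  have hS : MeasurableSet (up (Θ := Θ) y ⁻¹' B) := (mp_up (m := m) (ν := ν) y).measurable hBm
  have hR : ∀ᵐ q ∂(((PP d ν).prod m).prod (ν.prod ν)),
      (fd τ φ (up y (q.1, q.2.1)) y ≠ 0 → fd τ φ (up y (q.1, q.2.2)) y ≠ 0) ∧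
      (fd τ φ (up y (q.1, q.2.2)) y ≠ 0 →
        fd τ φ (up y (q.1, q.2.2)) y = fd τ φ (up y (q.1, q.2.1)) y +
        ((q.2.1 - q.2.2 : ℝ) : ℂ) * fd τ φ (up y (q.1, q.2.2)) y *
          (gl c R E η (up y (q.1, q.2.1)).1 y y : ℂ)) := by
    filter_upwards [D.rel y, mp_swp.quasiMeasurePreserving.ae (D.rel y)] with q h1 h2
    exact ⟨fun h => (h1 h).1, fun h => (h2 h).2 y⟩
  have h1 : (((PP d ν).prod m).prod ν) (up y ⁻¹' B) = 0 := by
    rw [Measure.measure_prod_null hS]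
    filter_upwards [Measure.ae_ae_of_ae_prod hR, D.fin2 y] with p hp hN
    have h2 := Measure.ae_ae_of_ae_prod hp
    refine measure_eq_zero_iff_ae_notMem.2 ?_
    filter_upwards [h2, L.supp] with v hv hvI hvB
    obtain ⟨hv1, hv2⟩ := hvB
    set b := up y (p, v) with hb
    have hbv : b.1 y = v := by
      rw [hb]; unfold up; simp
    have hv3 : ¬ (0 ≤ 1 + (α - v) * gl c R E η b.1 y y ∧
        0 ≤ 1 + (β - v) * gl c R E η b.1 y y) := by
      intro h
      apply hv2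
      show 0 ≤ 1 + (α - b.1 y) * gl c R E η b.1 y y ∧ 0 ≤ 1 + (β - b.1 y) * gl c R E η b.1 y y
      rw [hbv]
      exact h
    obtain ⟨t, ht, hg, hz⟩ := crit hvI hv3
    set γ := gl c R E η b.1 y y with hγ
    set K : ℝ := ‖fd τ φ b y‖ ^ 2 with hK
    have hKp : 0 < K := by
      have : 0 < ‖fd τ φ b y‖ := norm_pos_iff.2 hv1
      positivity
    have key : ∀ᵐ u ∂ν, ‖fd τ φ (up y (p, u)) y‖ ^ 2 * (γ ^ 2 * (u - t) ^ 2) = K := by
      filter_upwards [hv] with u hu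
      have h3 := hu.2 (hu.1 hv1)
      have h4 : fd τ φ (up y (p, u)) y * ((γ * (u - t) : ℝ) : ℂ) = fd τ φ b y := by
        have h5 : ((1 + (t - v) * γ : ℝ) : ℂ) = 0 := by rw [hz]; simp
        push_cast at h5 h3 ⊢
        linear_combination h3 - fd τ φ (up y (p, u)) y * h5
      rw [hK, ← h4, norm_mul, Complex.norm_real, Real.norm_eq_abs, mul_pow, sq_abs]
      ring
    set N := ∫⁻ u, ‖fd τ φ (up y (p, u)) y‖ₑ ^ 2 ∂ν with hNdef
    obtain ⟨ρ, hρ, hfat⟩ := L.fat t ht (N.toReal * γ ^ 2 / K)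
    have hg2 : 0 < γ ^ 2 := by positivity
    set κ : ℝ := K / (γ ^ 2 * ρ ^ 2) with hκ
    have hκp : 0 < κ := by positivity
    have h6 : ENNReal.ofReal κ * ν (Metric.ball t ρ) ≤ N := by
      rw [← setLIntegral_const, hNdef]
      refine (lintegral_mono_ae ?_).trans (setLIntegral_le_lintegral (Metric.ball t ρ) _)
      refine (ae_restrict_iff' measurableSet_ball).2 ?_
      filter_upwards [key] with u hu hub
      rw [← ofReal_norm, ← ENNReal.ofReal_pow (norm_nonneg _)]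
      refine ENNReal.ofReal_le_ofReal ?_
      rw [hκ, div_le_iff₀ (by positivity), ← hu]
      have h7 : (u - t) ^ 2 ≤ ρ ^ 2 := by
        have h8 : |u - t| < ρ := by rwa [Metric.mem_ball, Real.dist_eq] at hub
        rw [← sq_abs (u - t)]
        exact pow_le_pow_left₀ (abs_nonneg _) h8.le 2
      have h9 : 0 ≤ ‖fd τ φ (up y (p, u)) y‖ ^ 2 := by positivity
      gcongr
    have h7 : ENNReal.ofReal κ * ENNReal.ofReal (N.toReal * γ ^ 2 / K * ρ ^ 2) = N := by
      rw [← ENNReal.ofReal_mul hκp.le]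
      have : κ * (N.toReal * γ ^ 2 / K * ρ ^ 2) = N.toReal := by
        rw [hκ]
        field_simp
      rw [this, ENNReal.ofReal_toReal hN.ne]
    have h8 : ENNReal.ofReal κ * ENNReal.ofReal (N.toReal * γ ^ 2 / K * ρ ^ 2) <
        ENNReal.ofReal κ * ν (Metric.ball t ρ) := by
      refine ENNReal.mul_lt_mul_right ?_ ENNReal.ofReal_ne_top hfat
      rw [Ne, ENNReal.ofReal_eq_zero, not_le]
      exact hκp
    rw [h7] at h8
    exact absurd (h8.trans_le h6) (lt_irrefl _)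
  have h4 : ((PP d ν).prod m) B = 0 := by
    rw [← (mp_up (m := m) (ν := ν) y).measure_preimage hBm.nullMeasurableSet]
    exact h1
  filter_upwards [measure_eq_zero_iff_ae_notMem.1 h4] with p hp h2
  by_contra h3
  exact hp ⟨h2, h3⟩

end Pool.Agent.Helper26.Sw
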