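import Pool.Agent.Helper26.Sw.Tf

/-! # Green matrices; the support is not everything -/

set_option autoImplicit false

open MeasureTheory Filter Topology
open scoped BigOperators ENNReal NNReal InnerProductSpace ComplexConjugate Matrix

namespace Pool.Agent.Helper26.Sw

open Pool.Agent.H5R2.NB Pool.Agent.Helper26.Rg Pool.Agent.Helper26.Nb
open Pool.Agent.TH369.AN (Rz rz_eq rz_uniq rz_norm)

variable {d : ℕ}

section det

variable {c R E : ℝ} {η : ℕ → ℝ}

/-- the Green matrix -/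
noncomputable def Gm (c R E : ℝ) (η : ℕ → ℝ) (V : Site d → ℝ) (Λ : Finset (Site d)) :
    Matrix Λ Λ ℝ := Matrix.of fun x y => gl c R E η V x y

/-- convergence of all Green functions -/
def Cv (c R E : ℝ) (η : ℕ → ℝ) (V : Site d → ℝ) : Prop := ∀ y x,
  Tendsto (fun n => Gf c R (ze E (η n)) V y x) atTop (𝓝 (gl c R E η V y x : ℂ))

lemma Gm_symm (hη : ∀ n, 0 < η n) {V : Site d → ℝ} (hC : Cv c R E η V) (Λ : Finset (Site d)) :
    (Gm c R E η V Λ).IsSymm := by
  ext x y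
  exact gl_symm hη (hC _ _) (hC _ _)

lemma Gm_rel (hη : ∀ n, 0 < η n) {V V' : Site d → ℝ} (hC : Cv c R E η V)
    (hC' : Cv c R E η V') (Λ : Finset (Site d)) (h : ∀ w, w ∉ Λ → V' w = V w)
    (hV : ∀ w, |V w| ≤ R) (hV' : ∀ w, |V' w| ≤ R) :
    (1 + Gm c R E η V Λ * Matrix.diagonal (fun x : Λ => V' x - V x)) * Gm c R E η V' Λ =
      Gm c R E η V Λ := by
  ext x y
  rw [add_mul, one_mul, Matrix.add_apply, Matrix.mul_apply]
  simp only [Matrix.mul_diagonal]
  have h1 : Tendsto (fun n => Gf c R (ze E (η n)) V y x -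
      ∑ w ∈ Λ, Gf c R (ze E (η n)) V w x * ((V' w : ℂ) - (V w : ℂ)) *
        Gf c R (ze E (η n)) V' y w) atTop (𝓝 ((gl c R E η V y x : ℂ) -
      ∑ w ∈ Λ, (gl c R E η V w x : ℂ) * ((V' w : ℂ) - (V w : ℂ)) *
        (gl c R E η V' y w : ℂ))) :=
    (hC y x).sub (tendsto_finsetSum _ fun w _ => ((hC w x).mul_const _).mul (hC' y w))
  have h2 : ∀ n, Gf c R (ze E (η n)) V' y x = Gf c R (ze E (η n)) V y x -
      ∑ w ∈ Λ, Gf c R (ze E (η n)) V w x * ((V' w : ℂ) - (V w : ℂ)) *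
        Gf c R (ze E (η n)) V' y w := by
    intro n
    have := Gf_res c R (by rw [ze_im]; exact (hη n).ne') V V' Λ (z := ze E (η n))
      (fun w hw => by rw [cl_eq hV, cl_eq hV', h w hw]) x y
    rw [cl_eq hV, cl_eq hV'] at this
    exact this
  have h3 := tendsto_nhds_unique (hC' y x) (h1.congr fun n => (h2 n).symm)
  have h4 : gl c R E η V' y x = gl c R E η V y x -
      ∑ w ∈ Λ, gl c R E η V w x * (V' w - V w) * gl c R E η V' y w := by
    apply Complex.ofReal_injective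
    rw [h3]
    push_cast
    rfl
  have h5 : ∑ w : Λ, Gm c R E η V Λ x w * (V' w - V w) * Gm c R E η V' Λ w y =
      ∑ w ∈ Λ, gl c R E η V w x * (V' w - V w) * gl c R E η V' y w := by
    rw [← Finset.sum_coe_sort Λ]
    refine Finset.sum_congr rfl fun w _ => ?_
    show gl c R E η V x w * (V' w - V w) * gl c R E η V' w y = _
    rw [gl_symm hη (hC x w) (hC w x), gl_symm hη (hC' w y) (hC' y w)]
  rw [h5]
  show gl c R E η V' x y + _ = gl c R E η V x y
  rw [gl_symm hη (hC' x y) (hC' y x), gl_symm hη (hC x y) (hC y x), h4]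
  ring

lemma norm_sq_supp (Λ : Finset (Site d)) (ψ : L2 (Site d)) (h : ∀ x, x ∉ Λ → ψ x = 0) :
    ‖ψ‖ ^ 2 = ∑ x ∈ Λ, ‖ψ x‖ ^ 2 := by
  have h1 : ψ = Ws Λ id (fun x => ψ x) := by
    refine lp.ext (funext fun x => ?_)
    rw [Ws_apply]
    split_ifs with hx
    · rfl
    · exact h x hx
  have h2 := norm_Ws Λ id Function.injective_id (fun x => ψ x)
  rw [← h1, ← ofReal_norm, ← ENNReal.ofReal_pow (norm_nonneg _)] at h2
  have h3 : ∑ y ∈ Λ, ‖ψ y‖ₑ ^ 2 = ENNReal.ofReal (∑ y ∈ Λ, ‖ψ y‖ ^ 2) := by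
    rw [ENNReal.ofReal_sum_of_nonneg fun _ _ => by positivity]
    refine Finset.sum_congr rfl fun y _ => ?_
    rw [← ofReal_norm, ENNReal.ofReal_pow (norm_nonneg _)]
  rw [h3] at h2
  have h4 := congrArg ENNReal.toReal h2
  rwa [ENNReal.toReal_ofReal (by positivity), ENNReal.toReal_ofReal (by positivity)] at h4

/-- representation of finitely supported functions -/
lemma rep_fin (hη : ∀ n, 0 < η n) (ht : Tendsto η atTop (𝓝 0)) {V : Site d → ℝ}
    (hC : Cv c R E η V) (Λ : Finset (Site d)) (ψ r : L2 (Site d))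
    (hr : Tm c R V ψ - (E : ℂ) • ψ = r) (h1 : ∀ x, x ∉ Λ → ψ x = 0)
    (h2 : ∀ x, x ∉ Λ → r x = 0) (x : Site d) :
    ψ x = ∑ y ∈ Λ, (gl c R E η V y x : ℂ) * r y := by
  have h3 : ∀ n, ψ x = ∑ y ∈ Λ, (r y - ((η n : ℂ) * Complex.I) * ψ y) *
      Gf c R (ze E (η n)) V y x := by
    intro n
    have hz : (ze E (η n)).im ≠ 0 := by rw [ze_im]; exact (hη n).ne'
    have e1 : Tm c R V ψ - ze E (η n) • ψ =
        ∑ y ∈ Λ, (r y - ((η n : ℂ) * Complex.I) * ψ y) • (dl y : L2 (Site d)) := by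
      have e2 : Tm c R V ψ - ze E (η n) • ψ = r - ((η n : ℂ) * Complex.I) • ψ := by
        rw [← hr]
        unfold ze
        module
      rw [e2]
      refine lp.ext (funext fun t => ?_)
      have e3 := Ws_apply Λ (fun y => r y - ((η n : ℂ) * Complex.I) * ψ y) t
      unfold Ws at e3
      simp only [id] at e3
      refine Eq.trans ?_ e3.symm
      rw [lp.coeFn_sub, Pi.sub_apply, lp.coeFn_smul, Pi.smul_apply, smul_eq_mul]
      split_ifs with ht
      · rfl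
      · rw [h1 t ht, h2 t ht]; ring
    have e4 := rz_uniq (Tm c R V) (Tm_sa c R V) (ze E (η n)) hz _ _ e1
    have e5 := congrArg (fun g : L2 (Site d) => g x) e4
    simp only at e5
    rw [e5, map_sum, lp.coeFn_sum, Finset.sum_apply]
    refine Finset.sum_congr rfl fun y _ => ?_
    rw [map_smul, lp.coeFn_smul, Pi.smul_apply, smul_eq_mul]
    rfl
  have h4 : Tendsto (fun n => ∑ y ∈ Λ, (r y - ((η n : ℂ) * Complex.I) * ψ y) *
      Gf c R (ze E (η n)) V y x) atTop (𝓝 (∑ y ∈ Λ, (r y - (((0 : ℝ) : ℂ) * Complex.I) * ψ y) *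
      (gl c R E η V y x : ℂ))) := by
    refine tendsto_finsetSum _ fun y _ => Tendsto.mul ?_ (hC y x)
    exact tendsto_const_nhds.sub ((((Complex.continuous_ofReal.tendsto _).comp ht).mul_const
      _).mul_const _)
  have h5 := tendsto_nhds_unique (tendsto_const_nhds.congr h3) h4
  rw [h5]
  refine Finset.sum_congr rfl fun y _ => ?_
  simp [mul_comm]

/-- the lower bound of `‖(H - E) ψ‖` -/
lemma lower (hη : ∀ n, 0 < η n) (ht : Tendsto η atTop (𝓝 0)) {V : Site d → ℝ}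
    (hC : Cv c R E η V) (Λ : Finset (Site d)) {δ : ℝ} (hδ : 0 < δ)
    (hdet : ∀ t : ℝ, |t| < δ → (1 + t • Gm c R E η V Λ).det ≠ 0) (ψ r : L2 (Site d))
    (hr : Tm c R V ψ - (E : ℂ) • ψ = r) (h1 : ∀ x, x ∉ Λ → ψ x = 0)
    (h2 : ∀ x, x ∉ Λ → r x = 0) : δ * ‖ψ‖ ≤ ‖r‖ := by
  have hrep := rep_fin hη ht hC Λ ψ r hr h1 h2
  have hG := Gm_symm hη hC Λ
  have bre := norm_bound hG hδ hdet (fun y : Λ => (r y).re)
  have bim := norm_bound hG hδ hdet (fun y : Λ => (r y).im)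
  have ere : ∀ x : Λ, (Gm c R E η V Λ *ᵥ fun y : Λ => (r y).re) x = (ψ x).re := by
    intro x
    rw [hrep x, Complex.re_sum]
    show ∑ y : Λ, gl c R E η V x y * (r y).re = _
    rw [← Finset.sum_coe_sort Λ]
    refine Finset.sum_congr rfl fun y _ => ?_
    rw [Complex.re_ofReal_mul, gl_symm hη (hC x y) (hC y x)]
  have eim : ∀ x : Λ, (Gm c R E η V Λ *ᵥ fun y : Λ => (r y).im) x = (ψ x).im := by
    intro x
    rw [hrep x, Complex.im_sum]
    show ∑ y : Λ, gl c R E η V x y * (r y).im = _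
    rw [← Finset.sum_coe_sort Λ]
    refine Finset.sum_congr rfl fun y _ => ?_
    rw [Complex.im_ofReal_mul, gl_symm hη (hC x y) (hC y x)]
  simp only [ere] at bre
  simp only [eim] at bim
  have n1 : ‖ψ‖ ^ 2 = ∑ x : Λ, (ψ x).re ^ 2 + ∑ x : Λ, (ψ x).im ^ 2 := by
    rw [norm_sq_supp Λ ψ h1, ← Finset.sum_add_distrib, ← Finset.sum_coe_sort Λ]
    refine Finset.sum_congr rfl fun x _ => ?_
    rw [← Complex.normSq_eq_norm_sq, Complex.normSq_apply]
    ring
  have n2 : ‖r‖ ^ 2 = ∑ x : Λ, (r x).re ^ 2 + ∑ x : Λ, (r x).im ^ 2 := by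
    rw [norm_sq_supp Λ r h2, ← Finset.sum_add_distrib, ← Finset.sum_coe_sort Λ]
    refine Finset.sum_congr rfl fun x _ => ?_
    rw [← Complex.normSq_eq_norm_sq, Complex.normSq_apply]
    ring
  have h3 : (δ * ‖ψ‖) ^ 2 ≤ ‖r‖ ^ 2 := by
    rw [mul_pow, n1, n2, mul_add]
    exact add_le_add bre bim
  exact (pow_le_pow_iff_left₀ (by positivity) (norm_nonneg _) two_ne_zero).1 h3

end det

end Pool.Agent.Helper26.Sw
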