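import Pool.Agent.Helper26.Sw.Wt

/-! # Green functions of clipped potentials -/

set_option autoImplicit false

open MeasureTheory Filter Topology
open scoped BigOperators ENNReal NNReal InnerProductSpace ComplexConjugate

namespace Pool.Agent.Helper26.Sw

open Pool.Agent.H5R2.NB Pool.Agent.Helper26.Rg Pool.Agent.Helper26.Cm Pool.Agent.Helper26.Nb
open Pool.Agent.TH369.AN (Rz rz_eq rz_uniq rz_norm)

variable {d : ℕ}

/-- clipped potential -/
noncomputable def cl (R : ℝ) (V : Site d → ℝ) : Site d → ℝ := fun x => max (-|R|) (min |R| (V x))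

lemma cl_le (R : ℝ) (V : Site d → ℝ) (x : Site d) : |cl R V x| ≤ |R| := by
  unfold cl
  rw [abs_le]
  have := abs_nonneg R
  exact ⟨le_max_left _ _, max_le (by linarith) (min_le_left _ _)⟩

lemma cl_eq {R : ℝ} {V : Site d → ℝ} (hV : ∀ x, |V x| ≤ R) : cl R V = V := by
  funext x
  have h := hV x
  have h1 : R ≤ |R| := le_abs_self R
  have h2 := abs_le.1 (h.trans h1)
  unfold cl
  rw [min_eq_right h2.2, max_eq_right h2.1]

lemma cl_cont (R : ℝ) (x : Site d) : Continuous fun V : Site d → ℝ => cl R V x := by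
  unfold cl
  fun_prop

/-- the Hamiltonian with the clipped potential -/
noncomputable def Tm (c R : ℝ) (V : Site d → ℝ) : L2 (Site d) →L[ℂ] L2 (Site d) :=
  TV c (cl R V) |R| (cl_le R V)

lemma Tm_sa (c R : ℝ) (V : Site d → ℝ) : IsSelfAdjoint (Tm c R V) := TV_sa _ _ _ _

lemma Tm_apply (c R : ℝ) (V : Site d → ℝ) (ψ : L2 (Site d)) (x : Site d) :
    (Tm c R V ψ) x = hopf c (fun y => ψ y) x + cl R V x * ψ x := TV_apply _ _ _ _ _ _

/-- the Green function `G(·, y; z)` -/
noncomputable def Gf (c R : ℝ) (z : ℂ) (V : Site d → ℝ) (y : Site d) : L2 (Site d) :=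
  Rz (Tm c R V) z (dl y)

lemma Gf_eq (c R : ℝ) {z : ℂ} (hz : z.im ≠ 0) (V : Site d → ℝ) (x y : Site d) :
    hopf c (fun w => Gf c R z V y w) x + cl R V x * Gf c R z V y x - z * Gf c R z V y x =
      if y = x then 1 else 0 := by
  have h1 := rz_eq (Tm c R V) (Tm_sa c R V) z hz (dl y)
  have h3 := congrArg (fun g : L2 (Site d) => g x) h1
  simp only [lp.coeFn_sub, Pi.sub_apply, lp.coeFn_smul, Pi.smul_apply, smul_eq_mul] at h3
  rw [Tm_apply, dl_apply] at h3
  exact h3

lemma star_hopf (c : ℝ) (ψ : Site d → ℂ) (x : Site d) :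
    conj (hopf c ψ x) = hopf c (fun y => conj (ψ y)) x := by
  unfold hopf
  simp only [map_mul, Complex.conj_ofReal, map_sum, map_add]

lemma Gf_star (c R : ℝ) {z : ℂ} (hz : z.im ≠ 0) (V : Site d → ℝ) (y : Site d) :
    Gf c R (conj z) V y = star (Gf c R z V y) := by
  have hz' : (conj z).im ≠ 0 := by
    rw [Complex.conj_im]
    exact neg_ne_zero.2 hz
  refine (rz_uniq (Tm c R V) (Tm_sa c R V) (conj z) hz' _ _ ?_).symm
  ext x
  rw [lp.coeFn_sub, Pi.sub_apply, lp.coeFn_smul, Pi.smul_apply, smul_eq_mul, Tm_apply, dl_apply]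
  have h := congrArg conj (Gf_eq c R hz V x y)
  simp only [map_sub, map_add, map_mul, star_hopf, Complex.conj_ofReal] at h
  simp only [lp.star_apply, RCLike.star_def]
  rw [h]
  split_ifs <;> simp

lemma Gf_symm (c R : ℝ) {z : ℂ} (hz : z.im ≠ 0) (V : Site d → ℝ) (x y : Site d) :
    Gf c R z V y x = Gf c R z V x y := by
  have h1 : ⟪Gf c R (conj z) V x, (dl y : L2 (Site d))⟫_ℂ = ⟪(dl x : L2 (Site d)), Gf c R z V y⟫_ℂ := by
    have e1 := rz_eq (Tm c R V) (Tm_sa c R V) z hz (dl y)
    have hz' : (conj z).im ≠ 0 := by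
      rw [Complex.conj_im]
      exact neg_ne_zero.2 hz
    have e2 := rz_eq (Tm c R V) (Tm_sa c R V) (conj z) hz' (dl x)
    have hs : ∀ a b : L2 (Site d), ⟪Tm c R V a, b⟫_ℂ = ⟪a, Tm c R V b⟫_ℂ :=
      (ContinuousLinearMap.isSelfAdjoint_iff_isSymmetric.1 (Tm_sa c R V))
    rw [← e1, ← e2]
    unfold Gf
    rw [e1, e2]
    conv_lhs => rw [← e1]
    conv_rhs => rw [← e2]
    rw [inner_sub_right, inner_sub_left, inner_smul_right, inner_smul_left, hs,
      Complex.conj_conj]
  rw [Gf_star c R hz, CV.inner_dl, ← inner_conj_symm, CV.inner_dl, lp.star_apply,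
    RCLike.star_def, Complex.conj_conj] at h1
  exact h1.symm

/-- strong resolvent continuity -/
lemma Gf_cont (c R : ℝ) {z : ℂ} (hz : z.im ≠ 0) (y : Site d) :
    Continuous fun V : Site d → ℝ => Gf c R z V y := by
  rw [continuous_iff_continuousAt]
  intro V₀
  rw [ContinuousAt, tendsto_iff_norm_sub_tendsto_zero]
  set a := Gf c R z V₀ y with ha
  have h0 : ∀ V, Gf c R z V y - a = -Rz (Tm c R V) z (Tm c R V a - Tm c R V₀ a) := by
    intro V
    have e1 := rz_eq (Tm c R V₀) (Tm_sa c R V₀) z hz (dl y)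
    have e2 := rz_eq (Tm c R V) (Tm_sa c R V) z hz (dl y)
    have e3 : -(Gf c R z V y - a) = Rz (Tm c R V) z (Tm c R V a - Tm c R V₀ a) := by
      refine rz_uniq (Tm c R V) (Tm_sa c R V) z hz _ _ ?_
      rw [map_neg, map_sub]
      have e4 : Tm c R V₀ a = dl y + z • a := sub_eq_iff_eq_add.1 e1
      have e5 : Tm c R V (Gf c R z V y) = dl y + z • Gf c R z V y := sub_eq_iff_eq_add.1 e2
      rw [e5, e4]
      module
    rw [← e3, neg_neg]
  have h1 : ∀ V, ‖Gf c R z V y - a‖ ≤ ‖Tm c R V a - Tm c R V₀ a‖ / |z.im| := by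
    intro V
    rw [h0 V, norm_neg]
    exact rz_norm _ (Tm_sa c R V) z hz _
  have h2 : Tendsto (fun V => ‖Tm c R V a - Tm c R V₀ a‖ / |z.im|) (𝓝 V₀) (𝓝 0) := by
    have h3 : Continuous fun V : Site d → ℝ => Tm c R V a := by
      have h4 := mulL_cont (fun V : Site d → ℝ => fun x => ((cl R V x : ℝ) : ℂ)) |R|
        (fun V => nV (cl_le R V)) (fun x => Complex.continuous_ofReal.comp (cl_cont R x))
      have h5 : Continuous fun V : Site d → ℝ =>
          mulL (fun x => ((cl R V x : ℝ) : ℂ)) |R| (nV (cl_le R V)) a :=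
        h4.comp (Continuous.prodMk continuous_id continuous_const)
      exact continuous_const.add h5
    have h6 : Continuous fun V : Site d → ℝ => ‖Tm c R V a - Tm c R V₀ a‖ / |z.im| :=
      ((h3.sub continuous_const).norm).div_const _
    have := h6.tendsto V₀
    simpa using this
  exact squeeze_zero (fun _ => norm_nonneg _) h1 h2

lemma Gf_meas (c R : ℝ) {z : ℂ} (hz : z.im ≠ 0) (x y : Site d) :
    Measurable fun V : Site d → ℝ => Gf c R z V y x := by
  have h : Continuous fun V : Site d → ℝ => Gf c R z V y x := by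
    have h1 := Gf_cont (d := d) c R hz y
    have h2 : Continuous fun ψ : L2 (Site d) => ψ x := by
      have : (fun ψ : L2 (Site d) => ψ x) = fun ψ => ⟪(dl x : L2 (Site d)), ψ⟫_ℂ := by
        funext ψ
        rw [CV.inner_dl]
      rw [this]
      fun_prop
    exact h2.comp h1
  exact h.measurable

/-- the second resolvent identity for potentials which differ on a finite set -/
lemma Gf_res (c R : ℝ) {z : ℂ} (hz : z.im ≠ 0) (V V' : Site d → ℝ) (s : Finset (Site d))
    (h : ∀ w, w ∉ s → cl R V' w = cl R V w) (x y : Site d) :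
    Gf c R z V' y x = Gf c R z V y x -
      ∑ w ∈ s, Gf c R z V w x * (cl R V' w - cl R V w) * Gf c R z V' y w := by
  have e2 := rz_eq (Tm c R V') (Tm_sa c R V') z hz (dl y)
  have e3 : Gf c R z V' y = Gf c R z V y -
      ∑ w ∈ s, ((((cl R V' w : ℝ) : ℂ) - ((cl R V w : ℝ) : ℂ)) * Gf c R z V' y w) •
        Gf c R z V w := by
    refine (rz_uniq (Tm c R V) (Tm_sa c R V) z hz _
      (dl y - ∑ w ∈ s, ((((cl R V' w : ℝ) : ℂ) - cl R V w) * Gf c R z V' y w) • dl w) ?_).trans ?_
    · ext t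
      rw [lp.coeFn_sub, Pi.sub_apply, lp.coeFn_smul, Pi.smul_apply, smul_eq_mul, Tm_apply,
        lp.coeFn_sub, Pi.sub_apply, dl_apply]
      have h1 := Gf_eq c R hz V' t y
      have e4 : (∑ w ∈ s, ((((cl R V' w : ℝ) : ℂ) - cl R V w) * Gf c R z V' y w) •
          (dl w : L2 (Site d)) : L2 (Site d)) t =
          if t ∈ s then (((cl R V' t : ℝ) : ℂ) - cl R V t) * Gf c R z V' y t else 0 := by
        have := Ws_apply s (fun w => (((cl R V' w : ℝ) : ℂ) - cl R V w) * Gf c R z V' y w) t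
        unfold Ws at this
        simpa using this
      rw [e4]
      by_cases ht : t ∈ s
      · rw [if_pos ht]
        linear_combination h1
      · rw [if_neg ht]
        have := h t ht
        rw [this] at h1
        linear_combination h1
    · rw [map_sub, map_sum]
      congr 1
      refine Finset.sum_congr rfl fun w _ => ?_
      rw [map_smul]
      rfl
  have e5 := congrArg (fun g : L2 (Site d) => g x) e3
  simp only [lp.coeFn_sub, Pi.sub_apply] at e5
  rw [e5]
  congr 1
  rw [lp.coeFn_sum, Finset.sum_apply]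
  refine Finset.sum_congr rfl fun w _ => ?_
  rw [lp.coeFn_smul, Pi.smul_apply, smul_eq_mul]
  ring

end Pool.Agent.Helper26.Sw
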