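import Pool.Agent.Helper26.Sw.Pr

/-! # The resampling identity -/

set_option autoImplicit false

open MeasureTheory Filter Topology
open scoped BigOperators ENNReal NNReal InnerProductSpace ComplexConjugate

namespace Pool.Agent.Helper26.Sw

open Pool.Agent.H5R2.NB Pool.Agent.Helper26.Rg Pool.Agent.Helper26.Nb
open Pool.Agent.TH369.AN (Rz rz_eq rz_uniq rz_norm)

variable {d : ℕ} {Θ : Type} [MeasurableSpace Θ] {m : Measure Θ} [IsProbabilityMeasure m]
  {τ : Site d → Θ → Θ} {ν : Measure ℝ} [IsProbabilityMeasure ν]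

lemma fd_shift (hτ : Act m τ) (f : (Site d → ℝ) × Θ → ℂ) (p : (Site d → ℝ) × Θ) (x w : Site d) :
    fd τ f (sX τ x p) w = fd τ f p (w + x) := by
  unfold fd
  rw [sX_add hτ]

lemma Hf_shift (hτ : Act m τ) (c R : ℝ) (f : (Site d → ℝ) × Θ → ℂ) (p : (Site d → ℝ) × Θ)
    (x : Site d) : Hf τ c R f (sX τ x p) = hopf c (fd τ f p) x + cl R p.1 x * fd τ f p x := by
  unfold Hf
  have h1 : cl R (sX τ x p).1 0 = cl R p.1 x := by
    unfold cl sX
    simp
  rw [h1]
  congr 1
  unfold hopf
  congr 1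
  refine Finset.sum_congr rfl fun i _ => ?_
  rw [fd_shift hτ, fd_shift hτ]
  congr 2
  · abel
  · abel

/-- the equation at all sites -/
lemma eq_all (hτ : Act m τ) {c R : ℝ} {f h : (Site d → ℝ) × Θ → ℂ} {z : ℂ}
    (hf : ∀ᵐ p ∂((PP d ν).prod m), Hf τ c R f p - z * f p = h p) :
    ∀ᵐ p ∂((PP d ν).prod m), ∀ x, hopf c (fd τ f p) x + cl R p.1 x * fd τ f p x -
      z * fd τ f p x = fd τ h p x := by
  rw [ae_all_iff]
  intro x
  filter_upwards [(sX_mp (ν := ν) hτ x).quasiMeasurePreserving.ae hf] with p hp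
  rw [Hf_shift hτ] at hp
  exact hp

/-- weighted summability of stationary fields -/
lemma ws_fd (hτ : Act m τ) {f : (Site d → ℝ) × Θ → ℂ} (hfm : StronglyMeasurable f)
    (hf : MemLp f 2 ((PP d ν).prod m)) : ∀ᵐ p ∂((PP d ν).prod m), WS (fd τ f p) := by
  have h1 : ∀ k : ℕ, ∀ᵐ p ∂((PP d ν).prod m),
      Summable fun x => wt (1 - 1 / ((k : ℝ) + 2)) x * ‖fd τ f p x‖ ^ 2 := by
    intro k
    set r : ℝ := 1 - 1 / ((k : ℝ) + 2) with hr
    have hk : (0 : ℝ) < (k : ℝ) + 2 := by positivity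
    have hr0 : 0 < r := by
      rw [hr, sub_pos, div_lt_one hk]
      have : (0 : ℝ) ≤ k := Nat.cast_nonneg k
      linarith
    have hr1 : r < 1 := by
      rw [hr]
      have : 0 < 1 / ((k : ℝ) + 2) := by positivity
      linarith
    have hmeas : ∀ x, Measurable fun p => ENNReal.ofReal (wt r x) * ‖fd τ f p x‖ₑ ^ 2 := by
      intro x
      refine Measurable.const_mul ?_ _
      exact ((hfm.measurable.comp (sX_mp (m := m) (ν := ν) hτ x).measurable).enorm).pow_const 2
    have h2 : ∫⁻ p, ∑' x, ENNReal.ofReal (wt r x) * ‖fd τ f p x‖ₑ ^ 2 ∂((PP d ν).prod m) < ∞ := by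
      rw [lintegral_tsum fun x => (hmeas x).aemeasurable]
      have h3 : ∀ x, ∫⁻ p, ENNReal.ofReal (wt r x) * ‖fd τ f p x‖ₑ ^ 2 ∂((PP d ν).prod m) =
          ENNReal.ofReal (wt r x) * ∫⁻ p, ‖f p‖ₑ ^ 2 ∂((PP d ν).prod m) := by
        intro x
        have hm1 : Measurable fun p => ‖fd τ f p x‖ₑ ^ 2 :=
          ((hfm.measurable.comp (sX_mp (m := m) (ν := ν) hτ x).measurable).enorm).pow_const 2
        rw [lintegral_const_mul _ hm1]
        congr 1
        exact (sX_mp (m := m) (ν := ν) hτ x).lintegral_comp (hfm.measurable.enorm.pow_const 2)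
      simp only [h3]
      rw [ENNReal.tsum_mul_right]
      refine ENNReal.mul_lt_top ?_ ?_
      · rw [← ENNReal.ofReal_tsum_of_nonneg (fun x => (wt_pos hr0 x).le) (summable_wt hr0 hr1)]
        exact ENNReal.ofReal_lt_top
      · have h4 := hf.eLpNorm_lt_top
        rw [eLpNorm_lt_top_iff_lintegral_rpow_enorm_lt_top two_ne_zero ENNReal.ofNat_ne_top] at h4
        simp only [ENNReal.toReal_ofNat, ENNReal.rpow_two] at h4
        exact h4
    have h5 := ae_lt_top (Measurable.tsum hmeas) h2.ne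
    filter_upwards [h5] with p hp
    have h6 : ∀ x, ENNReal.ofReal (wt r x) * ‖fd τ f p x‖ₑ ^ 2 =
        ENNReal.ofReal (wt r x * ‖fd τ f p x‖ ^ 2) := by
      intro x
      rw [ENNReal.ofReal_mul (wt_pos hr0 x).le, ENNReal.ofReal_pow (norm_nonneg _),
        ofReal_norm]
    simp only [h6] at hp
    have h7 : Summable fun x => (ENNReal.ofReal (wt r x * ‖fd τ f p x‖ ^ 2)).toReal :=
      ENNReal.summable_toReal hp.ne
    refine h7.congr fun x => ?_
    rw [ENNReal.toReal_ofReal]
    have := wt_pos hr0 x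
    positivity
  have h2 := ae_all_iff.2 h1
  filter_upwards [h2] with p hp r hr hr1
  obtain ⟨k, hk⟩ : ∃ k : ℕ, r ≤ 1 - 1 / ((k : ℝ) + 2) := by
    obtain ⟨k, hk⟩ := exists_nat_gt (1 / (1 - r))
    refine ⟨k, ?_⟩
    have h3 : 0 < 1 - r := by linarith
    have h4 : 1 / ((k : ℝ) + 2) ≤ 1 - r := by
      rw [div_le_iff₀ (by positivity)]
      rw [div_lt_iff₀ h3] at hk
      nlinarith
    linarith
  refine Summable.of_nonneg_of_le (fun x => by have := wt_pos hr x; positivity) (fun x => ?_) (hp k)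
  refine mul_le_mul_of_nonneg_right ?_ (sq_nonneg _)
  exact Finset.prod_le_prod (fun _ _ => (pow_pos hr _).le)
    fun i _ => pow_le_pow_left₀ hr.le hk _

/-- locality of the profile -/
def Lcl (g : (Site d → ℝ) × Θ → ℝ) (s : Finset (Site d)) : Prop :=
  ∀ (p : (Site d → ℝ) × Θ) (y : Site d) (v : ℝ), y ∉ s → g (up y (p, v)) = g p

omit [MeasurableSpace Θ] in
lemma sX_up (x y : Site d) (p : (Site d → ℝ) × Θ) (v : ℝ) :
    sX τ x (up y (p, v)) = up (y - x) (sX τ x p, v) := by
  unfold sX up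
  refine Prod.ext ?_ rfl
  funext w
  show Function.update p.1 y v (w + x) = Function.update (fun w => p.1 (w + x)) (y - x) v w
  by_cases h : w = y - x
  · subst h
    rw [sub_add_cancel, Function.update_self, Function.update_self]
  · rw [Function.update_of_ne h, Function.update_of_ne]
    intro h'
    exact h (by rw [← h', add_sub_cancel_right])

/-- the resampling identity (deterministic form) -/
theorem ident {c R η E : ℝ} (hη : 0 < η) {F : (Site d → ℝ) × Θ → ℂ}
    {g : (Site d → ℝ) × Θ → ℝ} {s : Finset (Site d)} (hg : Lcl g s) (y : Site d)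
    (p : (Site d → ℝ) × Θ) (v : ℝ)
    (h1 : ∀ x, hopf c (fd τ F p) x + cl R p.1 x * fd τ F p x - ze E η * fd τ F p x =
      (-(η : ℂ) * Complex.I) * (g (sX τ x p) : ℂ))
    (h2 : ∀ x, hopf c (fd τ F (up y (p, v))) x + cl R (up y (p, v)).1 x * fd τ F (up y (p, v)) x -
      ze E η * fd τ F (up y (p, v)) x =
      (-(η : ℂ) * Complex.I) * (g (sX τ x (up y (p, v))) : ℂ))
    (w1 : WS (fd τ F p)) (w2 : WS (fd τ F (up y (p, v)))) (x : Site d) :
    fd τ F (up y (p, v)) x - fd τ F p x =
      -((((cl R (up y (p, v)).1 y : ℝ) : ℂ) - ((cl R p.1 y : ℝ) : ℂ)) * fd τ F p y *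
        Gf c R (ze E η) (up y (p, v)).1 y x) +
      ∑ w ∈ s.image (fun i => y - i), ((-(η : ℂ) * Complex.I) *
        ((g (sX τ w (up y (p, v))) : ℂ) - (g (sX τ w p) : ℂ))) *
          Gf c R (ze E η) (up y (p, v)).1 w x := by
  set p' := up y (p, v) with hp'
  set κ : ℂ := ((cl R p'.1 y : ℝ) : ℂ) - ((cl R p.1 y : ℝ) : ℂ) with hκ
  set W := s.image (fun i => y - i) with hW
  set a : Site d → ℂ := fun w => (-(η : ℂ) * Complex.I) *
    ((g (sX τ w p') : ℂ) - (g (sX τ w p) : ℂ)) with ha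
  have hz : 0 < (ze E η).im := by rw [ze_im]; exact hη
  have hcl : ∀ x, x ≠ y → cl R p'.1 x = cl R p.1 x := by
    intro x hx
    unfold cl
    rw [hp']
    unfold up
    simp only [Function.update_of_ne hx]
  have ha0 : ∀ w, w ∉ W → a w = 0 := by
    intro w hw
    have : g (sX τ w p') = g (sX τ w p) := by
      rw [hp', sX_up]
      refine hg _ _ _ fun h => hw ?_
      rw [hW, Finset.mem_image]
      exact ⟨y - w, h, by abel⟩
    rw [ha]
    simp only [this, sub_self, mul_zero]
  have key := rep (c := c) (cl_le R p'.1) hz (w2.sub w1)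
    (∑ w ∈ W, a w • (dl w : L2 (Site d)) - (κ * fd τ F p y) • dl y) (fun t => by
      have e1 : (∑ w ∈ W, a w • (dl w : L2 (Site d)) : L2 (Site d)) t = a t := by
        have := Ws_apply W a t
        unfold Ws at this
        simp only at this
        rw [show (∑ w ∈ W, a w • (dl w : L2 (Site d)) : L2 (Site d)) t =
          if t ∈ W then a t else 0 from by simpa using this]
        split_ifs with h
        · rfl
        · exact (ha0 t h).symm
      rw [lp.coeFn_sub, Pi.sub_apply, e1, lp.coeFn_smul, Pi.smul_apply, smul_eq_mul, dl_apply]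
      have e2 : hopf c (fun x => fd τ F p' x - fd τ F p x) t =
          hopf c (fd τ F p') t - hopf c (fd τ F p) t := by
        unfold hopf
        rw [← mul_sub, ← Finset.sum_sub_distrib]
        congr 1
        refine Finset.sum_congr rfl fun i _ => ?_
        ring
      rw [e2]
      have e3 := h1 t
      have e4 := h2 t
      by_cases hty : y = t
      · subst hty
        rw [if_pos rfl]
        have : a y = (-(η : ℂ) * Complex.I) *
          ((g (sX τ y p') : ℂ) - (g (sX τ y p) : ℂ)) := rfl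
        rw [this, hκ]
        linear_combination e4 - e3
      · rw [if_neg hty]
        have e5 := hcl t (Ne.symm hty)
        have : a t = (-(η : ℂ) * Complex.I) *
          ((g (sX τ t p') : ℂ) - (g (sX τ t p) : ℂ)) := rfl
        rw [this, e5]
        rw [e5] at e4
        linear_combination e4 - e3) x
  rw [key, map_sub, lp.coeFn_sub, Pi.sub_apply, map_smul, lp.coeFn_smul, Pi.smul_apply,
    smul_eq_mul, map_sum, lp.coeFn_sum, Finset.sum_apply]
  have e6 : ∀ w, (Rz (TV c (cl R p'.1) |R| (cl_le R p'.1)) (ze E η) (dl w : L2 (Site d))) x =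
      Gf c R (ze E η) p'.1 w x := fun w => rfl
  rw [e6 y]
  have e7 : ∑ w ∈ W, ((Rz (TV c (cl R p'.1) |R| (cl_le R p'.1)) (ze E η)
      (a w • (dl w : L2 (Site d)))) : L2 (Site d)) x =
      ∑ w ∈ W, a w * Gf c R (ze E η) p'.1 w x := by
    refine Finset.sum_congr rfl fun w _ => ?_
    rw [map_smul, lp.coeFn_smul, Pi.smul_apply, smul_eq_mul, e6]
  rw [e7]
  ring

end Pool.Agent.Helper26.Sw
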