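import Pool.Agent.Helper26.Sw.Fc

/-! # Irreducibility: the support is empty or everything -/

set_option autoImplicit false

open MeasureTheory Filter Topology
open scoped BigOperators ENNReal NNReal InnerProductSpace ComplexConjugate

namespace Pool.Agent.Helper26.Sw

open Pool.Agent.H5R2.NB Pool.Agent.Helper26.Rg Pool.Agent.Helper26.Nb

variable {d : ℕ}

lemma conn_aux (S : Site d → Prop) (h : ∀ (x : Site d) (i : Fin d), S x →
    S (x + Pi.single i 1) ∧ S (x - Pi.single i 1)) (x : Site d) (hx : S x) (z : Site d) :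
    S (x + z) := by
  have h1 : ∀ (i : Fin d) (n : ℤ) (x : Site d), S x → S (x + Pi.single i n) := by
    intro i n
    induction n using Int.induction_on with
    | zero => intro x hx; simpa using hx
    | succ k ih =>
      intro x hx
      have := (h _ i (ih x hx)).1
      rwa [add_assoc, ← Pi.single_add] at this
    | pred k ih =>
      intro x hx
      have := (h _ i (ih x hx)).2
      rwa [add_sub_assoc, ← Pi.single_sub] at this
  have h2 : ∀ (t : Finset (Fin d)) (z : Site d), (∀ i, i ∉ t → z i = 0) → ∀ x, S x →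
      S (x + z) := by
    classical
    intro t
    induction t using Finset.induction_on with
    | empty =>
      intro z hz x hx
      have : z = 0 := funext fun i => hz i (Finset.notMem_empty i)
      rw [this, add_zero]
      exact hx
    | insert i t hi ih =>
      intro z hz x hx
      have h3 := ih (Function.update z i 0) (fun j hj => by
        by_cases hji : j = i
        · subst hji; simp
        · rw [Function.update_of_ne hji]
          exact hz j (by simp [hji, hj])) x hx
      have h4 := h1 i (z i) _ h3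
      have h5 : x + Function.update z i 0 + Pi.single i (z i) = x + z := by
        rw [add_assoc]
        congr 1
        funext j
        by_cases hji : j = i
        · subst hji; simp
        · simp [Function.update_of_ne hji, Pi.single_eq_of_ne hji]
      rwa [h5] at h4
  exact h2 Finset.univ z (fun i hi => absurd (Finset.mem_univ i) hi) x hx

lemma conn (S : Site d → Prop) (h1 : ∃ x, S x) (h2 : ∃ x, ¬ S x) :
    ∃ x x' : Site d, ¬ S x ∧ S x' ∧ ∃ i, x' = x + Pi.single i 1 ∨ x' = x - Pi.single i 1 := by
  by_contra hcon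
  push Not at hcon
  obtain ⟨a, ha⟩ := h1
  obtain ⟨b, hb⟩ := h2
  apply hb
  have h3 := conn_aux S (fun x i hx => by
    constructor
    · by_contra h4
      exact (hcon _ x h4 hx i).2 (by abel)
    · by_contra h4
      exact (hcon _ x h4 hx i).1 (by abel)) a ha (b - a)
  rwa [add_sub_cancel] at h3

variable {c R E : ℝ} {η : ℕ → ℝ}

lemma gl_symm {V : Site d → ℝ} {x y : Site d} (hη : ∀ n, 0 < η n)
    (h : Tendsto (fun n => Gf c R (ze E (η n)) V y x) atTop (𝓝 (gl c R E η V y x : ℂ)))
    (h' : Tendsto (fun n => Gf c R (ze E (η n)) V x y) atTop (𝓝 (gl c R E η V x y : ℂ))) :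
    gl c R E η V y x = gl c R E η V x y := by
  have h1 : (fun n => Gf c R (ze E (η n)) V y x) = fun n => Gf c R (ze E (η n)) V x y := by
    funext n
    exact Gf_symm c R (by rw [ze_im]; exact (hη n).ne') V x y
  rw [h1] at h
  exact Complex.ofReal_injective (tendsto_nhds_unique h h')

lemma ze_tendsto (ht : Tendsto η atTop (𝓝 0)) :
    Tendsto (fun n => ze E (η n)) atTop (𝓝 (E : ℂ)) := by
  have h1 : Tendsto (fun n => (E : ℂ) + ((η n : ℝ) : ℂ) * Complex.I) atTop
      (𝓝 ((E : ℂ) + ((0 : ℝ) : ℂ) * Complex.I)) :=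
    tendsto_const_nhds.add (((Complex.continuous_ofReal.tendsto _).comp ht).mul_const _)
  simpa [ze] using h1

lemma hopf_tendsto {f : ℕ → Site d → ℂ} {f' : Site d → ℂ}
    (h : ∀ x, Tendsto (fun n => f n x) atTop (𝓝 (f' x))) (x : Site d) :
    Tendsto (fun n => hopf c (f n) x) atTop (𝓝 (hopf c f' x)) := by
  unfold hopf
  refine Tendsto.const_mul _ ?_
  exact tendsto_finsetSum _ fun i _ => (h _).add (h _)

lemma gl_lim {V : Site d → ℝ} (hη : ∀ n, 0 < η n) (ht : Tendsto η atTop (𝓝 0)) {y : Site d}
    (h : ∀ x, Tendsto (fun n => Gf c R (ze E (η n)) V y x) atTop (𝓝 (gl c R E η V y x : ℂ)))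
    (x : Site d) :
    hopf c (fun w => (gl c R E η V y w : ℂ)) x + cl R V x * (gl c R E η V y x : ℂ) -
      E * (gl c R E η V y x : ℂ) = if y = x then 1 else 0 := by
  have h1 := ((hopf_tendsto (c := c) h x).add ((h x).const_mul ((cl R V x : ℝ) : ℂ))).sub
    ((ze_tendsto ht (E := E)).mul (h x))
  refine tendsto_nhds_unique h1 ?_
  refine tendsto_const_nhds.congr fun n => ?_
  rw [Gf_eq c R (by rw [ze_im]; exact (hη n).ne') V x y]

open Classical in
theorem irred (hc : c ≠ 0) {V : Site d → ℝ} (hη : ∀ n, 0 < η n) (ht : Tendsto η atTop (𝓝 0))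
    (S : Site d → Prop)
    (hconv : ∀ y x, S y →
      Tendsto (fun n => Gf c R (ze E (η n)) V y x) atTop (𝓝 (gl c R E η V y x : ℂ)))
    (hoff : ∀ y x, S y → ¬ S x → gl c R E η V y x = 0) : (∀ x, ¬ S x) ∨ ∀ x, S x := by
  by_contra hcon
  rw [not_or] at hcon
  obtain ⟨h1, h2⟩ := hcon
  push Not at h1 h2
  obtain ⟨x, x', hx, hx', i, hi⟩ := conn S h1 h2
  have hc' : (c : ℂ) ≠ 0 := by exact_mod_cast hc
  set k : Site d → Site d → ℂ := fun w t => if S w then (gl c R E η V w t : ℂ) else 0 with hk
  have hk0 : ∀ t, ∑ j : Fin d, (k (x + Pi.single j 1) t + k (x - Pi.single j 1) t) = 0 := by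
    intro t
    by_cases hS : S t
    · have h3 := gl_lim hη ht (fun w => hconv t w hS) x
      rw [hoff t x hS hx, if_neg (by rintro rfl; exact hx hS)] at h3
      simp only [Complex.ofReal_zero, mul_zero, add_zero, sub_zero] at h3
      unfold hopf at h3
      have h4 := (mul_eq_zero.1 h3).resolve_left hc'
      have h5 : ∀ w, (gl c R E η V t w : ℂ) = k w t := by
        intro w
        rw [hk]
        simp only
        split_ifs with h6
        · rw [gl_symm hη (hconv t w hS) (hconv w t h6)]
        · rw [hoff t w hS h6, Complex.ofReal_zero]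
      simp only [h5] at h4
      exact h4
    · refine Finset.sum_eq_zero fun j _ => ?_
      have h5 : ∀ w, k w t = 0 := by
        intro w
        rw [hk]
        simp only
        split_ifs with h6
        · rw [hoff w t h6 hS, Complex.ofReal_zero]
        · rfl
      rw [h5, h5, add_zero]
  have hk1 : ∀ w, hopf c (k w) x' + cl R V x' * k w x' - E * k w x' =
      (((if S w ∧ w = x' then 1 else 0 : ℕ) : ℕ) : ℂ) := by
    intro w
    by_cases hS : S w
    · have h3 := gl_lim hη ht (fun t => hconv w t hS) x'
      have h4 : k w = fun t => (gl c R E η V w t : ℂ) := by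
        funext t
        rw [hk]
        simp only
        rw [if_pos hS]
      rw [h4]
      simp only [hS, true_and]
      rw [h3]
      split_ifs <;> simp
    · have h4 : k w = fun _ => 0 := by
        funext t
        rw [hk]
        simp only
        rw [if_neg hS]
      rw [h4, if_neg (fun h => hS h.1)]
      unfold hopf
      simp
  have hsum : ∑ j : Fin d, ((hopf c (k (x + Pi.single j 1)) x' +
      cl R V x' * k (x + Pi.single j 1) x' - E * k (x + Pi.single j 1) x') +
      (hopf c (k (x - Pi.single j 1)) x' +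
      cl R V x' * k (x - Pi.single j 1) x' - E * k (x - Pi.single j 1) x')) = 0 := by
    have e1 : ∀ j : Fin d, ((hopf c (k (x + Pi.single j 1)) x' +
      cl R V x' * k (x + Pi.single j 1) x' - E * k (x + Pi.single j 1) x') +
      (hopf c (k (x - Pi.single j 1)) x' +
      cl R V x' * k (x - Pi.single j 1) x' - E * k (x - Pi.single j 1) x')) =
      (c : ℂ) * ∑ l : Fin d, ((k (x + Pi.single j 1) (x' + Pi.single l 1) +
        k (x - Pi.single j 1) (x' + Pi.single l 1)) + (k (x + Pi.single j 1) (x' - Pi.single l 1) +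
        k (x - Pi.single j 1) (x' - Pi.single l 1))) + ((cl R V x' : ℂ) - E) *
        (k (x + Pi.single j 1) x' + k (x - Pi.single j 1) x') := by
      intro j
      unfold hopf
      have e2 : ∑ l : Fin d, ((k (x + Pi.single j 1) (x' + Pi.single l 1) +
        k (x - Pi.single j 1) (x' + Pi.single l 1)) + (k (x + Pi.single j 1) (x' - Pi.single l 1) +
        k (x - Pi.single j 1) (x' - Pi.single l 1))) =
        ∑ l : Fin d, (k (x + Pi.single j 1) (x' + Pi.single l 1) +
          k (x + Pi.single j 1) (x' - Pi.single l 1)) +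
        ∑ l : Fin d, (k (x - Pi.single j 1) (x' + Pi.single l 1) +
          k (x - Pi.single j 1) (x' - Pi.single l 1)) := by
        rw [← Finset.sum_add_distrib]
        refine Finset.sum_congr rfl fun l _ => ?_
        ring
      rw [e2]
      ring
    simp only [e1]
    rw [Finset.sum_add_distrib, ← Finset.mul_sum, ← Finset.mul_sum, hk0 x', mul_zero, add_zero,
      Finset.sum_comm]
    refine mul_eq_zero_of_right _ (Finset.sum_eq_zero fun l _ => ?_)
    rw [Finset.sum_add_distrib, hk0, hk0, add_zero]
  simp only [hk1] at hsum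
  have hnat : ∑ j : Fin d, ((if S (x + Pi.single j 1) ∧ x + Pi.single j 1 = x' then 1 else 0 : ℕ) +
      (if S (x - Pi.single j 1) ∧ x - Pi.single j 1 = x' then 1 else 0 : ℕ)) = 0 := by
    exact_mod_cast hsum
  have h6 := Finset.sum_eq_zero_iff.1 hnat i (Finset.mem_univ i)
  rcases hi with hi | hi
  · rw [if_pos ⟨hi ▸ hx', hi.symm⟩] at h6
    omega
  · rw [if_pos (⟨hi ▸ hx', hi.symm⟩ : S (x - Pi.single i 1) ∧ x - Pi.single i 1 = x')] at h6
    omega

end Pool.Agent.Helper26.Sw
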