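import Pool.Agent.Helper26.Sw.Me

/-! # The stationary Hamiltonian on `L²` of the environment -/

set_option autoImplicit false

open MeasureTheory Filter Topology
open scoped BigOperators ENNReal NNReal InnerProductSpace ComplexConjugate

namespace Pool.Agent.Helper26.Sw

open Pool.Agent.H5R2.NB
open Pool.Agent.TH369.AN (Rz rz_eq rz_uniq rz_norm)

variable {d : ℕ}

/-- a measure preserving action of `ℤ^d` -/
structure Act {Θ : Type} [MeasurableSpace Θ] (m : Measure Θ) (τ : Site d → Θ → Θ) : Prop where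
  mp : ∀ x, MeasurePreserving (τ x) m m
  zero : ∀ θ, τ 0 θ = θ
  add : ∀ x y θ, τ (x + y) θ = τ x (τ y θ)

/-- translations of the environment -/
def sX {Θ : Type} (τ : Site d → Θ → Θ) (x : Site d) (p : (Site d → ℝ) × Θ) :
    (Site d → ℝ) × Θ := (fun y => p.1 (y + x), τ x p.2)

/-- the stationary field with profile `f` -/
def fd {Θ : Type} (τ : Site d → Θ → Θ) (f : (Site d → ℝ) × Θ → ℂ) (p : (Site d → ℝ) × Θ)
    (x : Site d) : ℂ := f (sX τ x p)

/-- the stationary Hamiltonian -/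
noncomputable def Hf {Θ : Type} (τ : Site d → Θ → Θ) (c R : ℝ) (f : (Site d → ℝ) × Θ → ℂ)
    (p : (Site d → ℝ) × Θ) : ℂ := hopf c (fd τ f p) 0 + cl R p.1 0 * f p

section

variable {Θ : Type} [MeasurableSpace Θ] {m : Measure Θ} [IsProbabilityMeasure m]
  {τ : Site d → Θ → Θ} {ν : Measure ℝ} [IsProbabilityMeasure ν]

omit [MeasurableSpace Θ] in
lemma sX_zero (h0 : ∀ θ, τ 0 θ = θ) (p : (Site d → ℝ) × Θ) : sX τ 0 p = p := by
  unfold sX
  simp [h0]

lemma sX_add (hτ : Act m τ) (x y : Site d) (p : (Site d → ℝ) × Θ) :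
    sX τ y (sX τ x p) = sX τ (y + x) p := by
  unfold sX
  refine Prod.ext ?_ ?_
  · funext w
    show p.1 (w + y + x) = p.1 (w + (y + x))
    rw [add_assoc]
  · show τ y (τ x p.2) = τ (y + x) p.2
    rw [hτ.add]

lemma sX_mp (hτ : Act m τ) (x : Site d) :
    MeasurePreserving (sX τ x) ((PP d ν).prod m) ((PP d ν).prod m) := by
  haveI : IsProbabilityMeasure (PP d ν) := by unfold PP; infer_instance
  exact ((t_RES d ν).2 x).prod (hτ.mp x)

variable (m τ ν) in
/-- the Hilbert space -/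
abbrev KK : Type := Lp ℂ 2 ((PP d ν).prod m)

/-- translations -/
noncomputable def Su (hτ : Act m τ) (x : Site d) :
    Lp ℂ 2 ((PP d ν).prod m) →L[ℂ] Lp ℂ 2 ((PP d ν).prod m) :=
  (Lp.compMeasurePreservingₗᵢ ℂ (sX τ x) (sX_mp (ν := ν) hτ x)).toContinuousLinearMap

lemma Su_coe (hτ : Act m τ) (x : Site d) (f : Lp ℂ 2 ((PP d ν).prod m)) :
    Su hτ x f =ᵐ[(PP d ν).prod m] fun p => f (sX τ x p) :=
  Lp.coeFn_compMeasurePreserving f (sX_mp (ν := ν) hτ x)

lemma mul_memLp (R : ℝ) (f : Lp ℂ 2 ((PP d ν).prod m)) :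
    MemLp (fun p : (Site d → ℝ) × Θ => ((cl R p.1 0 : ℝ) : ℂ) * f p) 2 ((PP d ν).prod m) := by
  refine MemLp.of_le_mul (c := |R|) (Lp.memLp f) ?_ (Eventually.of_forall fun p => ?_)
  · refine AEStronglyMeasurable.mul ?_ (Lp.aestronglyMeasurable f)
    refine Measurable.aestronglyMeasurable ?_
    exact Complex.measurable_ofReal.comp ((cl_cont R 0).measurable.comp measurable_fst)
  · rw [norm_mul, Complex.norm_real, Real.norm_eq_abs]
    exact mul_le_mul_of_nonneg_right (cl_le R _ _) (norm_nonneg _)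

variable (m ν) in
/-- multiplication by the potential at the origin -/
noncomputable def Mu (d : ℕ) (R : ℝ) :
    Lp ℂ 2 ((PP d ν).prod m) →L[ℂ] Lp ℂ 2 ((PP d ν).prod m) :=
  LinearMap.mkContinuous
    { toFun := fun f => (mul_memLp R f).toLp _
      map_add' := fun f g => by
        refine Lp.ext ?_
        filter_upwards [(mul_memLp R (f + g)).coeFn_toLp, Lp.coeFn_add f g,
          Lp.coeFn_add ((mul_memLp R f).toLp _) ((mul_memLp R g).toLp _),
          (mul_memLp R f).coeFn_toLp, (mul_memLp R g).coeFn_toLp] with p h1 h2 h3 h4 h5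
        rw [h1, h2, h3, Pi.add_apply, Pi.add_apply, h4, h5]
        ring
      map_smul' := fun a f => by
        refine Lp.ext ?_
        filter_upwards [(mul_memLp R (a • f)).coeFn_toLp, Lp.coeFn_smul a f,
          Lp.coeFn_smul a ((mul_memLp R f).toLp _), (mul_memLp R f).coeFn_toLp] with p h1 h2 h3 h4
        simp only [RingHom.id_apply]
        rw [h1, h2, h3, Pi.smul_apply, Pi.smul_apply, h4, smul_eq_mul, smul_eq_mul]
        ring } |R|
    fun f => by
      show ‖(mul_memLp R f).toLp _‖ ≤ |R| * ‖f‖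
      refine Lp.norm_le_mul_norm_of_ae_le_mul ?_
      filter_upwards [(mul_memLp R f).coeFn_toLp] with p h1
      rw [h1, norm_mul, Complex.norm_real, Real.norm_eq_abs]
      exact mul_le_mul_of_nonneg_right (cl_le R _ _) (norm_nonneg _)

lemma Mu_coe (R : ℝ) (f : Lp ℂ 2 ((PP d ν).prod m)) :
    Mu m ν d R f =ᵐ[(PP d ν).prod m] fun p => ((cl R p.1 0 : ℝ) : ℂ) * f p :=
  (mul_memLp R f).coeFn_toLp

/-- the Hamiltonian on the Hilbert space -/
noncomputable def TT (hτ : Act m τ) (c R : ℝ) :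
    Lp ℂ 2 ((PP d ν).prod m) →L[ℂ] Lp ℂ 2 ((PP d ν).prod m) :=
  (c : ℂ) • ∑ i : Fin d, (Su hτ (Pi.single i 1) + Su hτ (-Pi.single i 1)) + Mu m ν d R

lemma TT_coe (hτ : Act m τ) (c R : ℝ) (f : Lp ℂ 2 ((PP d ν).prod m)) :
    TT hτ c R f =ᵐ[(PP d ν).prod m] Hf τ c R f := by
  have h1 : ∀ᵐ p ∂((PP d ν).prod m), ∀ i : Fin d,
      (Su hτ (Pi.single i 1) f : (Site d → ℝ) × Θ → ℂ) p = f (sX τ (Pi.single i 1) p) ∧
      (Su hτ (-Pi.single i 1) f : (Site d → ℝ) × Θ → ℂ) p = f (sX τ (-Pi.single i 1) p) := by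
    rw [ae_all_iff]
    intro i
    filter_upwards [Su_coe hτ (Pi.single i 1) f, Su_coe hτ (-Pi.single i 1) f] with p h1 h2
    exact ⟨h1, h2⟩
  have h2 : TT hτ c R f = (c : ℂ) • ∑ i : Fin d, (Su hτ (Pi.single i 1) f +
      Su hτ (-Pi.single i 1) f) + Mu m ν d R f := by
    unfold TT
    rw [_root_.add_apply, _root_.smul_apply, _root_.sum_apply]
    simp only [_root_.add_apply]
  have h3 : ∀ᵐ p ∂((PP d ν).prod m), (∑ i : Fin d, (Su hτ (Pi.single i 1) f +
      Su hτ (-Pi.single i 1) f) : Lp ℂ 2 ((PP d ν).prod m)) p =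
      ∑ i : Fin d, ((Su hτ (Pi.single i 1) f : (Site d → ℝ) × Θ → ℂ) p +
        (Su hτ (-Pi.single i 1) f : (Site d → ℝ) × Θ → ℂ) p) := by
    have h4 : ∀ᵐ p ∂((PP d ν).prod m), ∀ i : Fin d, (Su hτ (Pi.single i 1) f +
        Su hτ (-Pi.single i 1) f : Lp ℂ 2 ((PP d ν).prod m)) p =
        (Su hτ (Pi.single i 1) f : (Site d → ℝ) × Θ → ℂ) p +
        (Su hτ (-Pi.single i 1) f : (Site d → ℝ) × Θ → ℂ) p := by
      rw [ae_all_iff]
      intro i
      exact Lp.coeFn_add _ _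
    filter_upwards [h4, Lp.coeFn_finsetSum (Finset.univ : Finset (Fin d))
      (fun i => Su hτ (Pi.single i 1) f + Su hτ (-Pi.single i 1) f)] with p h5 h6
    rw [h6, Finset.sum_apply]
    exact Finset.sum_congr rfl fun i _ => h5 i
  rw [h2]
  filter_upwards [h1, h3, Lp.coeFn_add ((c : ℂ) • ∑ i : Fin d, (Su hτ (Pi.single i 1) f +
      Su hτ (-Pi.single i 1) f)) (Mu m ν d R f), Lp.coeFn_smul (c : ℂ)
      (∑ i : Fin d, (Su hτ (Pi.single i 1) f + Su hτ (-Pi.single i 1) f)), Mu_coe R f]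
    with p a1 a2 a3 a4 a5
  rw [a3, Pi.add_apply, a4, Pi.smul_apply, a2, a5, smul_eq_mul]
  unfold Hf hopf fd
  congr 1
  congr 1
  refine Finset.sum_congr rfl fun i _ => ?_
  rw [(a1 i).1, (a1 i).2, zero_add, zero_sub]

end

end Pool.Agent.Helper26.Sw
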