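import Pool.Agent.Helper26.Sw.Kk

/-! # Self-adjointness, and the eigenfunctions as limits of resolvents -/

set_option autoImplicit false

open MeasureTheory Filter Topology
open scoped BigOperators ENNReal NNReal InnerProductSpace ComplexConjugate

namespace Pool.Agent.Helper26.Sw

open Pool.Agent.H5R2.NB
open Pool.Agent.TH369.AN (Rz rz_eq rz_uniq rz_norm)

variable {d : ℕ} {Θ : Type} [MeasurableSpace Θ] {m : Measure Θ} [IsProbabilityMeasure m]
  {τ : Site d → Θ → Θ} {ν : Measure ℝ} [IsProbabilityMeasure ν]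

lemma Su_adj (hτ : Act m τ) (x : Site d) (f g : Lp ℂ 2 ((PP d ν).prod m)) :
    ⟪Su hτ x f, g⟫_ℂ = ⟪f, Su hτ (-x) g⟫_ℂ := by
  rw [L2.inner_def, L2.inner_def]
  have hmp := sX_mp (ν := ν) hτ x
  have h1 : ∫ p, ⟪(Su hτ x f : (Site d → ℝ) × Θ → ℂ) p, g p⟫_ℂ ∂((PP d ν).prod m) =
      ∫ p, ⟪f (sX τ x p), g p⟫_ℂ ∂((PP d ν).prod m) := by
    refine integral_congr_ae ?_
    filter_upwards [Su_coe hτ x f] with p hp
    rw [hp]
  have h2 : ∫ p, ⟪f p, (Su hτ (-x) g : (Site d → ℝ) × Θ → ℂ) p⟫_ℂ ∂((PP d ν).prod m) =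
      ∫ p, ⟪f p, g (sX τ (-x) p)⟫_ℂ ∂((PP d ν).prod m) := by
    refine integral_congr_ae ?_
    filter_upwards [Su_coe hτ (-x) g] with p hp
    rw [hp]
  rw [h1, h2]
  have hmeas : AEStronglyMeasurable (fun p => ⟪f p, g (sX τ (-x) p)⟫_ℂ)
      (((PP d ν).prod m).map (sX τ x)) := by
    rw [hmp.map_eq]
    refine (Lp.aestronglyMeasurable f).inner ?_
    exact (Lp.aestronglyMeasurable g).comp_measurePreserving (sX_mp (ν := ν) hτ (-x))
  have h3 := integral_map hmp.measurable.aemeasurable hmeas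
  rw [hmp.map_eq] at h3
  rw [h3]
  refine integral_congr_ae (Eventually.of_forall fun p => ?_)
  show ⟪f (sX τ x p), g p⟫_ℂ = ⟪f (sX τ x p), g (sX τ (-x) (sX τ x p))⟫_ℂ
  rw [sX_add hτ, neg_add_cancel, sX_zero hτ.zero]

lemma Mu_adj (R : ℝ) (f g : Lp ℂ 2 ((PP d ν).prod m)) :
    ⟪Mu m ν d R f, g⟫_ℂ = ⟪f, Mu m ν d R g⟫_ℂ := by
  rw [L2.inner_def, L2.inner_def]
  refine integral_congr_ae ?_
  filter_upwards [Mu_coe R f, Mu_coe R g] with p h1 h2
  rw [h1, h2]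
  simp only [RCLike.inner_apply, map_mul, Complex.conj_ofReal]
  ring

lemma TT_sa (hτ : Act m τ) (c R : ℝ) : IsSelfAdjoint (TT (ν := ν) hτ c R) := by
  rw [ContinuousLinearMap.isSelfAdjoint_iff_isSymmetric]
  intro f g
  change ⟪TT hτ c R f, g⟫_ℂ = ⟪f, TT hτ c R g⟫_ℂ
  unfold TT
  simp only [_root_.add_apply, _root_.smul_apply, _root_.sum_apply]
  rw [inner_add_left, inner_add_right, Mu_adj, inner_smul_left, inner_smul_right,
    Complex.conj_ofReal, sum_inner, inner_sum]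
  congr 2
  refine Finset.sum_congr rfl fun i _ => ?_
  rw [inner_add_left, inner_add_right, Su_adj, Su_adj, neg_neg, add_comm]

lemma Hf_star (c R : ℝ) (f : (Site d → ℝ) × Θ → ℂ) (p : (Site d → ℝ) × Θ) :
    Hf τ c R (fun p => conj (f p)) p = conj (Hf τ c R f p) := by
  unfold Hf
  rw [map_add, map_mul, Complex.conj_ofReal, star_hopf]
  rfl

lemma Hf_congr (hτ : Act m τ) (c R : ℝ) {f g : (Site d → ℝ) × Θ → ℂ}
    (h : f =ᵐ[(PP d ν).prod m] g) : Hf τ c R f =ᵐ[(PP d ν).prod m] Hf τ c R g := by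
  have h1 : ∀ᵐ p ∂((PP d ν).prod m), ∀ i : Fin d, f (sX τ (0 + Pi.single i 1) p) =
      g (sX τ (0 + Pi.single i 1) p) ∧ f (sX τ (0 - Pi.single i 1) p) =
      g (sX τ (0 - Pi.single i 1) p) := by
    rw [ae_all_iff]
    intro i
    filter_upwards [(sX_mp (ν := ν) hτ (0 + Pi.single i 1)).quasiMeasurePreserving.ae h,
      (sX_mp (ν := ν) hτ (0 - Pi.single i 1)).quasiMeasurePreserving.ae h] with p h1 h2
    exact ⟨h1, h2⟩
  filter_upwards [h, h1] with p h2 h3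
  unfold Hf hopf fd
  rw [h2]
  congr 1
  congr 1
  refine Finset.sum_congr rfl fun i _ => ?_
  rw [(h3 i).1, (h3 i).2]

/-- the approximation of the spectral projection applied to a real bounded function -/
theorem erg (hτ : Act m τ) (c R E : ℝ) (g : (Site d → ℝ) × Θ → ℝ)
    (hg : MemLp (fun p => (g p : ℂ)) 2 ((PP d ν).prod m)) :
    ∃ (η : ℕ → ℝ) (F : ℕ → (Site d → ℝ) × Θ → ℂ) (φ : (Site d → ℝ) × Θ → ℂ),
      (∀ n, 0 < η n) ∧ Tendsto η atTop (𝓝 0) ∧ (∀ n, StronglyMeasurable (F n)) ∧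
      (∀ n, MemLp (F n) 2 ((PP d ν).prod m)) ∧ StronglyMeasurable φ ∧
      MemLp φ 2 ((PP d ν).prod m) ∧
      (∀ n, ∀ᵐ p ∂((PP d ν).prod m), Hf τ c R (F n) p - ze E (η n) * F n p =
        (-(η n : ℂ) * Complex.I) * (g p : ℂ)) ∧
      (∀ᵐ p ∂((PP d ν).prod m), Tendsto (fun n => F n p) atTop (𝓝 (φ p))) ∧
      (∀ᵐ p ∂((PP d ν).prod m), conj (φ p) = φ p) ∧
      ∀ ψ : (Site d → ℝ) × Θ → ℂ, MemLp ψ 2 ((PP d ν).prod m) →
        (Hf τ c R ψ =ᵐ[(PP d ν).prod m] fun p => (E : ℂ) * ψ p) →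
        ∫ p, conj (ψ p) * φ p ∂((PP d ν).prod m) =
          ∫ p, conj (ψ p) * (g p : ℂ) ∂((PP d ν).prod m) := by
  set Q := (PP d ν).prod m with hQ
  set T := TT (ν := ν) hτ c R with hT
  have hTsa : IsSelfAdjoint T := TT_sa hτ c R
  set g' : Lp ℂ 2 Q := hg.toLp _ with hg'
  obtain ⟨φ, hφ1, hφ2, hφ3⟩ := ergodic hTsa E g'
  -- the two sequences
  have hη0 : ∀ n : ℕ, (0 : ℝ) < 1 / ((n : ℝ) + 1) := fun n => by positivity
  have ht0 : Tendsto (fun n : ℕ => 1 / ((n : ℝ) + 1)) atTop (𝓝 0) :=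
    tendsto_one_div_add_atTop_nhds_zero_nat
  have hp : Tendsto (fun n : ℕ => er T E (1 / ((n : ℝ) + 1)) g') atTop (𝓝 φ) := by
    refine hφ3.comp (tendsto_nhdsWithin_iff.2 ⟨ht0, Eventually.of_forall fun n => ?_⟩)
    exact (hη0 n).ne'
  have hm : Tendsto (fun n : ℕ => er T E (-(1 / ((n : ℝ) + 1))) g') atTop (𝓝 φ) := by
    refine hφ3.comp (tendsto_nhdsWithin_iff.2 ⟨?_, Eventually.of_forall fun n => ?_⟩)
    · simpa using ht0.neg
    · exact (neg_neg_of_pos (hη0 n)).ne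
  have hpm := tendstoInMeasure_of_tendsto_Lp hp
  obtain ⟨k1, hk1, hk1'⟩ := hpm.exists_seq_tendsto_ae
  have hmm := tendstoInMeasure_of_tendsto_Lp (hm.comp hk1.tendsto_atTop)
  obtain ⟨k2, hk2, hk2'⟩ := hmm.exists_seq_tendsto_ae
  set k : ℕ → ℕ := fun n => k1 (k2 n) with hk
  have hkt : Tendsto k atTop atTop := hk1.tendsto_atTop.comp hk2.tendsto_atTop
  -- the equation
  have heq : ∀ η : ℝ, η ≠ 0 → ∀ᵐ p ∂Q,
      Hf τ c R ((er T E η g' : Lp ℂ 2 Q) : (Site d → ℝ) × Θ → ℂ) p -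
        ze E η * (er T E η g' : Lp ℂ 2 Q) p =
      (-(η : ℂ) * Complex.I) * (g p : ℂ) := by
    intro η hη
    have h1 : T (er T E η g') - ze E η • er T E η g' = (-(η : ℂ) * Complex.I) • g' := by
      unfold er
      rw [map_smul, smul_comm (ze E η), ← smul_sub,
        rz_eq T hTsa (ze E η) (by rw [ze_im]; exact hη) g']
    filter_upwards [TT_coe hτ c R (er T E η g'), Lp.coeFn_sub (T (er T E η g'))
      (ze E η • er T E η g'), Lp.coeFn_smul (ze E η) (er T E η g'),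
      Lp.coeFn_smul (-(η : ℂ) * Complex.I) g', hg.coeFn_toLp] with p a1 a2 a3 a4 a5
    have h3 : (T (er T E η g') - ze E η • er T E η g' : Lp ℂ 2 Q) p =
      ((-(η : ℂ) * Complex.I) • g' : Lp ℂ 2 Q) p := by rw [h1]
    rw [a2, a4, Pi.sub_apply, a3, Pi.smul_apply, Pi.smul_apply, smul_eq_mul, smul_eq_mul,
      a5, hT, a1] at h3
    exact h3
  -- conjugation
  have hconj : ∀ η : ℝ, η ≠ 0 → ∀ᵐ p ∂Q, (er T E (-η) g' : Lp ℂ 2 Q) p =
      conj ((er T E η g' : Lp ℂ 2 Q) p) := by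
    intro η hη
    have hmem : MemLp (fun p => conj ((er T E η g' : Lp ℂ 2 Q) p)) 2 Q := by
      have := (Lp.memLp (er T E η g')).star
      exact this
    have h1 : hmem.toLp _ = er T E (-η) g' := by
      have hη' : (-(((-η : ℝ)) : ℂ) * Complex.I) ≠ 0 := by
        refine mul_ne_zero (neg_ne_zero.2 ?_) Complex.I_ne_zero
        exact_mod_cast neg_ne_zero.2 hη
      have h2 : (-(((-η : ℝ)) : ℂ) * Complex.I)⁻¹ • hmem.toLp _ = Rz T (ze E (-η)) g' := by
        refine rz_uniq T hTsa (ze E (-η)) (by rw [ze_im]; exact neg_ne_zero.2 hη) _ _ ?_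
        rw [map_smul, smul_comm (ze E (-η)), ← smul_sub]
        have h3 : T (hmem.toLp _) - ze E (-η) • hmem.toLp _ =
            (-(((-η : ℝ)) : ℂ) * Complex.I) • g' := by
          refine Lp.ext ?_
          have h4 := Hf_congr (ν := ν) hτ c R hmem.coeFn_toLp
          filter_upwards [TT_coe hτ c R (hmem.toLp _), Lp.coeFn_sub (T (hmem.toLp _))
            (ze E (-η) • hmem.toLp _), Lp.coeFn_smul (ze E (-η)) (hmem.toLp _),
            Lp.coeFn_smul (-(((-η : ℝ)) : ℂ) * Complex.I) g', hg.coeFn_toLp, h4,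
            hmem.coeFn_toLp, heq η hη] with p a1 a2 a3 a4 a5 a6 a7 a8
          change (T (hmem.toLp _) : Lp ℂ 2 Q) p = _ at a1
          rw [a2, a4, Pi.sub_apply, a3, Pi.smul_apply, Pi.smul_apply, smul_eq_mul, smul_eq_mul,
            a5, a1, a6, a7, Hf_star]
          have h5 := congrArg conj a8
          rw [map_sub, map_mul, map_mul, map_mul, Complex.conj_ofReal, map_neg,
            Complex.conj_ofReal, Complex.conj_I] at h5
          have h6 : conj (ze E η) = ze E (-η) := by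
            unfold ze
            rw [map_add, map_mul, Complex.conj_ofReal, Complex.conj_ofReal, Complex.conj_I]
            push_cast
            ring
          rw [h6] at h5
          rw [h5]
          push_cast
          ring
        rw [h3, smul_smul, inv_mul_cancel₀ hη', one_smul]
      have h5 : er T E (-η) g' = (-(((-η : ℝ)) : ℂ) * Complex.I) • Rz T (ze E (-η)) g' := rfl
      rw [h5, ← h2, smul_smul, mul_inv_cancel₀ hη', one_smul]
    rw [← h1]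
    exact hmem.coeFn_toLp
  refine ⟨fun n => 1 / ((k n : ℝ) + 1),
    fun n => ((er T E (1 / ((k n : ℝ) + 1)) g' : Lp ℂ 2 Q) : (Site d → ℝ) × Θ → ℂ), φ,
    fun n => hη0 _, ht0.comp hkt, fun n => Lp.stronglyMeasurable _, fun n => Lp.memLp _,
    Lp.stronglyMeasurable _, Lp.memLp _, fun n => heq _ (hη0 _).ne', ?_, ?_, ?_⟩
  · filter_upwards [hk1'] with p h1
    exact h1.comp hk2.tendsto_atTop
  · have h1 : ∀ᵐ p ∂Q, ∀ n : ℕ, (er T E (-(1 / ((k n : ℝ) + 1))) g' : Lp ℂ 2 Q) p =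
        conj ((er T E (1 / ((k n : ℝ) + 1)) g' : Lp ℂ 2 Q) p) := by
      rw [ae_all_iff]
      intro n
      exact hconj _ (hη0 _).ne'
    filter_upwards [h1, hk1', hk2'] with p a1 a2 a3
    have h2 := (a2.comp hk2.tendsto_atTop)
    have h3 : Tendsto (fun n => conj ((er T E (1 / ((k n : ℝ) + 1)) g' : Lp ℂ 2 Q) p)) atTop
        (𝓝 (conj (φ p))) := (Complex.continuous_conj.tendsto _).comp h2
    have h4 : Tendsto (fun n => conj ((er T E (1 / ((k n : ℝ) + 1)) g' : Lp ℂ 2 Q) p)) atTop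
        (𝓝 (φ p)) := by
      refine a3.congr fun n => ?_
      exact a1 n
    exact tendsto_nhds_unique h3 h4
  · intro ψ hψ hψe
    have h1 : T (hψ.toLp ψ) = (E : ℂ) • hψ.toLp ψ := by
      refine Lp.ext ?_
      filter_upwards [TT_coe hτ c R (hψ.toLp ψ), Hf_congr (ν := ν) hτ c R hψ.coeFn_toLp, hψe,
        hψ.coeFn_toLp, Lp.coeFn_smul (E : ℂ) (hψ.toLp ψ)] with p a1 a2 a3 a4 a5
      rw [a5, Pi.smul_apply, smul_eq_mul, a4, hT, a1, a2, a3]
    have h2 := hφ2 _ h1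
    rw [L2.inner_def, L2.inner_def] at h2
    have h3 : ∫ p, ⟪(hψ.toLp ψ : Lp ℂ 2 Q) p, φ p⟫_ℂ ∂Q = ∫ p, conj (ψ p) * φ p ∂Q := by
      refine integral_congr_ae ?_
      filter_upwards [hψ.coeFn_toLp] with p a1
      rw [a1, RCLike.inner_apply, mul_comm]
    have h4 : ∫ p, ⟪(hψ.toLp ψ : Lp ℂ 2 Q) p, g' p⟫_ℂ ∂Q = ∫ p, conj (ψ p) * (g p : ℂ) ∂Q := by
      refine integral_congr_ae ?_
      filter_upwards [hψ.coeFn_toLp, hg.coeFn_toLp] with p a1 a2
      rw [a1, a2, RCLike.inner_apply, mul_comm]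
    rw [← h3, ← h4]
    exact h2

end Pool.Agent.Helper26.Sw
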