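import Pool.Agent.Helper26.Sw.Gr

/-! # The mean ergodic theorem for the resolvent -/

set_option autoImplicit false

open MeasureTheory Filter Topology
open scoped BigOperators ENNReal NNReal InnerProductSpace ComplexConjugate

namespace Pool.Agent.Helper26.Sw

open Pool.Agent.TH369.AN (Rz rz_eq rz_uniq rz_norm)

variable {X : Type} [NormedAddCommGroup X] [InnerProductSpace ℂ X] [CompleteSpace X]

/-- `E + iη` -/
noncomputable def ze (E η : ℝ) : ℂ := (E : ℂ) + (η : ℂ) * Complex.I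

lemma ze_im (E η : ℝ) : (ze E η).im = η := by unfold ze; simp

lemma ze_re (E η : ℝ) : (ze E η).re = E := by unfold ze; simp

/-- `(E - z) (T - z)⁻¹ g` -/
noncomputable def er (T : X →L[ℂ] X) (E η : ℝ) (g : X) : X :=
  (-(η : ℂ) * Complex.I) • Rz T (ze E η) g

lemma er_norm {T : X →L[ℂ] X} (hT : IsSelfAdjoint T) (E : ℝ) {η : ℝ} (hη : η ≠ 0) (g : X) :
    ‖er T E η g‖ ≤ ‖g‖ := by
  unfold er
  rw [norm_smul, norm_mul, norm_neg, Complex.norm_I, mul_one, Complex.norm_real,
    Real.norm_eq_abs]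
  have h := rz_norm T hT (ze E η) (by rw [ze_im]; exact hη) g
  rw [ze_im] at h
  have h0 : 0 < |η| := abs_pos.2 hη
  rw [le_div_iff₀ h0] at h
  linarith

lemma er_sub (T : X →L[ℂ] X) (E η : ℝ) (g g' : X) :
    er T E η (g - g') = er T E η g - er T E η g' := by
  unfold er
  rw [map_sub, smul_sub]

lemma er_add (T : X →L[ℂ] X) (E η : ℝ) (g g' : X) :
    er T E η (g + g') = er T E η g + er T E η g' := by
  unfold er
  rw [map_add, smul_add]

lemma er_fix {T : X →L[ℂ] X} (hT : IsSelfAdjoint T) (E : ℝ) {η : ℝ} (hη : η ≠ 0) {g : X}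
    (hg : T g = (E : ℂ) • g) : er T E η g = g := by
  unfold er
  have h0 : (-(η : ℂ) * Complex.I) ≠ 0 := by
    refine mul_ne_zero (neg_ne_zero.2 (by exact_mod_cast hη)) Complex.I_ne_zero
  have h1 : (-(η : ℂ) * Complex.I)⁻¹ • g = Rz T (ze E η) g := by
    refine rz_uniq T hT (ze E η) (by rw [ze_im]; exact hη) _ _ ?_
    rw [map_smul, hg, smul_smul, smul_smul, ← sub_smul]
    have : (-(η : ℂ) * Complex.I)⁻¹ * (E : ℂ) - ze E η * (-(η : ℂ) * Complex.I)⁻¹ = 1 := by
      have hη' : (η : ℂ) ≠ 0 := by exact_mod_cast hη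
      unfold ze
      have hI := Complex.I_ne_zero
      field_simp
      ring
    rw [this, one_smul]
  rw [← h1, smul_smul, mul_inv_cancel₀ h0, one_smul]

lemma er_range {T : X →L[ℂ] X} (hT : IsSelfAdjoint T) (E : ℝ) {η : ℝ} (hη : η ≠ 0) (h : X) :
    ‖er T E η (T h - (E : ℂ) • h)‖ ≤ 2 * |η| * ‖h‖ := by
  have hz : (ze E η).im ≠ 0 := by rw [ze_im]; exact hη
  have h1 : Rz T (ze E η) (T h - (E : ℂ) • h) = h + (ze E η - E) • Rz T (ze E η) h := by
    have h2 : Rz T (ze E η) (T h - ze E η • h) = h := (rz_uniq T hT (ze E η) hz h _ rfl).symm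
    have h3 : T h - (E : ℂ) • h = (T h - ze E η • h) + (ze E η - E) • h := by module
    rw [h3, map_add, h2, map_smul]
  have h4 : ze E η - E = (η : ℂ) * Complex.I := by unfold ze; ring
  unfold er
  rw [h1, norm_smul, norm_mul, norm_neg, Complex.norm_I, mul_one, Complex.norm_real,
    Real.norm_eq_abs]
  have h5 := rz_norm T hT (ze E η) hz h
  rw [ze_im, le_div_iff₀ (abs_pos.2 hη)] at h5
  have h6 : ‖h + (ze E η - E) • Rz T (ze E η) h‖ ≤ 2 * ‖h‖ := by
    refine (norm_add_le _ _).trans ?_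
    rw [h4, norm_smul, norm_mul, Complex.norm_I, mul_one, Complex.norm_real, Real.norm_eq_abs]
    linarith
  have := mul_le_mul_of_nonneg_left h6 (abs_nonneg η)
  linarith

/-- the mean ergodic theorem, for both boundary values -/
theorem ergodic {T : X →L[ℂ] X} (hT : IsSelfAdjoint T) (E : ℝ) (g : X) :
    ∃ φ : X, T φ = (E : ℂ) • φ ∧ (∀ ψ : X, T ψ = (E : ℂ) • ψ → ⟪ψ, φ⟫_ℂ = ⟪ψ, g⟫_ℂ) ∧
      Tendsto (fun η : ℝ => er T E η g) (𝓝[≠] 0) (𝓝 φ) := by
  set A : X →ₗ[ℂ] X := T.toLinearMap - (E : ℂ) • LinearMap.id with hA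
  have hAx : ∀ x, A x = T x - (E : ℂ) • x := fun x => rfl
  set C : Submodule ℂ X := (LinearMap.range A).topologicalClosure with hC
  have hCc : IsClosed (C : Set X) := Submodule.isClosed_topologicalClosure _
  haveI : CompleteSpace C := hCc.completeSpace_coe
  have hs : ∀ a b : X, ⟪T a, b⟫_ℂ = ⟪a, T b⟫_ℂ :=
    ContinuousLinearMap.isSelfAdjoint_iff_isSymmetric.1 hT
  have hAs : ∀ a b : X, ⟪A a, b⟫_ℂ = ⟪a, A b⟫_ℂ := by
    intro a b
    rw [hAx, hAx, inner_sub_left, inner_sub_right, hs, inner_smul_left, inner_smul_right,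
      Complex.conj_ofReal]
  set v : X := C.starProjection g with hv
  have hvC : v ∈ C := C.starProjection_apply_mem g
  have hperp : ∀ w ∈ C, ⟪g - v, w⟫_ℂ = 0 := fun w hw => C.starProjection_inner_eq_zero g w hw
  have hker : T (g - v) = (E : ℂ) • (g - v) := by
    have h1 : A (g - v) = 0 := by
      have h2 : ⟪A (g - v), A (g - v)⟫_ℂ = 0 := by
        rw [hAs]
        exact hperp _ (Submodule.le_topologicalClosure _ ⟨_, rfl⟩)
      exact inner_self_eq_zero.1 h2
    rw [hAx, sub_eq_zero] at h1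
    exact h1
  have hker' : ∀ ψ : X, T ψ = (E : ℂ) • ψ → ∀ w ∈ C, ⟪ψ, w⟫_ℂ = 0 := by
    intro ψ hψ w hw
    have h1 : (C : Set X) ⊆ {w | ⟪ψ, w⟫_ℂ = 0} := by
      rw [hC, Submodule.topologicalClosure_coe]
      refine closure_minimal ?_ (isClosed_eq (by fun_prop) continuous_const)
      rintro _ ⟨h, rfl⟩
      show ⟪ψ, A h⟫_ℂ = 0
      rw [← hAs, hAx, hψ, sub_self, inner_zero_left]
    exact h1 hw
  refine ⟨g - v, hker, fun ψ hψ => ?_, ?_⟩
  · rw [inner_sub_right, hker' ψ hψ v hvC, sub_zero]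
  · have hne : ∀ᶠ η : ℝ in 𝓝[≠] 0, η ≠ 0 := self_mem_nhdsWithin
    have key : Tendsto (fun η : ℝ => er T E η v) (𝓝[≠] 0) (𝓝 0) := by
      rw [Metric.tendsto_nhds]
      intro ε hε
      have hvcl : v ∈ closure ((LinearMap.range A : Submodule ℂ X) : Set X) := by
        have h1 := hvC
        rw [hC, ← SetLike.mem_coe, Submodule.topologicalClosure_coe] at h1
        exact h1
      obtain ⟨w, ⟨h, rfl⟩, hw⟩ := Metric.mem_closure_iff.1 hvcl (ε / 2) (by positivity)
      have h2 : Tendsto (fun η : ℝ => 2 * |η| * ‖h‖) (𝓝[≠] 0) (𝓝 0) := by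
        have h3 : Continuous fun η : ℝ => 2 * |η| * ‖h‖ := by fun_prop
        have h4 := (h3.tendsto 0).mono_left (nhdsWithin_le_nhds (s := {0}ᶜ))
        simpa using h4
      filter_upwards [hne, h2.eventually (gt_mem_nhds (half_pos hε))] with η h5 h6
      rw [dist_zero_right]
      have h7 : er T E η v = er T E η (v - A h) + er T E η (A h) := by
        rw [← er_add, sub_add_cancel]
      rw [h7]
      refine (norm_add_le _ _).trans_lt ?_
      have h8 := er_norm hT E h5 (v - A h)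
      have h9 := er_range hT E h5 h
      rw [← hAx] at h9
      rw [dist_eq_norm] at hw
      linarith
    have h10 : Tendsto (fun η : ℝ => (g - v) + er T E η v) (𝓝[≠] 0) (𝓝 ((g - v) + 0)) :=
      tendsto_const_nhds.add key
    rw [add_zero] at h10
    refine h10.congr' ?_
    filter_upwards [hne] with η h5
    have h11 : er T E η g = er T E η (g - v) + er T E η v := by rw [← er_add, sub_add_cancel]
    rw [h11, er_fix hT E h5 hker]

end Pool.Agent.Helper26.Sw
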