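import Pool.Agent.Helper26.Sw.Cb

/-! # Local functions are dense; the edges; the main theorem -/

set_option autoImplicit false

open MeasureTheory Filter Topology
open scoped BigOperators ENNReal NNReal InnerProductSpace ComplexConjugate Matrix

namespace Pool.Agent.Helper26.Sw

open Pool.Agent.H5R2.NB Pool.Agent.Helper26.Rg Pool.Agent.Helper26.Nb

variable {d : ℕ} {Θ : Type} [MeasurableSpace Θ] {m : Measure Θ} [IsProbabilityMeasure m]
  {τ : Site d → Θ → Θ} {ν : Measure ℝ} [IsProbabilityMeasure ν] {c R α β : ℝ}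

/-- a function which is orthogonal to the local functions vanishes -/
theorem zero_of_local {ψ : (Site d → ℝ) × Θ → ℂ} (hψ : MemLp ψ 2 ((PP d ν).prod m))
    (h : ∀ (g : (Site d → ℝ) × Θ → ℝ) (s : Finset (Site d)), Measurable g →
      (∀ p, |g p| ≤ 1) → Lcl g s → ∫ p, conj (ψ p) * (g p : ℂ) ∂((PP d ν).prod m) = 0) :
    ∀ᵐ p ∂((PP d ν).prod m), ψ p = 0 := by
  classical
  set Q := (PP d ν).prod m with hQ
  have hint : Integrable (fun p => conj (ψ p)) Q :=
    (hψ.star).integrable (by norm_num)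
  set C : Set (Set (Site d → ℝ)) :=
    squareCylinders fun _ : Site d => {s : Set ℝ | MeasurableSet s} with hC
  have hgen : MeasurableSpace.generateFrom C = MeasurableSpace.pi := generateFrom_squareCylinders
  have hpi : IsPiSystem C := by
    refine isPiSystem_squareCylinders (fun i => MeasurableSpace.isPiSystem_measurableSet) ?_
    intro i
    exact (MeasurableSet.univ : MeasurableSet (Set.univ : Set ℝ))
  have huniv : (Set.univ : Set (Site d → ℝ)) ∈ C := by
    refine ⟨∅, fun _ => Set.univ, ?_, by simp⟩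
    intro i _
    exact (MeasurableSet.univ : MeasurableSet (Set.univ : Set ℝ))
  have hspan : IsCountablySpanning C := ⟨fun _ => Set.univ, fun _ => huniv, Set.iUnion_const _⟩
  have hgenD : MeasurableSpace.generateFrom {B : Set Θ | MeasurableSet B} = ‹_› :=
    MeasurableSpace.generateFrom_measurableSet
  have hgen2 := generateFrom_eq_prod hgen hgenD hspan isCountablySpanning_measurableSet
  have hpi2 : IsPiSystem (Set.image2 (· ×ˢ ·) C {B : Set Θ | MeasurableSet B}) :=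
    hpi.prod MeasurableSpace.isPiSystem_measurableSet
  have hbasic : ∀ A ∈ Set.image2 (· ×ˢ ·) C {B : Set Θ | MeasurableSet B},
      ∫ p in A, conj (ψ p) ∂Q = 0 := by
    rintro _ ⟨_, ⟨S, a, ha, rfl⟩, B, hB, rfl⟩
    have ha' : ∀ i, MeasurableSet (a i) := fun i => ha i (Set.mem_univ i)
    have mS : MeasurableSet ((S : Set (Site d)).pi a) :=
      MeasurableSet.pi (Finset.countable_toSet S) fun i _ => ha' i
    have mA : MeasurableSet (((S : Set (Site d)).pi a) ×ˢ B) := mS.prod hB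
    have h1 := h (Set.indicator (((S : Set (Site d)).pi a) ×ˢ B) (fun _ => (1 : ℝ))) S
      (measurable_const.indicator mA) (fun p => by
        by_cases hp : p ∈ ((S : Set (Site d)).pi a) ×ˢ B
        · rw [Set.indicator_of_mem hp]; norm_num
        · rw [Set.indicator_of_notMem hp]; norm_num) (by
      intro p y v hy
      have e : (up y (p, v) ∈ ((S : Set (Site d)).pi a) ×ˢ B) ↔
          p ∈ ((S : Set (Site d)).pi a) ×ˢ B := by
        unfold up
        simp only [Set.mem_prod, Set.mem_pi]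
        refine and_congr_left fun _ => ?_
        refine forall_congr' fun i => ?_
        refine imp_congr_right fun hi => ?_
        rw [Function.update_of_ne]
        rintro rfl
        exact hy (by exact_mod_cast hi)
      simp only [Set.indicator, e])
    rw [← h1, ← integral_indicator mA]
    refine integral_congr_ae (Eventually.of_forall fun p => ?_)
    simp only [Set.indicator]
    split_ifs <;> simp
  have hall : ∀ A : Set ((Site d → ℝ) × Θ), MeasurableSet A → ∫ p in A, conj (ψ p) ∂Q = 0 := by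
    intro A hA
    refine MeasurableSpace.induction_on_inter
      (C := fun A _ => ∫ p in A, conj (ψ p) ∂Q = 0) hgen2.symm hpi2 ?_ hbasic ?_ ?_ A hA
    · simp
    · intro t ht h1
      have h2 := integral_add_compl ht hint
      have h3 : ∫ p, conj (ψ p) ∂Q = 0 := by
        have := hbasic Set.univ ⟨Set.univ, huniv, Set.univ, MeasurableSet.univ,
          Set.univ_prod_univ⟩
        rwa [setIntegral_univ] at this
      rw [h1, h3, zero_add] at h2
      exact h2
    · intro f hd hf h1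
      rw [integral_iUnion hf hd hint.integrableOn]
      simp only [h1, tsum_zero]
  have h1 := hint.ae_eq_zero_of_forall_setIntegral_eq_zero fun A hA _ => hall A hA
  filter_upwards [h1] with p hp
  have : conj (ψ p) = 0 := hp
  simpa using this

theorem bulk [NullSingletonClass ν] (hτ : Act m τ) (L : Law ν α β) (hd : 0 < d) (hc : c ≠ 0)
    (hR : ∀ᵐ s ∂ν, |s| ≤ R)
    {E t₀ : ℝ} (ht₀ : t₀ ∈ Set.Ioo α β) (hE : |E - t₀| ≤ 2 * d * |c|)
    {ψ : (Site d → ℝ) × Θ → ℂ} (hψ : MemLp ψ 2 ((PP d ν).prod m))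
    (heq : Hf τ c R ψ =ᵐ[(PP d ν).prod m] fun p => (E : ℂ) * ψ p) :
    ∀ᵐ p ∂((PP d ν).prod m), ψ p = 0 := by
  refine zero_of_local hψ fun g s hg hg1 hgs => ?_
  have hgL : MemLp (fun p => (g p : ℂ)) 2 ((PP d ν).prod m) := by
    refine MemLp.of_bound (Complex.measurable_ofReal.comp hg).aestronglyMeasurable 1
      (Eventually.of_forall fun p => ?_)
    show ‖(g p : ℂ)‖ ≤ 1
    rw [Complex.norm_real]
    exact hg1 p
  obtain ⟨η, F, φ, h1, h2, h3, h4, h5, h6, h7, h8, h9, h10⟩ := erg hτ c R E g hgL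
  have D : Dat m ν τ c R E η F φ g s := ⟨hτ, hR, h1, h2, h3, h4, h5, h6, h7, h8, h9, hgs⟩
  rw [← h10 ψ hψ heq]
  have h11 := D.zero L hd hc ht₀ hE
  have h12 : (fun p => conj (ψ p) * φ p) =ᵐ[(PP d ν).prod m] fun _ => 0 := by
    filter_upwards [h11] with p hp
    rw [hp, mul_zero]
  rw [integral_congr_ae h12, integral_zero]

/-- the hopping part is bounded by `2 d |c|` -/
theorem hop_bound (hτ : Act m τ) (f : Lp ℂ 2 ((PP d ν).prod m)) :
    ‖TT hτ c R f - Mu m ν d R f‖ ≤ 2 * d * |c| * ‖f‖ := by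
  have h1 : TT hτ c R f - Mu m ν d R f =
      (c : ℂ) • ∑ i : Fin d, (Su hτ (Pi.single i 1) f + Su hτ (-Pi.single i 1) f) := by
    unfold TT
    rw [_root_.add_apply, _root_.smul_apply, _root_.sum_apply]
    simp only [_root_.add_apply]
    abel
  have h2 : ∀ x, ‖Su hτ x f‖ = ‖f‖ := fun x =>
    (Lp.compMeasurePreservingₗᵢ ℂ (sX τ x) (sX_mp (ν := ν) hτ x)).norm_map f
  rw [h1, norm_smul, Complex.norm_real, Real.norm_eq_abs]
  have h3 : ‖∑ i : Fin d, (Su hτ (Pi.single i 1) f + Su hτ (-Pi.single i 1) f)‖ ≤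
      d * (2 * ‖f‖) := by
    refine (norm_sum_le _ _).trans ?_
    refine (Finset.sum_le_sum fun i _ => (norm_add_le _ _)).trans (le_of_eq ?_)
    simp only [h2]
    rw [Finset.sum_const, Finset.card_univ, Fintype.card_fin, nsmul_eq_mul]
    ring
  calc _ ≤ |c| * (d * (2 * ‖f‖)) := by gcongr
    _ = _ := by ring

theorem edge (hτ : Act m τ) {E : ℝ} (hV : ∀ᵐ s ∂ν, 2 * d * |c| < |E - s| ∧ |s| ≤ R)
    {ψ : (Site d → ℝ) × Θ → ℂ} (hψ : MemLp ψ 2 ((PP d ν).prod m))
    (heq : Hf τ c R ψ =ᵐ[(PP d ν).prod m] fun p => (E : ℂ) * ψ p) :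
    ∀ᵐ p ∂((PP d ν).prod m), ψ p = 0 := by
  set Q := (PP d ν).prod m with hQ
  set f : Lp ℂ 2 Q := hψ.toLp ψ with hf
  have hfψ : f =ᵐ[Q] ψ := hψ.coeFn_toLp
  have hV0 : ∀ᵐ p ∂Q, 2 * d * |c| < |E - p.1 0| ∧ |p.1 0| ≤ R := by
    have h1 : MeasurePreserving (fun p : (Site d → ℝ) × Θ => p.1 0) Q ν :=
      (measurePreserving_eval_infinitePi (fun _ : Site d => ν) 0).comp measurePreserving_fst
    exact h1.quasiMeasurePreserving.ae hV
  have h1 : (TT hτ c R f - Mu m ν d R f : Lp ℂ 2 Q) =ᵐ[Q]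
      fun p => ((E - p.1 0 : ℝ) : ℂ) * ψ p := by
    filter_upwards [Lp.coeFn_sub (TT hτ c R f) (Mu m ν d R f), TT_coe hτ c R f, Mu_coe R f,
      Hf_congr hτ c R hfψ, heq, hfψ, hV0] with p h1 h2 h3 h4 h5 h6 h7
    rw [h1, Pi.sub_apply, h2, h3, h4, h5, h6]
    have h8 : cl R p.1 0 = p.1 0 := by
      have := abs_le.1 (h7.2.trans (le_abs_self R))
      unfold cl
      rw [min_eq_right this.2, max_eq_right this.1]
    rw [h8]
    push_cast
    ring
  have h2 := hop_bound (c := c) (R := R) hτ f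
  have hint1 : Integrable (fun p => ‖(TT hτ c R f - Mu m ν d R f : Lp ℂ 2 Q) p‖ ^ 2) Q :=
    (Lp.memLp _).integrable_norm_pow two_ne_zero
  have hint2 : Integrable (fun p => ‖f p‖ ^ 2) Q := (Lp.memLp f).integrable_norm_pow two_ne_zero
  have nsq : ∀ k : Lp ℂ 2 Q, ‖k‖ ^ 2 = ∫ p, ‖k p‖ ^ 2 ∂Q := by
    intro k
    have h3 : ((‖k‖ ^ 2 : ℝ) : ℂ) = ((∫ p, ‖k p‖ ^ 2 ∂Q : ℝ) : ℂ) := by
      have h4 := inner_self_eq_norm_sq_to_K (𝕜 := ℂ) k
      push_cast
      rw [show ((‖k‖ : ℝ) : ℂ) ^ 2 = ⟪k, k⟫_ℂ from h4.symm, L2.inner_def, ← integral_complex_ofReal]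
      refine integral_congr_ae (Eventually.of_forall fun p => ?_)
      simp only []
      rw [inner_self_eq_norm_sq_to_K]
      push_cast
      rfl
    exact_mod_cast h3
  have h3 : ∫ p, (‖(TT hτ c R f - Mu m ν d R f : Lp ℂ 2 Q) p‖ ^ 2 -
      (2 * d * |c|) ^ 2 * ‖f p‖ ^ 2) ∂Q ≤ 0 := by
    rw [integral_sub hint1 (hint2.const_mul _), integral_const_mul, ← nsq, ← nsq, sub_nonpos,
      ← mul_pow]
    exact pow_le_pow_left₀ (norm_nonneg _) h2 2
  have h4 : 0 ≤ᵐ[Q] fun p => ‖(TT hτ c R f - Mu m ν d R f : Lp ℂ 2 Q) p‖ ^ 2 -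
      (2 * d * |c|) ^ 2 * ‖f p‖ ^ 2 := by
    filter_upwards [h1, hfψ, hV0] with p a1 a2 a3
    simp only [Pi.zero_apply]
    rw [a1, a2, norm_mul, mul_pow, Complex.norm_real, Real.norm_eq_abs, ← sub_mul]
    refine mul_nonneg (sub_nonneg.2 ?_) (sq_nonneg _)
    exact pow_le_pow_left₀ (by positivity) a3.1.le 2
  have h5 : ∫ p, (‖(TT hτ c R f - Mu m ν d R f : Lp ℂ 2 Q) p‖ ^ 2 -
      (2 * d * |c|) ^ 2 * ‖f p‖ ^ 2) ∂Q = 0 :=
    le_antisymm h3 (integral_nonneg_of_ae h4)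
  rw [integral_eq_zero_iff_of_nonneg_ae h4 (hint1.sub (hint2.const_mul _))] at h5
  filter_upwards [h5, h1, hfψ, hV0] with p a0 a1 a2 a3
  simp only [Pi.zero_apply] at a0
  rw [a1, a2, norm_mul, mul_pow, Complex.norm_real, Real.norm_eq_abs, ← sub_mul] at a0
  have h6 : (2 * d * |c|) ^ 2 < |E - p.1 0| ^ 2 :=
    pow_lt_pow_left₀ a3.1 (by positivity) two_ne_zero
  have h7 := (mul_eq_zero.1 a0).resolve_left (by linarith)
  have h8 : ‖ψ p‖ = 0 := by
    exact pow_eq_zero_iff (two_ne_zero) |>.1 h7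
  exact norm_eq_zero.1 h8

theorem nonreal (hτ : Act m τ) {E : ℂ} (hE : E.im ≠ 0)
    {ψ : (Site d → ℝ) × Θ → ℂ} (hψ : MemLp ψ 2 ((PP d ν).prod m))
    (heq : Hf τ c R ψ =ᵐ[(PP d ν).prod m] fun p => E * ψ p) :
    ∀ᵐ p ∂((PP d ν).prod m), ψ p = 0 := by
  set Q := (PP d ν).prod m with hQ
  set f : Lp ℂ 2 Q := hψ.toLp ψ with hf
  have hfψ : f =ᵐ[Q] ψ := hψ.coeFn_toLp
  have h1 : TT hτ c R f = E • f := by
    refine Lp.ext ?_
    filter_upwards [TT_coe hτ c R f, Hf_congr hτ c R hfψ, heq, hfψ, Lp.coeFn_smul E f]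
      with p a1 a2 a3 a4 a5
    rw [a1, a2, a3, a5, Pi.smul_apply, a4, smul_eq_mul]
  have h2 : ⟪TT hτ c R f, f⟫_ℂ = ⟪f, TT hτ c R f⟫_ℂ :=
    ContinuousLinearMap.isSelfAdjoint_iff_isSymmetric.1 (TT_sa hτ c R) f f
  rw [h1, inner_smul_left, inner_smul_right] at h2
  have h3 : (conj E - E) * ⟪f, f⟫_ℂ = 0 := by linear_combination h2
  have h4 : conj E - E ≠ 0 := by
    intro h
    have := congrArg Complex.im h
    simp only [Complex.sub_im, Complex.conj_im, Complex.zero_im] at this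
    exact hE (by linarith)
  have h5 : f = 0 := inner_self_eq_zero.1 ((mul_eq_zero.1 h3).resolve_left h4)
  have h6 : (f : (Site d → ℝ) × Θ → ℂ) =ᵐ[Q] 0 := by
    rw [h5]
    exact Lp.coeFn_zero _ _ _
  filter_upwards [hfψ, h6] with p a1 a2
  rw [← a1, a2]
  rfl

/-- **no eigenvalues** -/
theorem main [NullSingletonClass ν] (hτ : Act m τ) (L : Law ν α β) (hd : 0 < d) (hc : c ≠ 0)
    (E : ℂ) {ψ : (Site d → ℝ) × Θ → ℂ} (hψ : MemLp ψ 2 ((PP d ν).prod m))
    (heq : ∀ᵐ p ∂((PP d ν).prod m), hopf c (fd τ ψ p) 0 + p.1 0 * ψ p = E * ψ p) :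
    ∀ᵐ p ∂((PP d ν).prod m), ψ p = 0 := by
  set R : ℝ := max |α| |β| with hR
  have hRs : ∀ᵐ s ∂ν, |s| ≤ R := by
    filter_upwards [L.supp] with s hs
    rw [abs_le]
    have h1 := neg_abs_le α
    have h2 := le_abs_self β
    have h3 : |α| ≤ R := le_max_left _ _
    have h4 : |β| ≤ R := le_max_right _ _
    exact ⟨by linarith [hs.1], by linarith [hs.2]⟩
  have hRp : ∀ᵐ p ∂((PP d ν).prod m), |p.1 0| ≤ R := by
    have h1 : MeasurePreserving (fun p : (Site d → ℝ) × Θ => p.1 0) ((PP d ν).prod m) ν :=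
      (measurePreserving_eval_infinitePi (fun _ : Site d => ν) 0).comp measurePreserving_fst
    exact h1.quasiMeasurePreserving.ae hRs
  have heq' : Hf τ c R ψ =ᵐ[(PP d ν).prod m] fun p => E * ψ p := by
    filter_upwards [heq, hRp] with p h1 h2
    have h8 : cl R p.1 0 = p.1 0 := by
      have := abs_le.1 (h2.trans (le_abs_self R))
      unfold cl
      rw [min_eq_right this.2, max_eq_right this.1]
    unfold Hf
    rw [h8]
    exact h1
  by_cases hE : E.im = 0
  · obtain ⟨r, rfl⟩ : ∃ r : ℝ, (r : ℂ) = E := ⟨E.re, by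
      apply Complex.ext <;> simp [hE]⟩
    by_cases hin : ∃ t₀ ∈ Set.Ioo α β, |r - t₀| ≤ 2 * d * |c|
    · obtain ⟨t₀, ht₀, h1⟩ := hin
      exact bulk hτ L hd hc hRs ht₀ h1 hψ heq'
    · push Not at hin
      refine edge (c := c) hτ ?_ hψ heq'
      have hα : ν {α} = 0 := measure_singleton α
      have hβ : ν {β} = 0 := measure_singleton β
      filter_upwards [L.supp, hRs, measure_eq_zero_iff_ae_notMem.1 hα,
        measure_eq_zero_iff_ae_notMem.1 hβ] with s h1 h2 h3 h4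
      refine ⟨hin s ⟨lt_of_le_of_ne h1.1 fun h => h3 h.symm, lt_of_le_of_ne h1.2 h4⟩, h2⟩
  · exact nonreal hτ hE hψ heq'

end Pool.Agent.Helper26.Sw
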