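import Pool.Agent.Helper26.Sw.Ir
import Pool.Agent.Helper26.Nb.Torus

/-! # Resampling finitely many sites -/

set_option autoImplicit false

open MeasureTheory Filter Topology
open scoped BigOperators ENNReal NNReal InnerProductSpace ComplexConjugate

namespace Pool.Agent.Helper26.Sw

open Pool.Agent.H5R2.NB Pool.Agent.Helper26.Rg Pool.Agent.Helper26.Nb

variable {d : ℕ} {Θ : Type} [MeasurableSpace Θ] {m : Measure Θ} [IsProbabilityMeasure m]
  {τ : Site d → Θ → Θ} {ν : Measure ℝ} [IsProbabilityMeasure ν]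
  {c R E α β : ℝ} {η : ℕ → ℝ} {F : ℕ → (Site d → ℝ) × Θ → ℂ} {φ : (Site d → ℝ) × Θ → ℂ}
  {g : (Site d → ℝ) × Θ → ℝ} {s : Finset (Site d)}

/-- exchange of the sites in `Λ` -/
def sw (Λ : Finset (Site d)) (q : (Site d → ℝ) × (Site d → ℝ)) :
    (Site d → ℝ) × (Site d → ℝ) :=
  (fun x => if x ∈ Λ then q.2 x else q.1 x, fun x => if x ∈ Λ then q.1 x else q.2 x)

lemma mp_sw (Λ : Finset (Site d)) :
    MeasurePreserving (sw Λ) ((PP d ν).prod (PP d ν)) ((PP d ν).prod (PP d ν)) := by
  have hm : Measurable (sw (d := d) Λ) := by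
    refine Measurable.prodMk ?_ ?_
    · rw [measurable_pi_iff]
      intro x
      by_cases hx : x ∈ Λ
      · simp only [hx, if_true]
        exact (measurable_pi_apply x).comp measurable_snd
      · simp only [hx, if_false]
        exact (measurable_pi_apply x).comp measurable_fst
    · rw [measurable_pi_iff]
      intro x
      by_cases hx : x ∈ Λ
      · simp only [hx, if_true]
        exact (measurable_pi_apply x).comp measurable_fst
      · simp only [hx, if_false]
        exact (measurable_pi_apply x).comp measurable_snd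
  have hA : Measurable fun V : Site d → ℝ × ℝ => (A1 V, A2 V) :=
    cont_A1.measurable.prodMk cont_A2.measurable
  refine ⟨hm, ?_⟩
  have hf : ∀ x : Site d, Measurable (if x ∈ Λ then (Prod.swap : ℝ × ℝ → ℝ × ℝ) else id) := by
    intro x
    split_ifs
    · exact measurable_swap
    · exact measurable_id
  have h1 := Measure.infinitePi_map_pi (fun _ : Site d => ν.prod ν) hf
  have h2 : (fun x : Site d => (ν.prod ν).map
      (if x ∈ Λ then (Prod.swap : ℝ × ℝ → ℝ × ℝ) else id)) = fun _ => ν.prod ν := by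
    funext x
    split_ifs
    · exact Measure.prod_swap
    · exact Measure.map_id
  have h3 : (PQ d (ν.prod ν)).map (fun (V : Site d → ℝ × ℝ) x =>
      (if x ∈ Λ then (Prod.swap : ℝ × ℝ → ℝ × ℝ) else id) (V x)) = PQ d (ν.prod ν) := by
    unfold PQ
    rw [h1]
    simp only [h2]
  have hT : Measurable (fun (V : Site d → ℝ × ℝ) x =>
      (if x ∈ Λ then (Prod.swap : ℝ × ℝ → ℝ × ℝ) else id) (V x)) := by
    rw [measurable_pi_iff]
    intro x
    exact (hf x).comp (measurable_pi_apply x)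
  rw [← pair_law, Measure.map_map hm hA]
  have e : sw (d := d) Λ ∘ (fun V : Site d → ℝ × ℝ => (A1 V, A2 V)) =
      (fun V : Site d → ℝ × ℝ => (A1 V, A2 V)) ∘ (fun (V : Site d → ℝ × ℝ) x =>
      (if x ∈ Λ then (Prod.swap : ℝ × ℝ → ℝ × ℝ) else id) (V x)) := by
    funext V
    refine Prod.ext ?_ ?_
    · funext x
      show (if x ∈ Λ then (V x).2 else (V x).1) =
        ((if x ∈ Λ then (Prod.swap : ℝ × ℝ → ℝ × ℝ) else id) (V x)).1
      split_ifs <;> rfl
    · funext x
      show (if x ∈ Λ then (V x).1 else (V x).2) =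
        ((if x ∈ Λ then (Prod.swap : ℝ × ℝ → ℝ × ℝ) else id) (V x)).2
      split_ifs <;> rfl
  rw [e, ← Measure.map_map hA hT, h3]

/-- resampling the sites in `Λ` -/
def ms (Λ : Finset (Site d)) (q : ((Site d → ℝ) × Θ) × (Site d → ℝ)) :
    ((Site d → ℝ) × Θ) × (Site d → ℝ) :=
  ((fun x => if x ∈ Λ then q.2 x else q.1.1 x, q.1.2),
    fun x => if x ∈ Λ then q.1.1 x else q.2 x)

lemma mp_ms (Λ : Finset (Site d)) :
    MeasurePreserving (ms (Θ := Θ) Λ) (((PP d ν).prod m).prod (PP d ν))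
      (((PP d ν).prod m).prod (PP d ν)) := by
  have e1 : MeasurePreserving (MeasurableEquiv.prodAssoc : ((Site d → ℝ) × Θ) × (Site d → ℝ) ≃ᵐ _)
      (((PP d ν).prod m).prod (PP d ν)) ((PP d ν).prod (m.prod (PP d ν))) :=
    measurePreserving_prodAssoc _ _ _
  have e2 : MeasurePreserving (Prod.map (id : (Site d → ℝ) → _)
      (Prod.swap : Θ × (Site d → ℝ) → (Site d → ℝ) × Θ))
      ((PP d ν).prod (m.prod (PP d ν))) ((PP d ν).prod ((PP d ν).prod m)) :=
    (MeasurePreserving.id _).prod Measure.measurePreserving_swap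
  have e3 : MeasurePreserving
      (MeasurableEquiv.prodAssoc : ((Site d → ℝ) × (Site d → ℝ)) × Θ ≃ᵐ _).symm
      ((PP d ν).prod ((PP d ν).prod m)) (((PP d ν).prod (PP d ν)).prod m) :=
    (measurePreserving_prodAssoc _ _ _).symm
  have e4 : MeasurePreserving (Prod.map (sw (d := d) Λ) (id : Θ → Θ))
      (((PP d ν).prod (PP d ν)).prod m) (((PP d ν).prod (PP d ν)).prod m) :=
    (mp_sw Λ).prod (MeasurePreserving.id _)
  have e5 : MeasurePreserving
      (MeasurableEquiv.prodAssoc : ((Site d → ℝ) × (Site d → ℝ)) × Θ ≃ᵐ _)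
      (((PP d ν).prod (PP d ν)).prod m) ((PP d ν).prod ((PP d ν).prod m)) :=
    measurePreserving_prodAssoc _ _ _
  have e6 : MeasurePreserving (Prod.map (id : (Site d → ℝ) → _)
      (Prod.swap : (Site d → ℝ) × Θ → Θ × (Site d → ℝ)))
      ((PP d ν).prod ((PP d ν).prod m)) ((PP d ν).prod (m.prod (PP d ν))) :=
    (MeasurePreserving.id _).prod Measure.measurePreserving_swap
  have e7 : MeasurePreserving
      (MeasurableEquiv.prodAssoc : ((Site d → ℝ) × Θ) × (Site d → ℝ) ≃ᵐ _).symm
      ((PP d ν).prod (m.prod (PP d ν))) (((PP d ν).prod m).prod (PP d ν)) :=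
    (measurePreserving_prodAssoc _ _ _).symm
  exact e7.comp (e6.comp (e5.comp (e4.comp (e3.comp (e2.comp e1)))))

lemma Dat.measA (D : Dat m ν τ c R E η F φ g s) :
    MeasurableSet {p : (Site d → ℝ) × Θ | ∀ x, fd τ φ p x ≠ 0} := by
  have : {p : (Site d → ℝ) × Θ | ∀ x, fd τ φ p x ≠ 0} = ⋂ x, {p | fd τ φ p x ≠ 0} := by
    ext p; simp
  rw [this]
  exact MeasurableSet.iInter fun x => (D.fdm x) (measurableSet_singleton (0 : ℂ)).compl

theorem Dat.supp2 [NullSingletonClass ν] (D : Dat m ν τ c R E η F φ g s) (y : Site d) :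
    ∀ᵐ q ∂(((PP d ν).prod m).prod ν), (∀ x, fd τ φ q.1 x ≠ 0) →
      ∀ x, fd τ φ (up y q) x ≠ 0 := by
  have hA := D.measA
  have hm : MeasurableSet {q : ((Site d → ℝ) × Θ) × ℝ | (∀ x, fd τ φ q.1 x ≠ 0) →
      ∀ x, fd τ φ (up y q) x ≠ 0} := by
    have e : {q : ((Site d → ℝ) × Θ) × ℝ | (∀ x, fd τ φ q.1 x ≠ 0) →
        ∀ x, fd τ φ (up y q) x ≠ 0} =
        (Prod.fst ⁻¹' {p : (Site d → ℝ) × Θ | ∀ x, fd τ φ p x ≠ 0})ᶜ ∪
        (up y ⁻¹' {p : (Site d → ℝ) × Θ | ∀ x, fd τ φ p x ≠ 0}) := by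
      ext q
      simp only [Set.mem_ofPred_eq, Set.mem_union, Set.mem_compl_iff, Set.mem_preimage]
      tauto
    rw [e]
    exact (measurable_fst hA).compl.union ((mp_up (m := m) (ν := ν) y).measurable hA)
  have h1 := D.supp1 y
  have hmp := mp_one (m := m) (ν := ν) y
  rw [← hmp.map_eq, ae_map_iff hmp.measurable.aemeasurable hm]
  filter_upwards [h1] with q hq
  show (∀ x, fd τ φ (up y (q.1, q.2.1)) x ≠ 0) →
    ∀ x, fd τ φ (up y (up y (q.1, q.2.1), q.2.2)) x ≠ 0
  rw [up_up]
  exact hq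

/-- the full support is invariant under resampling -/
theorem Dat.suppΛ [NullSingletonClass ν] (D : Dat m ν τ c R E η F φ g s)
    (Λ : Finset (Site d)) :
    ∀ᵐ q ∂(((PP d ν).prod m).prod (PP d ν)), (∀ x, fd τ φ q.1 x ≠ 0) →
      ∀ x, fd τ φ (ms Λ q).1 x ≠ 0 := by
  classical
  induction Λ using Finset.induction_on with
  | empty =>
    refine Eventually.of_forall fun q h x => ?_
    have : (ms (∅ : Finset (Site d)) q).1 = q.1 := by
      unfold ms; simp
    rw [this]
    exact h x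
  | insert y Λ hy ih =>
    have h1 : MeasurePreserving (Prod.map (id : (Site d → ℝ) × Θ → _) (Function.eval y))
        (((PP d ν).prod m).prod (PP d ν)) (((PP d ν).prod m).prod ν) :=
      (MeasurePreserving.id _).prod (measurePreserving_eval_infinitePi _ y)
    have h2 := (h1.comp (mp_ms (m := m) (ν := ν) Λ)).quasiMeasurePreserving.ae (D.supp2 y)
    filter_upwards [ih, h2] with q h3 h4 h5
    have h6 := h4 (h3 h5)
    have h7 : up y ((Prod.map (id : (Site d → ℝ) × Θ → _) (Function.eval y) ∘ ms Λ) q) =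
        (ms (insert y Λ) q).1 := by
      unfold up ms
      refine Prod.ext ?_ rfl
      funext x
      simp only [Function.comp, Prod.map, id, Function.eval]
      by_cases hx : x = y
      · subst hx
        rw [Function.update_self, if_neg hy, if_pos (Finset.mem_insert_self _ _)]
      · rw [Function.update_of_ne hx]
        simp [Finset.mem_insert, hx]
    rw [h7] at h6
    exact h6

end Pool.Agent.Helper26.Sw
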