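import Pool.Agent.Helper26.Sw.Kl

/-! # Resampling one site -/

set_option autoImplicit false

open MeasureTheory Filter Topology
open scoped BigOperators ENNReal NNReal InnerProductSpace ComplexConjugate

namespace Pool.Agent.Helper26.Sw

open Pool.Agent.H5R2.NB

variable {d : ℕ} {Θ : Type} [MeasurableSpace Θ] {m : Measure Θ} [IsProbabilityMeasure m]
  {ν : Measure ℝ} [IsProbabilityMeasure ν]

instance ppp (d : ℕ) (ν : Measure ℝ) [IsProbabilityMeasure ν] : IsProbabilityMeasure (PP d ν) := by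
  unfold PP; infer_instance

/-- resampling the site `y` -/
noncomputable def up (y : Site d) (q : ((Site d → ℝ) × Θ) × ℝ) : (Site d → ℝ) × Θ :=
  (Function.update q.1.1 y q.2, q.1.2)

lemma mp_update (y : Site d) :
    MeasurePreserving (fun p : (Site d → ℝ) × ℝ => Function.update p.1 y p.2)
      ((PP d ν).prod ν) (PP d ν) := by
  have h1 : MeasurePreserving (fun p : (Site d → ℝ) × ℝ => ((fun w => p.1 (w + y)), p.2))
      ((PP d ν).prod ν) ((PP d ν).prod ν) :=
    ((t_RES d ν).2 y).prod (MeasurePreserving.id ν)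
  have h2 := (((t_RES d ν).2 (-y)).comp (t_RES d ν).1).comp h1
  have h3 : (fun p : (Site d → ℝ) × ℝ => Function.update p.1 y p.2) =
      ((fun (V : Site d → ℝ) (w : Site d) => V (w + -y)) ∘
        (fun p : (Site d → ℝ) × ℝ => Function.update p.1 0 p.2)) ∘
        (fun p : (Site d → ℝ) × ℝ => ((fun w => p.1 (w + y)), p.2)) := by
    funext p w
    show Function.update p.1 y p.2 w =
      Function.update (fun w => p.1 (w + y)) 0 p.2 (w + -y)
    by_cases hw : w = y
    · subst hw
      rw [Function.update_self, add_neg_cancel, Function.update_self]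
    · rw [Function.update_of_ne hw, Function.update_of_ne, neg_add_cancel_right]
      intro h
      exact hw (by rwa [← sub_eq_add_neg, sub_eq_zero] at h)
  rw [h3]
  exact h2

lemma mp_up (y : Site d) :
    MeasurePreserving (up (Θ := Θ) y) (((PP d ν).prod m).prod ν) ((PP d ν).prod m) := by
  have e1 : MeasurePreserving (MeasurableEquiv.prodAssoc : ((Site d → ℝ) × Θ) × ℝ ≃ᵐ _)
      (((PP d ν).prod m).prod ν) ((PP d ν).prod (m.prod ν)) := measurePreserving_prodAssoc _ _ _
  have e2 : MeasurePreserving (Prod.map (id : (Site d → ℝ) → _) (Prod.swap : Θ × ℝ → ℝ × Θ))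
      ((PP d ν).prod (m.prod ν)) ((PP d ν).prod (ν.prod m)) :=
    (MeasurePreserving.id _).prod Measure.measurePreserving_swap
  have e3 : MeasurePreserving
      (MeasurableEquiv.prodAssoc : ((Site d → ℝ) × ℝ) × Θ ≃ᵐ _).symm
      ((PP d ν).prod (ν.prod m)) (((PP d ν).prod ν).prod m) :=
    (measurePreserving_prodAssoc _ _ _).symm
  have e4 : MeasurePreserving (Prod.map (fun p : (Site d → ℝ) × ℝ => Function.update p.1 y p.2)
      (id : Θ → Θ)) (((PP d ν).prod ν).prod m) ((PP d ν).prod m) :=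
    (mp_update y).prod (MeasurePreserving.id _)
  exact ((e4.comp e3).comp e2).comp e1

/-- `(p, s, s') ↦ (p^s, s')` -/
lemma mp_one (y : Site d) : MeasurePreserving
    (fun q : ((Site d → ℝ) × Θ) × (ℝ × ℝ) => (up y (q.1, q.2.1), q.2.2))
    (((PP d ν).prod m).prod (ν.prod ν)) (((PP d ν).prod m).prod ν) := by
  have e3 : MeasurePreserving
      (MeasurableEquiv.prodAssoc : (((Site d → ℝ) × Θ) × ℝ) × ℝ ≃ᵐ _).symm
      (((PP d ν).prod m).prod (ν.prod ν)) ((((PP d ν).prod m).prod ν).prod ν) :=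
    (measurePreserving_prodAssoc _ _ _).symm
  exact ((mp_up (m := m) y).prod (MeasurePreserving.id ν)).comp e3

lemma mp_swp : MeasurePreserving
    (fun q : ((Site d → ℝ) × Θ) × (ℝ × ℝ) => (q.1, (q.2.2, q.2.1)))
    (((PP d ν).prod m).prod (ν.prod ν)) (((PP d ν).prod m).prod (ν.prod ν)) :=
  (MeasurePreserving.id _).prod Measure.measurePreserving_swap

lemma mp_fst2 (y : Site d) : MeasurePreserving
    (fun q : ((Site d → ℝ) × Θ) × (ℝ × ℝ) => up y (q.1, q.2.1))
    (((PP d ν).prod m).prod (ν.prod ν)) ((PP d ν).prod m) :=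
  measurePreserving_fst.comp (mp_one (m := m) (ν := ν) y)

lemma mp_snd2 (y : Site d) : MeasurePreserving
    (fun q : ((Site d → ℝ) × Θ) × (ℝ × ℝ) => up y (q.1, q.2.2))
    (((PP d ν).prod m).prod (ν.prod ν)) ((PP d ν).prod m) :=
  (mp_fst2 (m := m) (ν := ν) y).comp mp_swp

omit [MeasurableSpace Θ] in
lemma up_up (y : Site d) (p : (Site d → ℝ) × Θ) (s s' : ℝ) :
    up y (up y (p, s), s') = up y (p, s') := by
  unfold up
  simp [Function.update_idem]

/-- the square trick -/
theorem sq_null (y : Site d) {B : Set ((Site d → ℝ) × Θ)} (hB : MeasurableSet B)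
    (h : ∀ᵐ q ∂(((PP d ν).prod m).prod (ν.prod ν)),
      ¬ (up y (q.1, q.2.1) ∈ B ∧ up y (q.1, q.2.2) ∈ B)) :
    ∀ᵐ p ∂((PP d ν).prod m), p ∉ B := by
  have hS : MeasurableSet (up (Θ := Θ) y ⁻¹' B) := (mp_up (m := m) (ν := ν) y).measurable hB
  have h1 : (((PP d ν).prod m).prod ν) (up y ⁻¹' B) = 0 := by
    have h2 := Measure.ae_ae_of_ae_prod h
    rw [Measure.measure_prod_null hS]
    filter_upwards [h2] with p hp
    have h3 : (ν.prod ν) ((Prod.mk p ⁻¹' (up y ⁻¹' B)) ×ˢ (Prod.mk p ⁻¹' (up y ⁻¹' B))) = 0 := by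
      refine measure_mono_null (fun q hq => ?_) (ae_iff.1 hp)
      simp only [Set.mem_ofPred_eq, not_not]
      exact ⟨hq.1, hq.2⟩
    rw [Measure.prod_prod, mul_self_eq_zero] at h3
    exact h3
  have h4 : ((PP d ν).prod m) B = 0 := by
    rw [← (mp_up (m := m) (ν := ν) y).measure_preimage hB.nullMeasurableSet]
    exact h1
  exact measure_eq_zero_iff_ae_notMem.1 h4

/-- almost surely `s ≠ s'` -/
lemma ne_ae [NullSingletonClass ν] : ∀ᵐ q ∂(((PP d ν).prod m).prod (ν.prod ν)), q.2.1 ≠ q.2.2 := by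
  have h1 : ∀ᵐ q ∂(ν.prod ν), q.1 ≠ q.2 := by
    rw [ae_iff]
    have : {q : ℝ × ℝ | ¬ q.1 ≠ q.2} = {q : ℝ × ℝ | q.1 = q.2} := by
      ext q; simp
    rw [this, Measure.measure_prod_null (measurableSet_eq_fun measurable_fst measurable_snd)]
    refine Eventually.of_forall fun s => ?_
    have h2 : Prod.mk s ⁻¹' {q : ℝ × ℝ | q.1 = q.2} = {s} := by
      ext t
      simp only [Set.mem_preimage, Set.mem_ofPred_eq, Set.mem_singleton_iff]
      exact eq_comm
    show ν (Prod.mk s ⁻¹' {q : ℝ × ℝ | q.1 = q.2}) = 0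
    rw [h2]
    exact measure_singleton s
  exact measurePreserving_snd.quasiMeasurePreserving.ae h1

end Pool.Agent.Helper26.Sw
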