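import Pool.Agent.Helper26.Sw.Cu

/-! # Test functions -/

set_option autoImplicit false

open MeasureTheory Filter Topology
open scoped BigOperators ENNReal NNReal InnerProductSpace ComplexConjugate Matrix

namespace Pool.Agent.Helper26.Sw

open Pool.Agent.H5R2.NB Pool.Agent.Helper26.Rg Pool.Agent.Helper26.Nb

variable {d : ℕ}

lemma norm_Ws_one (s : Finset (Site d)) (τ : Site d → Site d) (hτ : Function.Injective τ)
    (a : Site d → ℂ) (ha : ∀ x, ‖a x‖ = 1) : ‖Ws s τ a‖ ^ 2 = s.card := by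
  have h := norm_Ws s τ hτ a
  have h1 : ∀ y, ‖a y‖ₑ ^ 2 = 1 := by
    intro y
    rw [← ofReal_norm, ha, ENNReal.ofReal_one, one_pow]
  simp only [h1, Finset.sum_const, nsmul_eq_mul, mul_one] at h
  rw [← ofReal_norm, ← ENNReal.ofReal_pow (norm_nonneg _)] at h
  have h2 := congrArg ENNReal.toReal h
  rwa [ENNReal.toReal_ofReal (by positivity), ENNReal.toReal_natCast] at h2

lemma norm_Ws_le (s : Finset (Site d)) (τ : Site d → Site d) (hτ : Function.Injective τ)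
    (a : Site d → ℂ) (ha : ∀ x, ‖a x‖ = 1) (n : ℕ) (hn : s.card ≤ n ^ 2) : ‖Ws s τ a‖ ≤ n := by
  have h1 := norm_Ws_one s τ hτ a ha
  have h2 : ‖Ws s τ a‖ ^ 2 ≤ (n : ℝ) ^ 2 := by
    rw [h1]
    exact_mod_cast hn
  exact (pow_le_pow_iff_left₀ (norm_nonneg _) (Nat.cast_nonneg n) two_ne_zero).1 h2

lemma norm_bt (M : ℕ) {u : Site d → ℂ} (hu : ∀ x, ‖u x‖ = 1) (i : Fin d) :
    ‖bt (M ^ 2) u i‖ ≤ 4 * (M : ℝ) ^ (d - 1) := by
  have inj1 : Function.Injective fun y : Site d => y - Pi.single i (1 : ℤ) :=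
    fun a b h => sub_left_injective h
  have inj2 : Function.Injective fun y : Site d => y + Pi.single i (1 : ℤ) :=
    fun a b h => add_left_injective _ h
  have hface : ∀ (s : Finset (Site d)) (a : ℤ), s ⊆ face d (M ^ 2) i a →
      s.card ≤ (M ^ (d - 1)) ^ 2 := by
    intro s a hs
    refine (Finset.card_le_card hs).trans ?_
    rw [card_face, ← pow_mul, ← pow_mul, mul_comm]
  have b1 := norm_Ws_le _ _ inj1 u hu _ (hface _ _ (sub2 (M ^ 2) i))
  have b2 := norm_Ws_le _ _ inj1 u hu _ (hface _ _ (sub1 (M ^ 2) i))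
  have b3 := norm_Ws_le _ _ inj2 u hu _ (hface _ _ (sub4 (M ^ 2) i))
  have b4 := norm_Ws_le _ _ inj2 u hu _ (hface _ _ (sub3 (M ^ 2) i))
  push_cast at b1 b2 b3 b4
  unfold bt
  refine (norm_add_le _ _).trans ?_
  refine (add_le_add (norm_sub_le _ _) (norm_sub_le _ _)).trans ?_
  refine (add_le_add (add_le_add b1 b2) (add_le_add b3 b4)).trans (le_of_eq ?_)
  ring

/-- plane waves -/
noncomputable def pw (d : ℕ) (θ : ℝ) (x : Site d) : ℂ :=
  Complex.exp (Complex.I * θ * ((∑ j, x j : ℤ) : ℂ))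

lemma norm_pw (θ : ℝ) (x : Site d) : ‖pw d θ x‖ = 1 := by
  unfold pw
  rw [show Complex.I * (θ : ℂ) * ((∑ j, x j : ℤ) : ℂ) = ((θ * (∑ j, x j : ℤ) : ℝ) : ℂ) *
    Complex.I by push_cast; ring]
  exact Complex.norm_exp_ofReal_mul_I _

lemma hopf_pw (c θ : ℝ) (x : Site d) :
    hopf c (pw d θ) x = ((2 * d * c * Real.cos θ : ℝ) : ℂ) * pw d θ x := by
  have h1 : ∀ i : Fin d, pw d θ (x + Pi.single i 1) + pw d θ (x - Pi.single i 1) =
      2 * Complex.cos θ * pw d θ x := by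
    intro i
    have e1 : (∑ j, (x + Pi.single i (1 : ℤ) : Site d) j : ℤ) = (∑ j, x j) + 1 := by
      simp [Finset.sum_add_distrib]
    have e2 : (∑ j, (x - Pi.single i (1 : ℤ) : Site d) j : ℤ) = (∑ j, x j) - 1 := by
      simp [Finset.sum_sub_distrib]
    unfold pw
    rw [e1, e2]
    push_cast
    rw [mul_add, mul_sub, Complex.exp_add, Complex.exp_sub, mul_one, div_eq_mul_inv,
      ← Complex.exp_neg, Complex.two_cos]
    have e3 : Complex.exp (-(Complex.I * (θ : ℂ))) = Complex.exp (-(θ : ℂ) * Complex.I) := by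
      congr 1; ring
    have e4 : Complex.exp (Complex.I * (θ : ℂ)) = Complex.exp ((θ : ℂ) * Complex.I) := by
      congr 1; ring
    rw [e3, e4]
    ring
  unfold hopf
  simp only [h1]
  rw [Finset.sum_const, Finset.card_univ, Fintype.card_fin, nsmul_eq_mul]
  push_cast
  ring

theorem test (hd : 0 < d) {c : ℝ} (hc : c ≠ 0) {E' : ℝ} (hE : |E'| ≤ 2 * d * |c|) {ε : ℝ}
    (hε : 0 < ε) : ∃ (Λ : Finset (Site d)) (ψ : L2 (Site d)), 0 < ‖ψ‖ ∧ (∀ x, x ∉ Λ → ψ x = 0) ∧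
      (∀ x, x ∉ Λ → (Kp d c ψ) x = 0) ∧ ‖Kp d c ψ - (E' : ℂ) • ψ‖ ≤ ε * ‖ψ‖ := by
  classical
  have hd' : (0 : ℝ) < d := by exact_mod_cast hd
  have hc' : 0 < |c| := abs_pos.2 hc
  -- the angle
  obtain ⟨θ, hθ⟩ : ∃ θ : ℝ, 2 * d * c * Real.cos θ = E' := by
    refine ⟨Real.arccos (E' / (2 * d * c)), ?_⟩
    have h1 : |E' / (2 * d * c)| ≤ 1 := by
      rw [abs_div, abs_mul, abs_mul, abs_two, abs_of_pos hd', div_le_one (by positivity)]
      exact hE
    have h2 := abs_le.1 h1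
    rw [Real.cos_arccos h2.1 h2.2]
    have : (2 * (d : ℝ) * c) ≠ 0 := by positivity
    field_simp
  obtain ⟨M, hM⟩ := exists_nat_gt (max 1 (4 * |c| * d / ε))
  have hM1 : (1 : ℝ) < M := (le_max_left _ _).trans_lt hM
  have hM0 : (0 : ℝ) < M := by linarith
  have hM2 : 4 * |c| * d / ε < M := (le_max_right _ _).trans_lt hM
  set B := box d (M ^ 2) with hB
  set ψ : L2 (Site d) := Ws B id (pw d θ) with hψ
  have hn : ‖ψ‖ = (M : ℝ) ^ d := by
    have h1 := norm_Ws_one B id Function.injective_id (pw d θ) (norm_pw θ)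
    rw [hB, card_box] at h1
    have h2 : ‖ψ‖ ^ 2 = ((M : ℝ) ^ d) ^ 2 := by
      rw [hψ, hB, h1]
      push_cast
      rw [← pow_mul, ← pow_mul, mul_comm]
    exact (pow_left_inj₀ (norm_nonneg _) (by positivity) two_ne_zero).1 h2
  have hψx : ∀ x, ψ x = if x ∈ B then pw d θ x else 0 := fun x => Ws_apply B (pw d θ) x
  set Λ : Finset (Site d) := B ∪ Finset.univ.biUnion (fun i : Fin d =>
    B.image (fun x => x - Pi.single i 1) ∪ B.image (fun x => x + Pi.single i 1)) with hΛ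
  refine ⟨Λ, ψ, ?_, ?_, ?_, ?_⟩
  · rw [hn]; positivity
  · intro x hx
    rw [hψx, if_neg]
    intro h
    exact hx (Finset.mem_union_left _ h)
  · intro x hx
    rw [Kp_hop d c]
    unfold hopf
    refine mul_eq_zero_of_right _ (Finset.sum_eq_zero fun i _ => ?_)
    show ψ (x + Pi.single i 1) + ψ (x - Pi.single i 1) = 0
    rw [hψx, hψx, if_neg, if_neg, add_zero]
    · intro h
      apply hx
      refine Finset.mem_union_right _ (Finset.mem_biUnion.2 ⟨i, Finset.mem_univ i, ?_⟩)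
      refine Finset.mem_union_right _ (Finset.mem_image.2 ⟨_, h, ?_⟩)
      abel
    · intro h
      apply hx
      refine Finset.mem_union_right _ (Finset.mem_biUnion.2 ⟨i, Finset.mem_univ i, ?_⟩)
      refine Finset.mem_union_left _ (Finset.mem_image.2 ⟨_, h, ?_⟩)
      abel
  · have h1 := resid (Kp_hop d c) (M ^ 2) (pw d θ)
    have h2 : Ws (box d (M ^ 2)) id (hopf c (pw d θ)) = (E' : ℂ) • ψ := by
      rw [hψ]
      unfold Ws
      rw [Finset.smul_sum]
      refine Finset.sum_congr rfl fun y _ => ?_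
      rw [hopf_pw, hθ, smul_smul]
    rw [h2] at h1
    rw [hψ, hB, ← hB, ← hψ]
    rw [hψ, hB] at *
    rw [h1, norm_smul, Complex.norm_real, Real.norm_eq_abs]
    have h3 : ‖∑ i : Fin d, bt (M ^ 2) (pw d θ) i‖ ≤ d * (4 * (M : ℝ) ^ (d - 1)) := by
      refine (norm_sum_le _ _).trans ?_
      refine (Finset.sum_le_sum fun i _ => norm_bt M (norm_pw θ) i).trans (le_of_eq ?_)
      rw [Finset.sum_const, Finset.card_univ, Fintype.card_fin, nsmul_eq_mul]
    rw [hn]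
    have h4 : (M : ℝ) ^ d = M * (M : ℝ) ^ (d - 1) := by
      obtain ⟨k, rfl⟩ := Nat.exists_eq_succ_of_ne_zero hd.ne'
      simp [pow_succ]
      ring
    rw [h4]
    have h5 : 4 * |c| * d ≤ ε * M := by
      rw [div_lt_iff₀ hε] at hM2
      linarith
    have h6 : (0 : ℝ) ≤ (M : ℝ) ^ (d - 1) := by positivity
    calc |c| * ‖∑ i : Fin d, bt (M ^ 2) (pw d θ) i‖ ≤ |c| * (d * (4 * (M : ℝ) ^ (d - 1))) := by
          gcongr
      _ = (4 * |c| * d) * (M : ℝ) ^ (d - 1) := by ring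
      _ ≤ (ε * M) * (M : ℝ) ^ (d - 1) := by gcongr
      _ = _ := by ring

end Pool.Agent.Helper26.Sw
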