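import Pool.Agent.Helper26.Sw.Ex
import Pool.Agent.Helper26.Wn.Wif

/-! # Uniform weak mixing of compact families -/

set_option autoImplicit false

open MeasureTheory Filter Topology
open scoped BigOperators ENNReal NNReal InnerProductSpace ComplexConjugate

namespace Pool.Agent.Helper26.Sw

open Pool.Agent.Helper26.Wn

variable {X : Type} [NormedAddCommGroup X] [InnerProductSpace ℂ X] [CompleteSpace X]

theorem unifK {K : Type} [PseudoMetricSpace K] {S : Set K} (hS : IsCompact S)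
    {a : K → ℝ → X} {B : ℝ} (h : ∀ k, Stn (a k)) (hB : ∀ k, ‖a k 0‖ ≤ B)
    (hc : ∀ m : ℕ, Continuous fun p : K × ℝ => ‖fa (a p.1) m p.2‖)
    (hco : ∀ ε : ℝ, 0 < ε → ∃ X₀ : ℝ, ∀ k x, X₀ < |x| → ‖fa (a k) 1 x‖ < ε)
    (hz : ∀ k ∈ S, ∀ x : ℝ, Tendsto (fun N : ℕ => ‖fa (a k) N x‖ / N) atTop (𝓝 0))
    {δ : ℝ} (hδ : 0 < δ) :
    ∃ T₀ : ℝ, 0 < T₀ ∧ ∀ T, T₀ ≤ T → ∀ k ∈ S, ∀ x, ‖fa (a k) T x‖ ≤ δ * T := by
  by_contra hcon
  push Not at hcon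
  have hc1 : ∀ n : ℕ, ∃ T : ℝ, (n : ℝ) + 1 ≤ T ∧ ∃ k ∈ S, ∃ x, δ * T < ‖fa (a k) T x‖ := fun n =>
    hcon (n + 1) (by positivity)
  choose T hT k hk x hx using hc1
  have hT0 : ∀ n, 0 < T n := fun n => lt_of_lt_of_le (by positivity) (hT n)
  -- lower bounds
  have low : ∀ m : ℕ, 0 < m → ∀ᶠ n in atTop, (m : ℝ) * (δ / 2) ≤ ‖fa (a (k n)) m (x n)‖ := by
    intro m hm
    have hm' : (0 : ℝ) < m := by exact_mod_cast hm
    obtain ⟨n₀, hn₀⟩ := exists_nat_ge (B * m / (δ / 2))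
    filter_upwards [eventually_ge_atTop n₀] with n hn
    have h1 := mono (h (k n)) hm' (hT0 n).le (x n)
    have h2 := hx n
    have h3 : ‖a (k n) 0‖ * m ≤ δ / 2 * T n := by
      have h4 : (n₀ : ℝ) ≤ T n := by
        have : (n₀ : ℝ) ≤ n := by exact_mod_cast hn
        linarith [hT n]
      have h5 : B * m / (δ / 2) ≤ T n := hn₀.trans h4
      rw [div_le_iff₀ (by positivity)] at h5
      have h8 : ‖a (k n) 0‖ * m ≤ B * m := by
        have := hB (k n)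
        gcongr
      linarith
    have h6 : δ / 2 * T n ≤ T n / m * ‖fa (a (k n)) m (x n)‖ := by linarith
    have h7 : δ / 2 * T n = T n / m * (m * (δ / 2)) := by field_simp
    rw [h7] at h6
    exact le_of_mul_le_mul_left h6 (div_pos (hT0 n) hm')
  -- the frequencies stay bounded
  obtain ⟨X₀, hX₀⟩ := hco (δ / 2) (by positivity)
  have hmem : ∀ᶠ n in atTop, (k n, x n) ∈ S ×ˢ Set.Icc (-X₀) X₀ := by
    filter_upwards [low 1 one_pos] with n hn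
    refine ⟨hk n, ?_⟩
    by_contra hcn
    have h1 : X₀ < |x n| := by
      rw [Set.mem_Icc, ← abs_le] at hcn
      push Not at hcn
      exact hcn
    have := hX₀ (k n) (x n) h1
    rw [Nat.cast_one] at hn
    linarith
  obtain ⟨n₁, hn₁⟩ := eventually_atTop.1 hmem
  obtain ⟨⟨κ, ν⟩, hκν, φ, hφ, hlim⟩ := (hS.prod isCompact_Icc).tendsto_subseq
    (x := fun n => (k (n + n₁), x (n + n₁))) (fun n => hn₁ _ (Nat.le_add_left _ _))
  have hφ2 : Tendsto (fun n => φ n + n₁) atTop atTop :=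
    tendsto_atTop_mono (fun n => Nat.le_add_right _ _) hφ.tendsto_atTop
  have hν : ∀ m : ℕ, 0 < m → (m : ℝ) * (δ / 2) ≤ ‖fa (a κ) m ν‖ := by
    intro m hm
    have h1 := ((hc m).tendsto (κ, ν)).comp hlim
    refine ge_of_tendsto h1 ?_
    filter_upwards [hφ2.eventually (low m hm)] with n hn
    exact hn
  have h2 := (tendsto_order.1 (hz κ hκν.1 ν)).2 (δ / 2) (by positivity)
  obtain ⟨m, hm1, hm2⟩ := (h2.and (eventually_gt_atTop 0)).exists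
  have h3 := hν m hm2
  have hm' : (0 : ℝ) < m := by exact_mod_cast hm2
  rw [div_lt_iff₀ hm'] at hm1
  linarith

theorem wieU {a : ℝ → X} (h : Stn a) {B δ T₀ : ℝ} (hδ : 0 ≤ δ) (hB : ‖a 0‖ ≤ B) (hT₀ : 0 < T₀)
    (hT : ∀ T, T₀ ≤ T → ∀ x, ‖fa a T x‖ ≤ δ * T) {M : ℝ} (hM : T₀ ≤ M) :
    ∫ u in (0 : ℝ)..M, ‖⟪a 0, a u⟫_ℂ‖ ^ 2 ≤ 8 * δ ^ 2 * B ^ 2 * M := by
  have hM0 : 0 < M := hT₀.trans_le hM
  have h1 := wie0 h (T := 2 * M) (by linarith) hδ (hT (2 * M) (by linarith))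
  set g : ℝ → ℝ := fun u => ‖((1 - |u| / (2 * M) : ℝ) : ℂ) * ⟪a 0, a u⟫_ℂ‖ ^ 2 with hg
  have hgc : Continuous g := by
    have := h.ctC
    rw [hg]
    refine (Continuous.norm (Continuous.mul ?_ this)).pow 2
    fun_prop
  have hC2 : Continuous fun u => ‖⟪a 0, a u⟫_ℂ‖ ^ 2 := h.ctC.norm.pow 2
  have h2 : ∫ u in (0 : ℝ)..M, ‖⟪a 0, a u⟫_ℂ‖ ^ 2 ≤ 4 * ∫ u in (0 : ℝ)..M, g u := by
    rw [← intervalIntegral.integral_const_mul]
    refine intervalIntegral.integral_mono_on hM0.le (hC2.intervalIntegrable _ _)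
      ((hgc.const_mul 4).intervalIntegrable _ _) fun u hu => ?_
    rw [hg]
    simp only
    rw [norm_mul, mul_pow, Complex.norm_real, Real.norm_eq_abs, sq_abs, abs_of_nonneg hu.1]
    have h3 : 1 / 2 ≤ 1 - u / (2 * M) := by
      have : u / (2 * M) ≤ 1 / 2 := by
        rw [div_le_iff₀ (by positivity)]
        linarith [hu.2]
      linarith
    have h4 : 1 / 4 ≤ (1 - u / (2 * M)) ^ 2 := by nlinarith
    have h5 : 0 ≤ ‖⟪a 0, a u⟫_ℂ‖ ^ 2 := by positivity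
    nlinarith
  have h3 : ∫ u in (0 : ℝ)..M, g u ≤ ∫ u in (-(2 * M))..(2 * M), g u := by
    refine intervalIntegral.integral_mono_interval (by linarith) hM0.le (by linarith)
      (Eventually.of_forall fun u => by rw [hg]; positivity) (hgc.intervalIntegrable _ _)
  calc _ ≤ 4 * (2 * M * δ ^ 2 * ‖a 0‖ ^ 2) := h2.trans (by gcongr; exact h3.trans h1)
    _ = 8 * δ ^ 2 * ‖a 0‖ ^ 2 * M := by ring
    _ ≤ _ := by gcongr

/-- **uniform weak mixing** -/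
theorem mixK {K : Type} [PseudoMetricSpace K] {S : Set K} (hS : IsCompact S)
    {T : K → X →L[ℂ] X} (hTc : Continuous T) (hT : ∀ k, IsSelfAdjoint (T k)) {C : ℝ}
    (hC : ∀ k, ‖T k‖ ≤ C) (hno : ∀ k ∈ S, ∀ (x : ℝ) (ψ : X), T k ψ = (x : ℂ) • ψ → ψ = 0) (g : X)
    {ε : ℝ} (hε : 0 < ε) : ∃ T₀ : ℝ, 0 < T₀ ∧ ∀ M, T₀ ≤ M → ∀ k ∈ S,
      ∫ u in (0 : ℝ)..M, ‖⟪g, eU (T k) u g⟫_ℂ‖ ^ 2 ≤ ε * M := by
  set a : K → ℝ → X := fun k t => eU (T k) t g with ha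
  have h0 : ∀ k, a k 0 = g := by
    intro k
    rw [ha]
    simp [eU_zero]
  have hst : ∀ k, Stn (a k) := fun k => eU_stn (hT k) g
  have hcm : ∀ m : ℕ, Continuous fun p : K × ℝ => ‖fa (a p.1) m p.2‖ := by
    intro m
    refine Continuous.norm ?_
    unfold fa
    refine intervalIntegral.continuous_parametric_intervalIntegral_of_continuous'
      (f := fun (p : K × ℝ) (s : ℝ) => Complex.exp (Complex.I * p.2 * s) • a p.1 s) ?_ _ _
    refine Continuous.smul (by fun_prop) ?_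
    have h1 : Continuous fun q : (K × ℝ) × ℝ => eU (T q.1.1) q.2 :=
      eU_cont2.comp ((hTc.comp (continuous_fst.comp continuous_fst)).prodMk continuous_snd)
    exact h1.clm_apply continuous_const
  have hco : ∀ ε : ℝ, 0 < ε → ∃ X₀ : ℝ, ∀ k x, X₀ < |x| → ‖fa (a k) 1 x‖ < ε := by
    intro ε hε
    refine ⟨max 0 ((C + 2) * ‖g‖ / ε), fun k x hx => ?_⟩
    have h1 := fa_large (hT k) g x
    have h2 : 0 < |x| := (le_max_left _ _).trans_lt hx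
    have h3 : (C + 2) * ‖g‖ / ε < |x| := (le_max_right _ _).trans_lt hx
    rw [div_lt_iff₀ hε] at h3
    have h4 : (‖T k‖ + 2) * ‖g‖ ≤ (C + 2) * ‖g‖ := by
      have := hC k
      gcongr
    have h5 : |x| * ‖fa (a k) 1 x‖ < |x| * ε := h1.trans_lt (h4.trans_lt h3)
    exact lt_of_mul_lt_mul_left h5 h2.le
  obtain ⟨δ, hδ, hδe⟩ : ∃ δ : ℝ, 0 < δ ∧ 8 * δ ^ 2 * ‖g‖ ^ 2 ≤ ε := by
    refine ⟨√(ε / (8 * (‖g‖ ^ 2 + 1))), by positivity, ?_⟩
    rw [Real.sq_sqrt (by positivity)]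
    have : 8 * (ε / (8 * (‖g‖ ^ 2 + 1))) * ‖g‖ ^ 2 = ε * (‖g‖ ^ 2 / (‖g‖ ^ 2 + 1)) := by
      field_simp
    rw [this]
    have h2 : ‖g‖ ^ 2 / (‖g‖ ^ 2 + 1) ≤ 1 := by
      rw [div_le_one (by positivity)]
      linarith
    nlinarith
  obtain ⟨T₀, hT₀, hTT⟩ := unifK hS (a := a) hst (B := ‖g‖) (fun k => by rw [h0]) hcm hco
    (fun k hk x => avg_zero (hT k) x (hno k hk x) g) hδ
  refine ⟨T₀, hT₀, fun M hM k hk => ?_⟩
  have h1 := wieU (hst k) hδ.le (B := ‖g‖) (by rw [h0]) hT₀ (fun T hT x => hTT T hT k hk x) hM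
  rw [h0] at h1
  have hM0 : 0 < M := hT₀.trans_le hM
  calc _ ≤ 8 * δ ^ 2 * ‖g‖ ^ 2 * M := h1
    _ ≤ ε * M := by gcongr

end Pool.Agent.Helper26.Sw
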