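import Pool.Agent.Helper26.Sw.Ck
import Pool.Agent.Helper26.Sw.Un

/-! # The fibre operators -/

set_option autoImplicit false

open MeasureTheory Filter Topology
open scoped BigOperators ENNReal NNReal InnerProductSpace ComplexConjugate Matrix

namespace Pool.Agent.Helper26.Sw

open Pool.Agent.H5R2.NB Pool.Agent.Helper26.Rg Pool.Agent.Helper26.Nb

variable {d : ℕ} {Θ : Type} [MeasurableSpace Θ] {m : Measure Θ} [IsProbabilityMeasure m]
  {τ : Site d → Θ → Θ} {ν : Measure ℝ} [IsProbabilityMeasure ν] {c R α β : ℝ}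

lemma ph_neg (k : Fin d → ℝ) (x : Site d) : ph k (-x) = conj (ph k x) := by
  unfold ph
  rw [← Complex.exp_conj]
  congr 1
  simp [Finset.sum_neg_distrib]

lemma ph_cont (x : Site d) : Continuous fun k : Fin d → ℝ => ph k x := by
  unfold ph
  fun_prop

/-- the Hamiltonian on functions -/
noncomputable def Hv (c R : ℝ) (V : Site d → ℝ) (u : Site d → ℂ) (x : Site d) : ℂ :=
  hopf c u x + cl R V x * u x

/-- the fibre operator on functions -/
noncomputable def Hk (τ : Site d → Θ → Θ) (c R : ℝ) (k : Fin d → ℝ)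
    (f : (Site d → ℝ) × Θ → ℂ) (p : (Site d → ℝ) × Θ) : ℂ :=
  hopf c (fk τ k f p) 0 + cl R p.1 0 * f p

/-- the fibre operator -/
noncomputable def Tk (hτ : Act m τ) (c R : ℝ) (k : Fin d → ℝ) :
    Lp ℂ 2 ((PP d ν).prod m) →L[ℂ] Lp ℂ 2 ((PP d ν).prod m) :=
  (c : ℂ) • ∑ i : Fin d, (ph k (Pi.single i 1) • Su hτ (Pi.single i 1) +
    ph k (-Pi.single i 1) • Su hτ (-Pi.single i 1)) + Mu m ν d R

lemma Tk_coe (hτ : Act m τ) (c R : ℝ) (k : Fin d → ℝ) (f : Lp ℂ 2 ((PP d ν).prod m)) :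
    Tk hτ c R k f =ᵐ[(PP d ν).prod m] Hk τ c R k f := by
  have h1 : ∀ᵐ p ∂((PP d ν).prod m), ∀ i : Fin d,
      ((ph k (Pi.single i 1) • Su hτ (Pi.single i 1) f +
        ph k (-Pi.single i 1) • Su hτ (-Pi.single i 1) f : Lp ℂ 2 ((PP d ν).prod m)) :
        (Site d → ℝ) × Θ → ℂ) p =
      ph k (Pi.single i 1) * f (sX τ (Pi.single i 1) p) +
      ph k (-Pi.single i 1) * f (sX τ (-Pi.single i 1) p) := by
    rw [ae_all_iff]
    intro i
    filter_upwards [Su_coe hτ (Pi.single i 1) f, Su_coe hτ (-Pi.single i 1) f,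
      Lp.coeFn_add (ph k (Pi.single i 1) • Su hτ (Pi.single i 1) f)
        (ph k (-Pi.single i 1) • Su hτ (-Pi.single i 1) f),
      Lp.coeFn_smul (ph k (Pi.single i 1)) (Su hτ (Pi.single i 1) f),
      Lp.coeFn_smul (ph k (-Pi.single i 1)) (Su hτ (-Pi.single i 1) f)] with p h1 h2 h3 h4 h5
    rw [h3, Pi.add_apply, h4, h5, Pi.smul_apply, Pi.smul_apply, h1, h2, smul_eq_mul, smul_eq_mul]
  have h2 : Tk hτ c R k f = (c : ℂ) • ∑ i : Fin d, (ph k (Pi.single i 1) • Su hτ (Pi.single i 1) f +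
      ph k (-Pi.single i 1) • Su hτ (-Pi.single i 1) f) + Mu m ν d R f := by
    unfold Tk
    rw [_root_.add_apply, _root_.smul_apply, _root_.sum_apply]
    simp only [_root_.add_apply, _root_.smul_apply]
  rw [h2]
  filter_upwards [h1, Lp.coeFn_finsetSum (Finset.univ : Finset (Fin d))
      (fun i => ph k (Pi.single i 1) • Su hτ (Pi.single i 1) f +
        ph k (-Pi.single i 1) • Su hτ (-Pi.single i 1) f),
      Lp.coeFn_add ((c : ℂ) • ∑ i : Fin d, (ph k (Pi.single i 1) • Su hτ (Pi.single i 1) f +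
        ph k (-Pi.single i 1) • Su hτ (-Pi.single i 1) f)) (Mu m ν d R f),
      Lp.coeFn_smul (c : ℂ) (∑ i : Fin d, (ph k (Pi.single i 1) • Su hτ (Pi.single i 1) f +
        ph k (-Pi.single i 1) • Su hτ (-Pi.single i 1) f)), Mu_coe R f]
    with p a1 a2 a3 a4 a5
  rw [a3, Pi.add_apply, a4, Pi.smul_apply, a2, a5, smul_eq_mul, Finset.sum_apply]
  unfold Hk hopf fk
  congr 1
  congr 1
  refine Finset.sum_congr rfl fun i _ => ?_
  rw [a1 i, zero_add, zero_sub]

lemma Tk_sa (hτ : Act m τ) (c R : ℝ) (k : Fin d → ℝ) :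
    IsSelfAdjoint (Tk (ν := ν) hτ c R k) := by
  rw [ContinuousLinearMap.isSelfAdjoint_iff_isSymmetric]
  intro f g
  change ⟪Tk hτ c R k f, g⟫_ℂ = ⟪f, Tk hτ c R k g⟫_ℂ
  unfold Tk
  simp only [_root_.add_apply, _root_.smul_apply, _root_.sum_apply]
  rw [inner_add_left, inner_add_right, Mu_adj, inner_smul_left, inner_smul_right,
    Complex.conj_ofReal, sum_inner, inner_sum]
  congr 2
  refine Finset.sum_congr rfl fun i _ => ?_
  rw [inner_add_left, inner_add_right, inner_smul_left, inner_smul_left, inner_smul_right,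
    inner_smul_right, Su_adj, Su_adj, neg_neg, ← ph_neg, ← ph_neg, neg_neg, add_comm]

lemma Tk_cont (hτ : Act m τ) (c R : ℝ) : Continuous fun k => Tk (ν := ν) hτ c R k := by
  unfold Tk
  have h : ∀ x : Site d, Continuous fun k : Fin d → ℝ => ph k x • Su (ν := ν) hτ x := fun x =>
    (ph_cont x).smul continuous_const
  have h2 : Continuous fun k : Fin d → ℝ => ∑ i : Fin d,
      (ph k (Pi.single i 1) • Su (ν := ν) hτ (Pi.single i 1) +
        ph k (-Pi.single i 1) • Su (ν := ν) hτ (-Pi.single i 1)) :=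
    continuous_finsetSum _ fun i _ => (h _).add (h _)
  exact (h2.const_smul (c : ℂ)).add continuous_const

lemma Su_norm (hτ : Act m τ) (x : Site d) : ‖Su (ν := ν) hτ x‖ ≤ 1 := by
  refine ContinuousLinearMap.opNorm_le_bound _ zero_le_one fun f => ?_
  rw [one_mul]
  exact ((Lp.compMeasurePreservingₗᵢ ℂ (sX τ x) (sX_mp (ν := ν) hτ x)).norm_map f).le

lemma Tk_norm (hτ : Act m τ) (c R : ℝ) (k : Fin d → ℝ) :
    ‖Tk (ν := ν) hτ c R k‖ ≤ |c| * (d * 2) + |R| := by
  unfold Tk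
  refine (norm_add_le _ _).trans (add_le_add ?_ ?_)
  · rw [norm_smul, Complex.norm_real, Real.norm_eq_abs]
    refine mul_le_mul_of_nonneg_left ?_ (abs_nonneg c)
    refine (norm_sum_le _ _).trans ?_
    have h1 : ∀ i : Fin d, ‖ph k (Pi.single i 1) • Su (ν := ν) hτ (Pi.single i 1) +
        ph k (-Pi.single i 1) • Su (ν := ν) hτ (-Pi.single i 1)‖ ≤ 2 := by
      intro i
      refine (norm_add_le _ _).trans ?_
      rw [norm_smul, norm_smul, norm_ph, norm_ph, one_mul, one_mul]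
      have := Su_norm (ν := ν) hτ (Pi.single i 1)
      have := Su_norm (ν := ν) hτ (-Pi.single i 1)
      linarith
    refine (Finset.sum_le_sum fun i _ => h1 i).trans (le_of_eq ?_)
    rw [Finset.sum_const, Finset.card_univ, Fintype.card_fin, nsmul_eq_mul]
  · unfold Mu
    exact LinearMap.mkContinuous_norm_le _ (abs_nonneg R) _

/-- the fibre operators have no eigenvalues -/
theorem Tk_noeig [NullSingletonClass ν] (hτ : Act m τ) (L : Law ν α β) (hd : 0 < d) (hc : c ≠ 0)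
    (hR : ∀ᵐ s ∂ν, |s| ≤ R) (k : Fin d → ℝ) (x : ℝ) (ψ : Lp ℂ 2 ((PP d ν).prod m))
    (h : Tk hτ c R k ψ = (x : ℂ) • ψ) : ψ = 0 := by
  have hRp : ∀ᵐ p ∂((PP d ν).prod m), |p.1 0| ≤ R := by
    have h1 : MeasurePreserving (fun p : (Site d → ℝ) × Θ => p.1 0) ((PP d ν).prod m) ν :=
      (measurePreserving_eval_infinitePi (fun _ : Site d => ν) 0).comp measurePreserving_fst
    exact h1.quasiMeasurePreserving.ae hR
  have h1 := mainK hτ L hd hc k (x : ℂ) (Lp.memLp ψ) (by
    filter_upwards [Tk_coe hτ c R k ψ, Lp.coeFn_smul (x : ℂ) ψ, hRp] with p h1 h2 h3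
    rw [h, h2, Pi.smul_apply, smul_eq_mul] at h1
    have h8 : cl R p.1 0 = p.1 0 := by
      have := abs_le.1 (h3.trans (le_abs_self R))
      unfold cl
      rw [min_eq_right this.2, max_eq_right this.1]
    rw [h1]
    unfold Hk
    rw [h8])
  refine Lp.ext ?_
  filter_upwards [h1, Lp.coeFn_zero ℂ 2 ((PP d ν).prod m)] with p h2 h3
  rw [h2, h3]
  rfl

lemma Hk_congr (hτ : Act m τ) (c R : ℝ) (k : Fin d → ℝ) {f g : (Site d → ℝ) × Θ → ℂ}
    (h : f =ᵐ[(PP d ν).prod m] g) : Hk τ c R k f =ᵐ[(PP d ν).prod m] Hk τ c R k g := by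
  have h1 : ∀ᵐ p ∂((PP d ν).prod m), ∀ i : Fin d, f (sX τ (0 + Pi.single i 1) p) =
      g (sX τ (0 + Pi.single i 1) p) ∧ f (sX τ (0 - Pi.single i 1) p) =
      g (sX τ (0 - Pi.single i 1) p) := by
    rw [ae_all_iff]
    intro i
    filter_upwards [(sX_mp (ν := ν) hτ (0 + Pi.single i 1)).quasiMeasurePreserving.ae h,
      (sX_mp (ν := ν) hτ (0 - Pi.single i 1)).quasiMeasurePreserving.ae h] with p h1 h2
    exact ⟨h1, h2⟩
  filter_upwards [h, h1] with p h2 h3
  unfold Hk hopf fk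
  rw [h2]
  congr 1
  congr 1
  refine Finset.sum_congr rfl fun i _ => ?_
  rw [(h3 i).1, (h3 i).2]

/-- covariance of the powers -/
lemma Hv_cov (hτ : Act m τ) (c R : ℝ) (k : Fin d → ℝ) (g : (Site d → ℝ) × Θ → ℂ) (n : ℕ)
    (p : (Site d → ℝ) × Θ) (x w : Site d) :
    ((Hv c R p.1)^[n] (fk τ k g p)) (w + x) =
      ph k x * ((Hv c R (sX τ x p).1)^[n] (fk τ k g (sX τ x p))) w := by
  induction n generalizing w with
  | zero =>
    simp only [Function.iterate_zero, id]
    unfold fk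
    rw [sX_add hτ, ph_add]
    ring
  | succ n ih =>
    rw [Function.iterate_succ_apply', Function.iterate_succ_apply']
    set A := (Hv c R p.1)^[n] (fk τ k g p) with hA
    set B := (Hv c R (sX τ x p).1)^[n] (fk τ k g (sX τ x p)) with hB
    unfold Hv hopf
    have e1 : cl R p.1 (w + x) = cl R (sX τ x p).1 w := rfl
    have e2 : ∀ i : Fin d, A (w + x + Pi.single i 1) + A (w + x - Pi.single i 1) =
        ph k x * (B (w + Pi.single i 1) + B (w - Pi.single i 1)) := by
      intro i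
      have a1 : w + x + Pi.single i 1 = (w + Pi.single i 1) + x := by abel
      have a2 : w + x - Pi.single i 1 = (w - Pi.single i 1) + x := by abel
      rw [a1, a2, ih, ih]
      ring
    simp only [e2]
    rw [ih, e1, ← Finset.mul_sum]
    ring

/-- the powers of the fibre operator -/
lemma Tk_pow (hτ : Act m τ) (c R : ℝ) (k : Fin d → ℝ) (f : Lp ℂ 2 ((PP d ν).prod m))
    {g : (Site d → ℝ) × Θ → ℂ} (hfg : f =ᵐ[(PP d ν).prod m] g) (n : ℕ) :
    ((Tk hτ c R k ^ n) f : Lp ℂ 2 ((PP d ν).prod m)) =ᵐ[(PP d ν).prod m]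
      fun p => ((Hv c R p.1)^[n] (fk τ k g p)) 0 := by
  induction n with
  | zero =>
    filter_upwards [hfg] with p hp
    simp only [pow_zero, Function.iterate_zero, id]
    show (f : (Site d → ℝ) × Θ → ℂ) p = _
    rw [hp]
    unfold fk
    rw [ph_zero, sX_zero hτ.zero, one_mul]
  | succ n ih =>
    have e : (Tk hτ c R k ^ (n + 1)) f = Tk hτ c R k ((Tk hτ c R k ^ n) f) := by
      rw [pow_succ']
      rfl
    rw [e]
    filter_upwards [Tk_coe hτ c R k ((Tk hτ c R k ^ n) f), Hk_congr hτ c R k ih] with p h1 h2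
    rw [h1, h2, Function.iterate_succ_apply']
    have e2 : fk τ k (fun p => ((Hv c R p.1)^[n] (fk τ k g p)) 0) p =
        (Hv c R p.1)^[n] (fk τ k g p) := by
      funext x
      have := Hv_cov hτ c R k g n p x 0
      rw [zero_add] at this
      exact this.symm
    show hopf c (fk τ k (fun p => ((Hv c R p.1)^[n] (fk τ k g p)) 0) p) 0 + _ = _
    rw [e2]
    rfl

end Pool.Agent.Helper26.Sw
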