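import Pool.Agent.Helper26.Rg.Lt

/-! # Weighted uniqueness for `(H - z) D = 0` -/

set_option autoImplicit false

open MeasureTheory Filter Topology
open scoped BigOperators ENNReal NNReal InnerProductSpace ComplexConjugate

namespace Pool.Agent.Helper26.Sw

open Pool.Agent.H5R2.NB Pool.Agent.Helper26.Rg
open Pool.Agent.TH369.AN (Rz rz_eq rz_uniq rz_norm)

variable {d : ℕ}

/-- exponential weight -/
noncomputable def wt (r : ℝ) (x : Site d) : ℝ := ∏ i, r ^ (x i).natAbs

lemma wt_pos {r : ℝ} (hr : 0 < r) (x : Site d) : 0 < wt r x :=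
  Finset.prod_pos fun i _ => pow_pos hr _

lemma wt_le_one {r : ℝ} (hr : 0 < r) (hr1 : r ≤ 1) (x : Site d) : wt r x ≤ 1 :=
  Finset.prod_le_one (fun i _ => (pow_pos hr _).le) fun i _ => pow_le_one₀ hr.le hr1

lemma wt_split (r : ℝ) (x : Site d) (i : Fin d) :
    wt r x = r ^ (x i).natAbs * ∏ j ∈ Finset.univ.erase i, r ^ (x j).natAbs := by
  unfold wt
  rw [← Finset.mul_prod_erase _ _ (Finset.mem_univ i)]

lemma pow_nb {r : ℝ} (hr : 0 < r) (hr1 : r ≤ 1) (a : ℤ) :
    r * r ^ a.natAbs ≤ r ^ (a + 1).natAbs ∧ r * r ^ (a + 1).natAbs ≤ r ^ a.natAbs := by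
  constructor
  · rw [← pow_succ']
    exact pow_le_pow_of_le_one hr.le hr1 (by omega)
  · rw [← pow_succ']
    exact pow_le_pow_of_le_one hr.le hr1 (by omega)

lemma wt_nb {r : ℝ} (hr : 0 < r) (hr1 : r ≤ 1) (x : Site d) (i : Fin d) :
    r * wt r x ≤ wt r (x + Pi.single i 1) ∧ r * wt r (x + Pi.single i 1) ≤ wt r x := by
  have h1 : ∏ j ∈ Finset.univ.erase i, r ^ ((x + Pi.single i 1 : Site d) j).natAbs =
      ∏ j ∈ Finset.univ.erase i, r ^ (x j).natAbs := by
    refine Finset.prod_congr rfl fun j hj => ?_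
    rw [Pi.add_apply, Pi.single_eq_of_ne (Finset.ne_of_mem_erase hj), add_zero]
  have h2 : 0 < ∏ j ∈ Finset.univ.erase i, r ^ (x j).natAbs :=
    Finset.prod_pos fun i _ => pow_pos hr _
  obtain ⟨h3, h4⟩ := pow_nb hr hr1 (x i)
  rw [wt_split r x i, wt_split r (x + Pi.single i 1) i, h1, Pi.add_apply, Pi.single_eq_same]
  constructor
  · rw [← mul_assoc]
    exact mul_le_mul_of_nonneg_right h3 h2.le
  · rw [← mul_assoc]
    exact mul_le_mul_of_nonneg_right h4 h2.le

lemma wt_diff {r : ℝ} (hr : 0 < r) (hr1 : r ≤ 1) (x : Site d) (i : Fin d) :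
    |wt r x - wt r (x + Pi.single i 1)| ≤ (1 - r) / r * wt r x ∧
    |wt r x - wt r (x + Pi.single i 1)| ≤ (1 - r) / r * wt r (x + Pi.single i 1) := by
  obtain ⟨h1, h2⟩ := wt_nb hr hr1 x i
  have p1 := wt_pos hr x
  have p2 := wt_pos hr (x + Pi.single i 1)
  set a := wt r x
  set b := wt r (x + Pi.single i 1)
  have e1 : (1 - r) / r * a = a / r - a := by field_simp
  have e2 : (1 - r) / r * b = b / r - b := by field_simp
  have h3 : a ≤ b / r := by rw [le_div_iff₀ hr]; linarith
  have h4 : b ≤ a / r := by rw [le_div_iff₀ hr]; linarith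
  have h5 : a ≤ a / r := by rw [le_div_iff₀ hr]; nlinarith
  have h6 : b ≤ b / r := by rw [le_div_iff₀ hr]; nlinarith
  rw [e1, e2, abs_le, abs_le]
  have h7 : (1 - r) * a ≥ 0 := mul_nonneg (by linarith) p1.le
  have h8 : (1 - r) * b ≥ 0 := mul_nonneg (by linarith) p2.le
  -- a - b ≤ b/r - b  and a - b ≤ a / r - a
  have h9 : a - b ≤ a / r - a := by
    have : a - b ≤ (1 - r) * a := by linarith
    refine this.trans ?_
    rw [← e1]
    refine mul_le_mul_of_nonneg_right ?_ p1.le
    rw [le_div_iff₀ hr]; nlinarith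
  have h10 : b - a ≤ b / r - b := by
    have : b - a ≤ (1 - r) * b := by linarith
    refine this.trans ?_
    rw [← e2]
    refine mul_le_mul_of_nonneg_right ?_ p2.le
    rw [le_div_iff₀ hr]; nlinarith
  refine ⟨⟨by linarith, h9⟩, ⟨by linarith, by linarith⟩⟩

lemma sum_abs_le {r : ℝ} (hr : 0 < r) (hr1 : r < 1) (L : ℕ) :
    ∑ j ∈ Finset.Icc (-(L : ℤ)) L, r ^ j.natAbs ≤ 2 / (1 - r) := by
  have h1 : ∑ j ∈ Finset.Icc (-(L : ℤ)) L, r ^ j.natAbs ≤
      2 * ∑ n ∈ Finset.range (L + 1), r ^ n := by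
    induction L with
    | zero => norm_num
    | succ L ih =>
      have e : Finset.Icc (-((L + 1 : ℕ) : ℤ)) ((L + 1 : ℕ) : ℤ) =
          insert (-((L : ℤ) + 1)) (insert ((L : ℤ) + 1) (Finset.Icc (-(L : ℤ)) L)) := by
        ext j
        simp only [Finset.mem_Icc, Finset.mem_insert]
        push_cast
        omega
      rw [e, Finset.sum_insert, Finset.sum_insert, Finset.sum_range_succ _ (L + 1)]
      · have e1 : (-((L : ℤ) + 1)).natAbs = L + 1 := by omega
        have e2 : ((L : ℤ) + 1).natAbs = L + 1 := by omega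
        rw [e1, e2]
        linarith
      · simp
      · simp only [Finset.mem_insert, Finset.mem_Icc, not_or]
        omega
  have h2 : ∑ n ∈ Finset.range (L + 1), r ^ n ≤ 1 / (1 - r) := by
    have h3 := Summable.sum_le_tsum (Finset.range (L + 1)) (fun n _ => (pow_pos hr n).le)
      (summable_geometric_of_lt_one hr.le hr1)
    rw [tsum_geometric_of_lt_one hr.le hr1] at h3
    rwa [one_div]
  calc _ ≤ 2 * ∑ n ∈ Finset.range (L + 1), r ^ n := h1
    _ ≤ 2 * (1 / (1 - r)) := by linarith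
    _ = 2 / (1 - r) := by ring

lemma summable_wt {r : ℝ} (hr : 0 < r) (hr1 : r < 1) : Summable (wt r : Site d → ℝ) := by
  classical
  refine summable_of_sum_le (c := (2 / (1 - r)) ^ d) (fun x => (wt_pos hr x).le) fun s => ?_
  obtain ⟨L, hL⟩ : ∃ L : ℕ, ∀ x ∈ s, ∀ i, (x i).natAbs ≤ L := by
    refine ⟨∑ x ∈ s, ∑ i, (x i).natAbs, fun x hx i => ?_⟩
    have h1 : (x i).natAbs ≤ ∑ i, (x i).natAbs :=
      Finset.single_le_sum (f := fun i => (x i).natAbs) (fun _ _ => Nat.zero_le _)
        (Finset.mem_univ i)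
    have h2 : ∑ i, (x i).natAbs ≤ ∑ x ∈ s, ∑ i, (x i).natAbs :=
      Finset.single_le_sum (f := fun x : Site d => ∑ i, (x i).natAbs)
        (fun _ _ => Nat.zero_le _) hx
    exact h1.trans h2
  have h1 : s ⊆ Fintype.piFinset fun _ : Fin d => Finset.Icc (-(L : ℤ)) L := by
    intro x hx
    rw [Fintype.mem_piFinset]
    intro i
    have := hL x hx i
    rw [Finset.mem_Icc]
    omega
  calc ∑ x ∈ s, wt r x ≤ ∑ x ∈ Fintype.piFinset fun _ : Fin d => Finset.Icc (-(L : ℤ)) L, wt r x :=
        Finset.sum_le_sum_of_subset_of_nonneg h1 fun x _ _ => (wt_pos hr x).le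
    _ = ∏ _i : Fin d, ∑ j ∈ Finset.Icc (-(L : ℤ)) L, r ^ j.natAbs := by
        unfold wt
        rw [Finset.prod_univ_sum]
    _ ≤ ∏ _i : Fin d, 2 / (1 - r) :=
        Finset.prod_le_prod (fun _ _ => Finset.sum_nonneg fun _ _ => (pow_pos hr _).le)
          fun _ _ => sum_abs_le hr hr1 L
    _ = (2 / (1 - r)) ^ d := by rw [Finset.prod_const, Finset.card_univ, Fintype.card_fin]

/-- weighted summability for all rates -/
def WS (D : Site d → ℂ) : Prop := ∀ r : ℝ, 0 < r → r < 1 → Summable fun x => wt r x * ‖D x‖ ^ 2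

lemma WS.add {D D' : Site d → ℂ} (h : WS D) (h' : WS D') : WS (fun x => D x + D' x) := by
  intro r hr hr1
  refine Summable.of_nonneg_of_le (fun x => by have := wt_pos hr x; positivity) (fun x => ?_)
    (((h r hr hr1).add (h' r hr hr1)).mul_left 2)
  have h1 : ‖D x + D' x‖ ≤ ‖D x‖ + ‖D' x‖ := norm_add_le _ _
  have h2 : ‖D x + D' x‖ ^ 2 ≤ 2 * (‖D x‖ ^ 2 + ‖D' x‖ ^ 2) := by
    have h3 := pow_le_pow_left₀ (norm_nonneg _) h1 2
    nlinarith [sq_nonneg (‖D x‖ - ‖D' x‖)]
  have := mul_le_mul_of_nonneg_left h2 (wt_pos hr x).le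
  linarith

lemma WS.smul {D : Site d → ℂ} (h : WS D) (a : ℂ) : WS (fun x => a * D x) := by
  intro r hr hr1
  refine ((h r hr hr1).mul_left (‖a‖ ^ 2)).congr fun x => ?_
  rw [norm_mul]
  ring

lemma WS.sub {D D' : Site d → ℂ} (h : WS D) (h' : WS D') : WS (fun x => D x - D' x) := by
  have h1 := h.add (h'.smul (-1))
  refine fun r hr hr1 => (h1 r hr hr1).congr fun x => ?_
  simp only [neg_one_mul, ← sub_eq_add_neg]

lemma WS_l2 (ψ : L2 (Site d)) : WS (fun x => ψ x) := by
  intro r hr hr1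
  have h1 : Summable fun x => ‖ψ x‖ ^ 2 := by
    have h2 := (memℓp_gen_iff (p := 2) (by norm_num)).1 (lp.memℓp ψ)
    refine h2.congr fun x => ?_
    norm_num
  refine Summable.of_nonneg_of_le (fun x => by have := wt_pos hr x; positivity) (fun x => ?_) h1
  have := mul_le_mul_of_nonneg_right (wt_le_one hr hr1.le x) (sq_nonneg ‖ψ x‖)
  linarith

lemma im_conj_le (a b : ℂ) : |(conj a * b).im| ≤ (‖a‖ ^ 2 + ‖b‖ ^ 2) / 2 := by
  have h1 : |(conj a * b).im| ≤ ‖a‖ * ‖b‖ := by
    refine (Complex.abs_im_le_norm _).trans ?_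
    rw [norm_mul, RCLike.norm_conj]
  nlinarith [sq_nonneg (‖a‖ - ‖b‖)]

lemma im_swap (a b : ℂ) : (conj a * b).im = -(conj b * a).im := by
  simp only [Complex.mul_im, Complex.conj_re, Complex.conj_im]
  ring

/-- uniqueness -/
theorem uniq {c : ℝ} {V : Site d → ℝ} {z : ℂ} (hz : 0 < z.im) {D : Site d → ℂ} (hD : WS D)
    (h : ∀ x, hopf c D x + V x * D x - z * D x = 0) : ∀ x, D x = 0 := by
  obtain ⟨r, hr, hr1, hrε⟩ : ∃ r : ℝ, 0 < r ∧ r < 1 ∧ |c| * d * ((1 - r) / r) < z.im := by
    have h1 : Tendsto (fun r : ℝ => |c| * d * ((1 - r) / r)) (𝓝 1) (𝓝 (|c| * d * ((1 - 1) / 1))) := by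
      refine Tendsto.const_mul _ ?_
      exact ((tendsto_const_nhds.sub tendsto_id).div tendsto_id one_ne_zero)
    rw [sub_self, zero_div, mul_zero] at h1
    have h2 : ∀ᶠ r : ℝ in 𝓝[<] 1, |c| * d * ((1 - r) / r) < z.im :=
      (h1.mono_left nhdsWithin_le_nhds).eventually (gt_mem_nhds hz)
    have h3 : ∀ᶠ r : ℝ in 𝓝[<] 1, 0 < r :=
      nhdsWithin_le_nhds (lt_mem_nhds one_pos)
    have h4 : ∀ᶠ r : ℝ in 𝓝[<] 1, r < 1 := self_mem_nhdsWithin
    obtain ⟨r, h5, h6, h7⟩ := (h2.and (h3.and h4)).exists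
    exact ⟨r, h6, h7, h5⟩
  have hs := hD r hr hr1
  set A : ℝ := ∑' x, wt r x * ‖D x‖ ^ 2 with hA
  have hA0 : 0 ≤ A := tsum_nonneg fun x => by have := wt_pos hr x; positivity
  -- shifted sums
  have hsh : ∀ g : Site d, Summable fun x => wt r (x + g) * ‖D (x + g)‖ ^ 2 := fun g =>
    (Equiv.addRight g).summable_iff.2 hs
  have hshA : ∀ g : Site d, ∑' x, wt r (x + g) * ‖D (x + g)‖ ^ 2 = A := fun g =>
    (Equiv.addRight g).tsum_eq (fun x => wt r x * ‖D x‖ ^ 2)
  set ε : ℝ := (1 - r) / r with hε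
  have hε0 : 0 ≤ ε := div_nonneg (by linarith) hr.le
  -- the bond terms
  have hb : ∀ i : Fin d, Summable fun x => wt r x * (conj (D x) * D (x + Pi.single i 1)).im := by
    intro i
    refine Summable.of_norm_bounded (g := fun x => (wt r x * ‖D x‖ ^ 2 +
      r⁻¹ * (wt r (x + Pi.single i 1) * ‖D (x + Pi.single i 1)‖ ^ 2)) / 2) ?_ fun x => ?_
    · exact (hs.add ((hsh _).mul_left _)).div_const 2
    · rw [Real.norm_eq_abs, abs_mul, abs_of_pos (wt_pos hr x)]
      have h1 := im_conj_le (D x) (D (x + Pi.single i 1))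
      have h2 := mul_le_mul_of_nonneg_left h1 (wt_pos hr x).le
      refine h2.trans ?_
      have h3 : wt r x ≤ r⁻¹ * wt r (x + Pi.single i 1) := by
        rw [inv_mul_eq_div, le_div_iff₀ hr]
        linarith [(wt_nb hr hr1.le x i).1]
      have h4 := mul_le_mul_of_nonneg_right h3 (sq_nonneg ‖D (x + Pi.single i 1)‖)
      linarith
  have hb' : ∀ i : Fin d, Summable fun x => wt r x * (conj (D x) * D (x - Pi.single i 1)).im := by
    intro i
    refine Summable.of_norm_bounded (g := fun x => (wt r x * ‖D x‖ ^ 2 +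
      r⁻¹ * (wt r (x + -Pi.single i 1) * ‖D (x + -Pi.single i 1)‖ ^ 2)) / 2) ?_ fun x => ?_
    · exact (hs.add ((hsh _).mul_left _)).div_const 2
    · rw [← sub_eq_add_neg]
      rw [Real.norm_eq_abs, abs_mul, abs_of_pos (wt_pos hr x)]
      have h1 := im_conj_le (D x) (D (x - Pi.single i 1))
      have h2 := mul_le_mul_of_nonneg_left h1 (wt_pos hr x).le
      refine h2.trans ?_
      have h3 : wt r x ≤ r⁻¹ * wt r (x - Pi.single i 1) := by
        rw [inv_mul_eq_div, le_div_iff₀ hr]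
        have := (wt_nb hr hr1.le (x - Pi.single i 1) i).2
        rw [sub_add_cancel] at this
        linarith
      have h4 := mul_le_mul_of_nonneg_right h3 (sq_nonneg ‖D (x - Pi.single i 1)‖)
      linarith
  -- reindex the backward bonds
  have hre : ∀ i : Fin d, ∑' x, wt r x * (conj (D x) * D (x - Pi.single i 1)).im =
      -∑' x, wt r (x + Pi.single i 1) * (conj (D x) * D (x + Pi.single i 1)).im := by
    intro i
    have e1 := (Equiv.addRight (Pi.single i 1 : Site d)).tsum_eq
      (fun x : Site d => wt r x * (conj (D x) * D (x - Pi.single i 1)).im)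
    rw [← tsum_neg]
    refine e1.symm.trans (tsum_congr fun x => ?_)
    simp only [Equiv.coe_addRight, add_sub_cancel_right]
    rw [im_swap]
    ring
  have hsumi : ∀ i : Fin d, |∑' x, wt r x * (conj (D x) * D (x + Pi.single i 1)).im +
      ∑' x, wt r x * (conj (D x) * D (x - Pi.single i 1)).im| ≤ ε * A := by
    intro i
    have hb2 : Summable fun x => wt r (x + Pi.single i 1) *
        (conj (D x) * D (x + Pi.single i 1)).im := by
      have h1 := ((Equiv.addRight (Pi.single i 1 : Site d)).summable_iff.2 (hb' i)).neg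
      refine h1.congr fun x => ?_
      simp only [Function.comp, Equiv.coe_addRight, add_sub_cancel_right]
      rw [im_swap]
      ring
    rw [hre i, ← sub_eq_add_neg, ← (hb i).tsum_sub hb2]
    have h1 : ∀ x, |wt r x * (conj (D x) * D (x + Pi.single i 1)).im -
        wt r (x + Pi.single i 1) * (conj (D x) * D (x + Pi.single i 1)).im| ≤
        ε * ((wt r x * ‖D x‖ ^ 2 + wt r (x + Pi.single i 1) * ‖D (x + Pi.single i 1)‖ ^ 2) / 2) := by
      intro x
      rw [← sub_mul, abs_mul]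
      obtain ⟨w1, w2⟩ := wt_diff hr hr1.le x i
      rw [← hε] at w1 w2
      have h2 := im_conj_le (D x) (D (x + Pi.single i 1))
      have h3 := mul_le_mul_of_nonneg_left h2 (abs_nonneg (wt r x - wt r (x + Pi.single i 1)))
      have h4 := mul_le_mul_of_nonneg_right w1 (sq_nonneg ‖D x‖)
      have h5 := mul_le_mul_of_nonneg_right w2 (sq_nonneg ‖D (x + Pi.single i 1)‖)
      linarith
    have hsr : Summable fun x => ε * ((wt r x * ‖D x‖ ^ 2 +
        wt r (x + Pi.single i 1) * ‖D (x + Pi.single i 1)‖ ^ 2) / 2) :=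
      ((hs.add (hsh _)).div_const 2).mul_left ε
    have hsl : Summable fun x => |wt r x * (conj (D x) * D (x + Pi.single i 1)).im -
        wt r (x + Pi.single i 1) * (conj (D x) * D (x + Pi.single i 1)).im| :=
      ((hb i).sub hb2).abs
    calc _ ≤ ∑' x, |wt r x * (conj (D x) * D (x + Pi.single i 1)).im -
        wt r (x + Pi.single i 1) * (conj (D x) * D (x + Pi.single i 1)).im| := by
          have := norm_tsum_le_tsum_norm (f := fun x => wt r x *
            (conj (D x) * D (x + Pi.single i 1)).im - wt r (x + Pi.single i 1) *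
            (conj (D x) * D (x + Pi.single i 1)).im) hsl
          simpa only [Real.norm_eq_abs] using this
      _ ≤ ∑' x, ε * ((wt r x * ‖D x‖ ^ 2 +
        wt r (x + Pi.single i 1) * ‖D (x + Pi.single i 1)‖ ^ 2) / 2) :=
          hsl.tsum_le_tsum h1 hsr
      _ = ε * A := by
          rw [tsum_mul_left, tsum_div_const, hs.tsum_add (hsh _), hshA, ← hA]
          ring
  -- the identity
  have hid : ∀ x, z.im * (wt r x * ‖D x‖ ^ 2) = c * ∑ i : Fin d,
      (wt r x * (conj (D x) * D (x + Pi.single i 1)).im +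
        wt r x * (conj (D x) * D (x - Pi.single i 1)).im) := by
    intro x
    have h1 : conj (D x) * (hopf c D x + V x * D x - z * D x) = 0 := by rw [h x, mul_zero]
    have h2 := congrArg Complex.im h1
    have h3 : conj (D x) * (hopf c D x + V x * D x - z * D x) =
        (c : ℂ) * (∑ i : Fin d, (conj (D x) * D (x + Pi.single i 1) +
          conj (D x) * D (x - Pi.single i 1))) + (((V x : ℝ) : ℂ) - z) * (conj (D x) * D x) := by
      unfold hopf
      simp only [← mul_add, ← Finset.mul_sum]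
      ring
    rw [h3] at h2
    have h4 : conj (D x) * D x = ((‖D x‖ ^ 2 : ℝ) : ℂ) := by
      rw [← Complex.normSq_eq_conj_mul_self, Complex.normSq_eq_norm_sq]
    rw [h4, Complex.add_im, Complex.im_ofReal_mul, Complex.im_mul_ofReal,
      Complex.im_sum, Complex.sub_im, Complex.ofReal_im, Complex.zero_im] at h2
    simp only [Complex.add_im] at h2
    simp only [← mul_add, ← Finset.mul_sum]
    linear_combination (-wt r x) * h2
  have hfin : z.im * A = c * ∑ i : Fin d,
      (∑' x, wt r x * (conj (D x) * D (x + Pi.single i 1)).im +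
        ∑' x, wt r x * (conj (D x) * D (x - Pi.single i 1)).im) := by
    rw [hA, ← tsum_mul_left, tsum_congr hid, tsum_mul_left]
    congr 1
    rw [Summable.tsum_finsetSum fun i _ => (hb i).add (hb' i)]
    exact Finset.sum_congr rfl fun i _ => (hb i).tsum_add (hb' i)
  have hA1 : z.im * A ≤ (|c| * d * ε) * A := by
    calc z.im * A ≤ |z.im * A| := le_abs_self _
      _ = |c| * |∑ i : Fin d, (∑' x, wt r x * (conj (D x) * D (x + Pi.single i 1)).im +
        ∑' x, wt r x * (conj (D x) * D (x - Pi.single i 1)).im)| := by rw [hfin, abs_mul]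
      _ ≤ |c| * ∑ i : Fin d, ε * A := by
          refine mul_le_mul_of_nonneg_left ?_ (abs_nonneg c)
          exact (Finset.abs_sum_le_sum_abs _ _).trans (Finset.sum_le_sum fun i _ => hsumi i)
      _ = (|c| * d * ε) * A := by
          rw [Finset.sum_const, Finset.card_univ, Fintype.card_fin, nsmul_eq_mul]
          ring
  have hA2 : A = 0 := by
    by_contra hne
    have : 0 < A := lt_of_le_of_ne hA0 (Ne.symm hne)
    have := mul_lt_mul_of_pos_right hrε this
    linarith
  intro x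
  have h1 : wt r x * ‖D x‖ ^ 2 = 0 := by
    have h2 := hs.le_tsum x (fun y _ => by have := wt_pos hr y; positivity)
    rw [← hA, hA2] at h2
    have := wt_pos hr x
    exact le_antisymm h2 (by positivity)
  have h3 := (mul_eq_zero.1 h1).resolve_left (wt_pos hr x).ne'
  simpa using h3

/-- representation by the resolvent -/
theorem rep {c : ℝ} {V : Site d → ℝ} {R : ℝ} (hV : ∀ x, |V x| ≤ R) {z : ℂ} (hz : 0 < z.im)
    {D : Site d → ℂ} (hD : WS D) (f : L2 (Site d))
    (h : ∀ x, hopf c D x + V x * D x - z * D x = f x) (x : Site d) :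
    D x = (Rz (TV c V R hV) z f) x := by
  have h1 := rz_eq (TV c V R hV) (TV_sa c V R hV) z hz.ne' f
  have h2 := uniq (c := c) (V := V) hz (hD.sub (WS_l2 (Rz (TV c V R hV) z f))) (fun y => by
    have h3 := congrArg (fun g : L2 (Site d) => g y) h1
    simp only [lp.coeFn_sub, Pi.sub_apply, lp.coeFn_smul, Pi.smul_apply, smul_eq_mul] at h3
    rw [TV_apply] at h3
    have h4 := h y
    rw [← h3] at h4
    have h5 : hopf c (fun x => D x - (Rz (TV c V R hV) z f) x) y =
        hopf c D y - hopf c (fun x => (Rz (TV c V R hV) z f) x) y := by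
      unfold hopf
      rw [← mul_sub, ← Finset.sum_sub_distrib]
      congr 1
      refine Finset.sum_congr rfl fun i _ => ?_
      ring
    rw [h5]
    linear_combination h4) x
  exact sub_eq_zero.1 h2

end Pool.Agent.Helper26.Sw
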