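import Pool.Agent.Helper26.Sw.Tk

/-! # The evolution of random waves -/

set_option autoImplicit false

open MeasureTheory Filter Topology
open scoped BigOperators ENNReal NNReal InnerProductSpace ComplexConjugate Matrix

namespace Pool.Agent.Helper26.Sw

open Pool.Agent.H5R2.NB Pool.Agent.Helper26.Rg Pool.Agent.Helper26.Nb

section mix

variable {X : Type} [NormedAddCommGroup X] [InnerProductSpace ℂ X] [CompleteSpace X]

lemma polar (U : X →L[ℂ] X) (f g : X) : 4 * ⟪f, U g⟫_ℂ =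
    ⟪f + g, U (f + g)⟫_ℂ - ⟪f - g, U (f - g)⟫_ℂ -
      Complex.I * ⟪f + Complex.I • g, U (f + Complex.I • g)⟫_ℂ +
      Complex.I * ⟪f - Complex.I • g, U (f - Complex.I • g)⟫_ℂ := by
  simp only [map_add, map_sub, map_smul, inner_add_left, inner_add_right, inner_sub_left,
    inner_sub_right, inner_smul_left, inner_smul_right, Complex.conj_I]
  linear_combination (2 * ⟪f, U g⟫_ℂ - 2 * ⟪g, U f⟫_ℂ) * Complex.I_sq

theorem mixK2 {K : Type} [PseudoMetricSpace K] {S : Set K} (hS : IsCompact S)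
    {T : K → X →L[ℂ] X} (hTc : Continuous T) (hT : ∀ k, IsSelfAdjoint (T k)) {C : ℝ}
    (hC : ∀ k, ‖T k‖ ≤ C) (hno : ∀ k ∈ S, ∀ (x : ℝ) (ψ : X), T k ψ = (x : ℂ) • ψ → ψ = 0)
    (f g : X) {ε : ℝ} (hε : 0 < ε) : ∃ T₀ : ℝ, 0 < T₀ ∧ ∀ M, T₀ ≤ M → ∀ k ∈ S,
      ∫ u in (0 : ℝ)..M, ‖⟪f, eU (T k) u g⟫_ℂ‖ ^ 2 ≤ ε * M := by
  obtain ⟨T₁, h1, H1⟩ := mixK hS hTc hT hC hno (f + g) hε
  obtain ⟨T₂, h2, H2⟩ := mixK hS hTc hT hC hno (f - g) hε
  obtain ⟨T₃, h3, H3⟩ := mixK hS hTc hT hC hno (f + Complex.I • g) hε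
  obtain ⟨T₄, h4, H4⟩ := mixK hS hTc hT hC hno (f - Complex.I • g) hε
  refine ⟨max (max T₁ T₂) (max T₃ T₄), lt_max_of_lt_left (lt_max_of_lt_left h1),
    fun M hM k hk => ?_⟩
  have m1 : T₁ ≤ M := (le_max_left _ _).trans ((le_max_left _ _).trans hM)
  have m2 : T₂ ≤ M := (le_max_right _ _).trans ((le_max_left _ _).trans hM)
  have m3 : T₃ ≤ M := (le_max_left _ _).trans ((le_max_right _ _).trans hM)
  have m4 : T₄ ≤ M := (le_max_right _ _).trans ((le_max_right _ _).trans hM)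
  have hM0 : 0 ≤ M := h1.le.trans m1
  have hc : ∀ a b : X, Continuous fun u => ‖⟪a, eU (T k) u b⟫_ℂ‖ ^ 2 := fun a b =>
    (continuous_const.inner (eU_cont (T k) b)).norm.pow 2
  have hp : ∀ u : ℝ, ‖⟪f, eU (T k) u g⟫_ℂ‖ ^ 2 ≤ 1 / 4 *
      (((‖⟪f + g, eU (T k) u (f + g)⟫_ℂ‖ ^ 2 + ‖⟪f - g, eU (T k) u (f - g)⟫_ℂ‖ ^ 2) +
      ‖⟪f + Complex.I • g, eU (T k) u (f + Complex.I • g)⟫_ℂ‖ ^ 2) +
      ‖⟪f - Complex.I • g, eU (T k) u (f - Complex.I • g)⟫_ℂ‖ ^ 2) := by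
    intro u
    have e := polar (eU (T k) u) f g
    set a1 := ⟪f + g, eU (T k) u (f + g)⟫_ℂ
    set a2 := ⟪f - g, eU (T k) u (f - g)⟫_ℂ
    set a3 := ⟪f + Complex.I • g, eU (T k) u (f + Complex.I • g)⟫_ℂ
    set a4 := ⟪f - Complex.I • g, eU (T k) u (f - Complex.I • g)⟫_ℂ
    have e2 : 4 * ‖⟪f, eU (T k) u g⟫_ℂ‖ ≤ ‖a1‖ + ‖a2‖ + ‖a3‖ + ‖a4‖ := by
      have e3 : 4 * ‖⟪f, eU (T k) u g⟫_ℂ‖ = ‖a1 - a2 - Complex.I * a3 + Complex.I * a4‖ := by
        rw [← e, norm_mul]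
        norm_num
      rw [e3]
      refine (norm_add_le _ _).trans ?_
      refine (add_le_add ((norm_sub_le _ _).trans (add_le_add (norm_sub_le _ _) le_rfl))
        le_rfl).trans ?_
      rw [norm_mul, norm_mul, Complex.norm_I, one_mul, one_mul]
    have n1 := norm_nonneg a1
    have n2 := norm_nonneg a2
    have n3 := norm_nonneg a3
    have n4 := norm_nonneg a4
    have n0 := norm_nonneg ⟪f, eU (T k) u g⟫_ℂ
    have e4 : (4 * ‖⟪f, eU (T k) u g⟫_ℂ‖) ^ 2 ≤ (‖a1‖ + ‖a2‖ + ‖a3‖ + ‖a4‖) ^ 2 :=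
      pow_le_pow_left₀ (by positivity) e2 2
    nlinarith [sq_nonneg (‖a1‖ - ‖a2‖), sq_nonneg (‖a1‖ - ‖a3‖), sq_nonneg (‖a1‖ - ‖a4‖),
      sq_nonneg (‖a2‖ - ‖a3‖), sq_nonneg (‖a2‖ - ‖a4‖), sq_nonneg (‖a3‖ - ‖a4‖)]
  have hI : ∀ a b : X, IntervalIntegrable (fun u => ‖⟪a, eU (T k) u b⟫_ℂ‖ ^ 2) volume 0 M :=
    fun a b => (hc a b).intervalIntegrable _ _
  have hmono := intervalIntegral.integral_mono_on hM0 (hI f g)
    ((((hI (f + g) (f + g)).add (hI (f - g) (f - g))).add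
      (hI (f + Complex.I • g) (f + Complex.I • g))).add
      (hI (f - Complex.I • g) (f - Complex.I • g)) |>.const_mul (1 / 4)) (fun u _ => hp u)
  refine hmono.trans ?_
  rw [intervalIntegral.integral_const_mul]
  have e5 := intervalIntegral.integral_add
    (((hI (f + g) (f + g)).add (hI (f - g) (f - g))).add
      (hI (f + Complex.I • g) (f + Complex.I • g))) (hI (f - Complex.I • g) (f - Complex.I • g))
  have e6 := intervalIntegral.integral_add
    ((hI (f + g) (f + g)).add (hI (f - g) (f - g)))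
      (hI (f + Complex.I • g) (f + Complex.I • g))
  have e7 := intervalIntegral.integral_add (hI (f + g) (f + g)) (hI (f - g) (f - g))
  rw [e5, e6, e7]
  have := H1 M m1 k hk
  have := H2 M m2 k hk
  have := H3 M m3 k hk
  have := H4 M m4 k hk
  linarith

end mix

variable {d : ℕ} {Θ : Type} [MeasurableSpace Θ] {m : Measure Θ} [IsProbabilityMeasure m]
  {τ : Site d → Θ → Θ} {ν : Measure ℝ} [IsProbabilityMeasure ν] {c R α β : ℝ}

/-- `(e^{-itH} u)(0)` -/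
noncomputable def wv (c R : ℝ) (V : Site d → ℝ) (u : Site d → ℂ) (t : ℝ) : ℂ :=
  ∑' n : ℕ, ((-Complex.I * t) ^ n / (n.factorial : ℂ)) * ((Hv c R V)^[n] u) 0

lemma Hv_bound (c R : ℝ) (V : Site d → ℝ) {u : Site d → ℂ} {M : ℝ} (hM : 0 ≤ M)
    (hu : ∀ x, ‖u x‖ ≤ M) (n : ℕ) (x : Site d) :
    ‖((Hv c R V)^[n] u) x‖ ≤ (2 * d * |c| + |R|) ^ n * M := by
  induction n generalizing x with
  | zero => simpa using hu x
  | succ n ih =>
    rw [Function.iterate_succ_apply']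
    set A := (Hv c R V)^[n] u with hA
    set K : ℝ := (2 * d * |c| + |R|) ^ n * M with hK
    have hK0 : 0 ≤ K := by positivity
    unfold Hv hopf
    refine (norm_add_le _ _).trans ?_
    rw [norm_mul, norm_mul, Complex.norm_real, Complex.norm_real, Real.norm_eq_abs,
      Real.norm_eq_abs]
    have h1 : ‖∑ i : Fin d, (A (x + Pi.single i 1) + A (x - Pi.single i 1))‖ ≤ d * (2 * K) := by
      refine (norm_sum_le _ _).trans ?_
      refine (Finset.sum_le_sum fun i _ => (norm_add_le _ _).trans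
        (add_le_add (ih _) (ih _))).trans (le_of_eq ?_)
      rw [Finset.sum_const, Finset.card_univ, Fintype.card_fin, nsmul_eq_mul]
      ring
    have h2 := cl_le R V x
    have h3 := ih x
    calc _ ≤ |c| * (d * (2 * K)) + |R| * K := by gcongr
      _ = _ := by rw [hK]; ring

/-- correlations of the evolution as matrix elements -/
theorem wv_inner (hτ : Act m τ) (c R : ℝ) (k : Fin d → ℝ) {f g : (Site d → ℝ) × Θ → ℂ}
    (hf : MemLp f 2 ((PP d ν).prod m)) (hg : MemLp g 2 ((PP d ν).prod m)) {M : ℝ} (hM : 0 ≤ M)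
    (hgM : ∀ p, ‖g p‖ ≤ M) (t : ℝ) :
    ∫ p, conj (f p) * wv c R p.1 (fk τ k g p) t ∂((PP d ν).prod m) =
      ⟪hf.toLp f, eU (Tk hτ c R k) t (hg.toLp g)⟫_ℂ := by
  set Q := (PP d ν).prod m with hQ
  set B : ℝ := 2 * d * |c| + |R| with hB
  have hB0 : 0 ≤ B := by positivity
  set G : ℕ → (Site d → ℝ) × Θ → ℂ := fun n p => ((Hv c R p.1)^[n] (fk τ k g p)) 0 with hG
  have hpow : ∀ n, ((Tk hτ c R k ^ n) (hg.toLp g) : Lp ℂ 2 Q) =ᵐ[Q] G n := fun n =>
    Tk_pow hτ c R k _ hg.coeFn_toLp n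
  have hGm : ∀ n, AEStronglyMeasurable (G n) Q := fun n =>
    (Lp.aestronglyMeasurable _).congr (hpow n)
  have hGb : ∀ n p, ‖G n p‖ ≤ B ^ n * M := fun n p =>
    Hv_bound c R p.1 hM (fun x => by
      unfold fk
      rw [norm_mul, norm_ph, one_mul]
      exact hgM _) n 0
  have hfI : Integrable f Q := hf.integrable (by norm_num)
  set F : ℕ → (Site d → ℝ) × Θ → ℂ := fun n p =>
    conj (f p) * (((-Complex.I * t) ^ n / (n.factorial : ℂ)) * G n p) with hF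
  have hFn : ∀ n p, ‖F n p‖ ≤ (|t| ^ n / n.factorial * (B ^ n * M)) * ‖f p‖ := by
    intro n p
    rw [hF]
    simp only
    rw [norm_mul, RCLike.norm_conj, norm_mul, norm_div, norm_pow, norm_mul, norm_neg,
      Complex.norm_I, one_mul, Complex.norm_real, Real.norm_eq_abs, Complex.norm_natCast]
    have := hGb n p
    calc _ ≤ ‖f p‖ * (|t| ^ n / n.factorial * (B ^ n * M)) := by gcongr
      _ = _ := mul_comm _ _
  have hFI : ∀ n, Integrable (F n) Q := by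
    intro n
    refine Integrable.mono' (hfI.norm.const_mul (|t| ^ n / n.factorial * (B ^ n * M))) ?_
      (Eventually.of_forall (hFn n))
    refine AEStronglyMeasurable.mul ?_ ((hGm n).const_mul _)
    exact Complex.continuous_conj.comp_aestronglyMeasurable hf.1
  have hsum : Summable fun n => ∫ p, ‖F n p‖ ∂Q := by
    have h1 : Summable fun n : ℕ => ((|t| * B) ^ n / n.factorial) * (M * ∫ p, ‖f p‖ ∂Q) :=
      (Real.summable_pow_div_factorial _).mul_right _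
    refine Summable.of_nonneg_of_le (fun n => integral_nonneg fun p => norm_nonneg _)
      (fun n => ?_) h1
    refine (integral_mono (hFI n).norm (hfI.norm.const_mul _) (hFn n)).trans (le_of_eq ?_)
    rw [integral_const_mul, mul_pow]
    ring
  have h1 := hasSum_integral_of_summable_integral_norm hFI hsum
  have h2 := eU_series (Tk hτ c R k) t (hf.toLp f) (hg.toLp g)
  have h3 : ∀ n : ℕ, ((-Complex.I * t) ^ n / (n.factorial : ℂ)) *
      ⟪hf.toLp f, (Tk hτ c R k ^ n) (hg.toLp g)⟫_ℂ = ∫ p, F n p ∂Q := by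
    intro n
    rw [L2.inner_def, ← integral_const_mul]
    refine integral_congr_ae ?_
    filter_upwards [hpow n, hf.coeFn_toLp] with p a1 a2
    rw [a1, a2, RCLike.inner_apply, hF]
    simp only
    ring
  simp only [h3] at h2
  refine Eq.trans ?_ (h2.unique h1).symm
  refine integral_congr_ae (Eventually.of_forall fun p => ?_)
  show conj (f p) * wv c R p.1 (fk τ k g p) t = ∑' n, F n p
  unfold wv
  rw [hF, ← tsum_mul_left]

lemma ph_period (k : Fin d → ℝ) : ∃ k' ∈ Set.pi Set.univ fun _ : Fin d => Set.Icc 0 (2 * Real.pi),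
    ph k = ph k' := by
  have hπ := Real.pi_pos
  refine ⟨fun i => k i - 2 * Real.pi * ⌊k i / (2 * Real.pi)⌋, fun i _ => ?_, ?_⟩
  · have h1 := Int.floor_le (k i / (2 * Real.pi))
    have h2 := Int.lt_floor_add_one (k i / (2 * Real.pi))
    rw [le_div_iff₀ (by positivity)] at h1
    rw [div_lt_iff₀ (by positivity)] at h2
    constructor
    · nlinarith
    · nlinarith
  · funext x
    unfold ph
    rw [Complex.exp_eq_exp_iff_exists_int]
    refine ⟨∑ i, ⌊k i / (2 * Real.pi)⌋ * x i, ?_⟩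
    push_cast
    rw [Finset.sum_mul, Finset.mul_sum, Finset.mul_sum, ← Finset.sum_add_distrib]
    refine Finset.sum_congr rfl fun i _ => ?_
    ring

/-- **uniform decay of the coherent amplitudes** -/
theorem decay [NullSingletonClass ν] (hτ : Act m τ) (L : Law ν α β) (hd : 0 < d) (hc : c ≠ 0)
    (hR : ∀ᵐ s ∂ν, |s| ≤ R) {f g : (Site d → ℝ) × Θ → ℂ}
    (hf : MemLp f 2 ((PP d ν).prod m)) (hg : MemLp g 2 ((PP d ν).prod m)) {M : ℝ} (hM : 0 ≤ M)
    (hgM : ∀ p, ‖g p‖ ≤ M) {ε : ℝ} (hε : 0 < ε) :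
    ∃ T₀ : ℝ, 0 < T₀ ∧ ∀ T, T₀ ≤ T → ∀ k : Fin d → ℝ,
      ∫ t in (0 : ℝ)..T, ‖∫ p, conj (f p) * wv c R p.1 (fk τ k g p) t ∂((PP d ν).prod m)‖ ^ 2 ≤
        ε * T := by
  have hS : IsCompact (Set.pi Set.univ fun _ : Fin d => Set.Icc 0 (2 * Real.pi)) :=
    isCompact_univ_pi fun _ => isCompact_Icc
  obtain ⟨T₀, hT₀, H⟩ := mixK2 hS (Tk_cont (ν := ν) hτ c R) (Tk_sa hτ c R) (Tk_norm hτ c R)
    (fun k _ x ψ h => Tk_noeig hτ L hd hc hR k x ψ h) (hf.toLp f) (hg.toLp g) hε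
  refine ⟨T₀, hT₀, fun T hT k => ?_⟩
  obtain ⟨k', hk', hkk⟩ := ph_period k
  have e1 : ∀ p, fk τ k g p = fk τ k' g p := by
    intro p
    unfold fk
    rw [hkk]
  simp only [e1, wv_inner hτ c R k' hf hg hM hgM]
  exact H T hT k' hk'

end Pool.Agent.Helper26.Sw
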